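import Pool.Agent.H89.ND.Mn

/-!
# JOB ND-TRI. Triangle inequality for `EE`

For every `k`: `cvX (h+b1) b2 k - cvX h (b1+b2) k = ∑_{x ∈ antidiagonal k} bin b2 x.2 * (XR (h+b1) x.1 x.1 - cvX h b1 x.1)` since
`bin (b1+b2) = bin b1 * bin b2` (`bin_add`, `Finset.sum_antidiagonal_antidiagonal...`: reindex triples `i + j + m = k`). The function
`n ↦ |XR (h+b1) i i n - cvX h b1 i n|` has period `3^i`, so its mean over `3^k` is `mn i` (`mn_level`); call it `M i`; `M i = 0` for `i > h + b1`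
(`XR_eq_zero`, and `bin b1 j = 0` for `j > b1`). Summing over `k`: `∑_k ∑_{x} bin b2 x.2 M x.1 ≤ ∑_i M i * ∑_j bin b2 j ≤ ∑_i M i = EE h b1`.
Note `h + (b1 + b2) = (h + b1) + b2`.
-/

set_option autoImplicit false

namespace Pool.Agent.H89.ND

open Finset Pool.Agent.H30 Pool.Agent.H30.PD

/-- smoothing twice -/
theorem cvX_add (h b1 b2 k : ℕ) (n : ℤ) :
    cvX h (b1 + b2) k n = ∑ x ∈ antidiagonal k, bin b2 x.2 * cvX h b1 x.1 n := by
  let X : PowerSeries ℝ := PowerSeries.mk (fun i => XR h i i n)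
  let B1 : PowerSeries ℝ := PowerSeries.mk (bin b1)
  let B2 : PowerSeries ℝ := PowerSeries.mk (bin b2)
  have e1 : ∀ i, (X * B1).coeff i = cvX h b1 i n := by
    intro i
    rw [PowerSeries.coeff_mul, cvX]
    refine sum_congr rfl fun x _ => ?_
    rw [PowerSeries.coeff_mk, PowerSeries.coeff_mk, mul_comm]
  have e2 : ∀ i, (B1 * B2).coeff i = bin (b1 + b2) i := by
    intro i
    rw [PowerSeries.coeff_mul, bin_add, Finset.Nat.sum_antidiagonal_eq_sum_range_succ_mk]
    refine sum_congr rfl fun x _ => ?_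
    rw [PowerSeries.coeff_mk, PowerSeries.coeff_mk]
  have e3 : (X * (B1 * B2)).coeff k = cvX h (b1 + b2) k n := by
    rw [PowerSeries.coeff_mul, cvX]
    refine sum_congr rfl fun x _ => ?_
    rw [e2, PowerSeries.coeff_mk, mul_comm]
  rw [← e3, ← mul_assoc, PowerSeries.coeff_mul]
  refine sum_congr rfl fun x _ => ?_
  rw [e1, PowerSeries.coeff_mk, mul_comm]

theorem cvX_eq_zero {h b k : ℕ} (hk : h + b < k) (n : ℤ) : cvX h b k n = 0 := by
  rw [cvX]
  refine sum_eq_zero fun x hx => ?_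
  rw [HasAntidiagonal.mem_antidiagonal] at hx
  by_cases h1 : h < x.1
  · rw [XR_eq_zero _ h1, mul_zero]
  · rw [bin_eq_zero (by omega), zero_mul]

theorem EE_tri (h b1 b2 : ℕ) : EE h (b1 + b2) ≤ EE h b1 + EE (h + b1) b2 := by
  set M : ℕ → ℝ := fun i => mn i (fun n => |XR (h + b1) i i n - cvX h b1 i n|) with hM
  have hM0 : ∀ i, 0 ≤ M i := fun i => mn_nonneg fun n => abs_nonneg _
  have hMz : ∀ i, h + b1 < i → M i = 0 := by
    intro i hi
    have : (fun n => |XR (h + b1) i i n - cvX h b1 i n|) = fun _ => (0 : ℝ) := by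
      funext n
      rw [XR_eq_zero _ hi, cvX_eq_zero hi, sub_zero, abs_zero]
    rw [hM]
    simp only [this]
    simp [mn]
  set N := h + (b1 + b2) + 1 with hN
  have hN' : h + b1 + b2 + 1 = N := by omega
  -- termwise bound
  have hterm : ∀ k, mn k (fun n => |XR (h + (b1 + b2)) k k n - cvX h (b1 + b2) k n|) ≤
      mn k (fun n => |XR (h + b1 + b2) k k n - cvX (h + b1) b2 k n|) +
        ∑ x ∈ antidiagonal k, bin b2 x.2 * M x.1 := by
    intro k
    have h1 : ∀ n, |XR (h + (b1 + b2)) k k n - cvX h (b1 + b2) k n| ≤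
        |XR (h + b1 + b2) k k n - cvX (h + b1) b2 k n| +
        ∑ x ∈ antidiagonal k, bin b2 x.2 * |XR (h + b1) x.1 x.1 n - cvX h b1 x.1 n| := by
      intro n
      have e : XR (h + (b1 + b2)) k k n - cvX h (b1 + b2) k n =
          (XR (h + b1 + b2) k k n - cvX (h + b1) b2 k n) +
          ∑ x ∈ antidiagonal k, bin b2 x.2 * (XR (h + b1) x.1 x.1 n - cvX h b1 x.1 n) := by
        simp only [mul_sub, sum_sub_distrib]
        rw [← cvX_add, ← add_assoc h b1 b2]
        have : cvX (h + b1) b2 k n =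
          ∑ x ∈ antidiagonal k, bin b2 x.2 * XR (h + b1) x.1 x.1 n := rfl
        rw [← this]
        ring
      rw [e]
      refine (abs_add_le _ _).trans (add_le_add le_rfl ((abs_sum_le_sum_abs _ _).trans
        (le_of_eq (sum_congr rfl fun x _ => ?_))))
      rw [abs_mul, abs_of_nonneg (bin_nonneg _ _)]
    refine (mn_mono h1).trans ?_
    rw [mn_add, mn_sum]
    refine add_le_add le_rfl (sum_le_sum fun x hx => ?_)
    rw [HasAntidiagonal.mem_antidiagonal] at hx
    rw [mn_smul]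
    refine mul_le_mul_of_nonneg_left (le_of_eq ?_) (bin_nonneg _ _)
    refine mn_level (r := x.1) (q := k) (by omega) fun n => ?_
    rw [XR_periodic le_rfl, cvX_periodic le_rfl]
  have hsum : ∑ k ∈ range N, ∑ x ∈ antidiagonal k, bin b2 x.2 * M x.1 ≤ EE h b1 := by
    have e1 : ∑ k ∈ range N, ∑ x ∈ antidiagonal k, bin b2 x.2 * M x.1 =
        ∑ i ∈ range N, ∑ k ∈ Ico i N, bin b2 (k - i) * M i := by
      rw [range_eq_Ico, Finset.sum_Ico_Ico_comm]
      refine sum_congr rfl fun k _ => ?_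
      rw [Finset.Nat.sum_antidiagonal_eq_sum_range_succ_mk, range_eq_Ico]
    rw [e1]
    have e2 : ∀ i ∈ range N, ∑ k ∈ Ico i N, bin b2 (k - i) * M i ≤ M i := by
      intro i _
      rw [← sum_mul, sum_Ico_eq_sum_range]
      have : ∑ j ∈ range (N - i), bin b2 (i + j - i) ≤ 1 := by
        have h2 := sum_bin_le b2 (N - i)
        simpa using h2
      nlinarith [hM0 i]
    refine (sum_le_sum e2).trans (le_of_eq ?_)
    rw [EE]
    symm
    refine sum_subset (range_mono (by omega)) fun i _ hi => ?_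
    rw [mem_range, not_lt] at hi
    exact hMz i (by omega)
  calc EE h (b1 + b2) = ∑ k ∈ range N,
        mn k (fun n => |XR (h + (b1 + b2)) k k n - cvX h (b1 + b2) k n|) := rfl
    _ ≤ ∑ k ∈ range N, (mn k (fun n => |XR (h + b1 + b2) k k n - cvX (h + b1) b2 k n|) +
        ∑ x ∈ antidiagonal k, bin b2 x.2 * M x.1) := sum_le_sum fun k _ => hterm k
    _ = EE (h + b1) b2 + ∑ k ∈ range N, ∑ x ∈ antidiagonal k, bin b2 x.2 * M x.1 := by
        rw [sum_add_distrib, EE, hN']
    _ ≤ EE h b1 + EE (h + b1) b2 := by linarith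

end Pool.Agent.H89.ND
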