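import Pool.Agent.H89.ND.Step2
import Pool.Agent.H89.ND.Tri

/-!
# JOB ND-CONV. Telescoping over the scales

For `B ≥ 1` (the case `B = 0` is `EE_le_two`): let `C` be from `step2 B` and `C' = max (101 C) (2 * 100^B)`. Claim `EE h b ≤ C'/h^B` for all
`h ≥ 1`, by strong induction on `b` (for all `h`). `h ≤ 100`: `EE_le_two`. `50 b ≤ h`: `step2`. Otherwise let `b1 = h/50` (`1 ≤ b1 < b`): `EE_tri` with
`b = b1 + (b - b1)`, `step2` for `EE h b1`, induction for `EE (h + b1) (b - b1) ≤ C'/(h+b1)^B ≤ C'/(1.01 h)^B ≤ C'/(1.01 h^B)`; and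
`C + C'/1.01 ≤ C'`.
-/

set_option autoImplicit false

namespace Pool.Agent.H89.ND

open Finset Pool.Agent.H30 Pool.Agent.H30.PD

theorem conv (B : ℕ) : ∃ C : ℝ, 0 ≤ C ∧ ∀ h b : ℕ, 1 ≤ h → EE h b ≤ C / (h : ℝ) ^ B := by
  rcases Nat.eq_zero_or_pos B with hB | hB
  · subst hB
    exact ⟨2, by norm_num, fun h b _ => by simpa using EE_le_two h b⟩
  obtain ⟨C, hC0, hC⟩ := step2 B
  set C' : ℝ := max (101 * C) (2 * 100 ^ B) with hC'
  have hC1 : 101 * C ≤ C' := le_max_left _ _
  have hC2 : 2 * 100 ^ B ≤ C' := le_max_right _ _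
  have hC'0 : 0 ≤ C' := by linarith
  refine ⟨C', hC'0, ?_⟩
  intro h b
  induction b using Nat.strong_induction_on generalizing h with
  | _ b ih =>
    intro hh
    have hhr : (1 : ℝ) ≤ h := by exact_mod_cast hh
    have hhB : 0 < (h : ℝ) ^ B := by positivity
    rcases Nat.lt_or_ge 100 h with h100 | h100
    · rcases Nat.lt_or_ge h (50 * b) with hb | hb
      · set b1 := h / 50 with hb1
        have h1 : 1 ≤ b1 := by omega
        have h2 : b1 < b := by omega
        have h3 : b1 + (b - b1) = b := by omega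
        have h4 := EE_tri h b1 (b - b1)
        rw [h3] at h4
        have h5 := hC h b1 hh (by omega)
        have h6 := ih (b - b1) (by omega) (h + b1) (by omega)
        have h7 : (101 : ℝ) / 100 * h ≤ ((h + b1 : ℕ) : ℝ) := by
          have h8 : 101 * h ≤ 100 * (h + b1) := by omega
          have h9 : (101 : ℝ) * h ≤ 100 * ((h + b1 : ℕ) : ℝ) := by exact_mod_cast h8
          linarith
        have h8 : (101 : ℝ) / 100 * (h : ℝ) ^ B ≤ ((h + b1 : ℕ) : ℝ) ^ B := by
          calc (101 : ℝ) / 100 * (h : ℝ) ^ B ≤ (101 / 100) ^ B * (h : ℝ) ^ B := by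
                refine mul_le_mul_of_nonneg_right ?_ hhB.le
                exact le_self_pow₀ (by norm_num) (by omega)
            _ = (101 / 100 * (h : ℝ)) ^ B := by rw [mul_pow]
            _ ≤ _ := pow_le_pow_left₀ (by positivity) h7 B
        have h9 : C' / ((h + b1 : ℕ) : ℝ) ^ B ≤ C' / (101 / 100 * (h : ℝ) ^ B) :=
          div_le_div_of_nonneg_left hC'0 (by positivity) h8
        have h10 : C / (h : ℝ) ^ B + C' / (101 / 100 * (h : ℝ) ^ B) ≤ C' / (h : ℝ) ^ B := by
          have h11 : C' / (101 / 100 * (h : ℝ) ^ B) = (100 / 101 * C') / (h : ℝ) ^ B := by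
            field_simp
          rw [h11, ← add_div]
          refine div_le_div_of_nonneg_right ?_ hhB.le
          linarith
        linarith
      · have h5 := hC h b hh hb
        refine h5.trans (div_le_div_of_nonneg_right ?_ hhB.le)
        linarith
    · have h1 := EE_le_two h b
      refine h1.trans ?_
      rw [le_div_iff₀ hhB]
      have h2 : (h : ℝ) ^ B ≤ 100 ^ B := by
        refine pow_le_pow_left₀ (by positivity) ?_ B
        exact_mod_cast h100
      linarith

end Pool.Agent.H89.ND
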