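import Pool.Agent.H89.ND.Cnt
import Pool.Agent.H89.ND.Conv

/-!
# JOB ND-MASTER. The master identity

Let `l = h + b`, `z_k = 3^k x/2^l` (`≥ 3^k` as `2^l ≤ x`), `y_q = 3^q x/2^b`, so `3^(k') y_q/2^h = z_(k'+q)`. `cnt_approx` for `(l, x)` divided by `x`:
`cnt W l (αx) ((α+1)x)/x = ∑_{k ≤ l} (1/z_k) tgt W (XR l k k) (α z_k) ((α+1) z_k) + O(4 * 2^l/x)` (since `2^l/(3^k x) = 1/z_k`). `cnt_approx` for `(h, y_q)`
divided by `y_q`, `1/y_q * 2^h/3^(k') = 1/z_(k'+q)`: the average over `q` of `cnt W h .../y_q` is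
`∑_q bin b q ∑_{k' ≤ h} (1/z_(k'+q)) tgt W (XR h k' k') (α z_(k'+q)) ((α+1) z_(k'+q)) + O(4 * 2^h/y_q)`, `2^h/y_q ≤ 2^l/x`, which is
`∑_{k ≤ l} (1/z_k) tgt W (cvX h b k) (α z_k) ((α+1) z_k)` (`bin b q = 0` for `q > b`, `XR h k' k' = 0` for `k' > h`; `Eb b F = ∑_{q ≤ b} bin b q F q`). The
difference of the main terms is at most `∑_k (1/z_k) ∑_{n ∈ (α z_k, (α+1) z_k]} |XR l k k n - cvX h b k n| ≤ ∑_k 3 mn k |...| = 3 EE h b`
(`sum_le_mn` with `A = α z_k`, `z = z_k`).
`master_conv`: `master` and `conv`.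
-/

set_option autoImplicit false

namespace Pool.Agent.H89.ND

open Finset Pool.Agent.H30 Pool.Agent.H30.PD

theorem Master_tgt_add (W : Set ℤ) (G G' : ℤ → ℝ) (A B : ℝ) :
    tgt W (fun n => G n + G' n) A B = tgt W G A B + tgt W G' A B := by
  classical
  unfold tgt
  exact Finset.sum_add_distrib

theorem Master_tgt_smul (W : Set ℤ) (c : ℝ) (G : ℤ → ℝ) (A B : ℝ) :
    tgt W (fun n => c * G n) A B = c * tgt W G A B := by
  classical
  unfold tgt
  exact (Finset.mul_sum _ _ _).symm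

theorem Master_tgt_sum {ι : Type*} (W : Set ℤ) (s : Finset ι) (G : ι → ℤ → ℝ) (A B : ℝ) :
    tgt W (fun n => ∑ i ∈ s, G i n) A B = ∑ i ∈ s, tgt W (G i) A B := by
  classical
  unfold tgt
  exact Finset.sum_comm

theorem Master_tgt_abs (W : Set ℤ) (G : ℤ → ℝ) (A B : ℝ) :
    |tgt W G A B| ≤ tgt W (fun n => |G n|) A B := by
  classical
  unfold tgt
  exact Finset.abs_sum_le_sum_abs _ _

theorem Master_tgt_le {q : ℕ} (W : Set ℤ) {G : ℤ → ℝ} (hG0 : ∀ n, 0 ≤ G n)
    (hG : ∀ n, G (n + 3 ^ q) = G n) (α : ℝ) {z : ℝ} (hz : (3 : ℝ) ^ q ≤ z) :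
    tgt W G (α * z) ((α + 1) * z) ≤ 3 * z * mn q G := by
  classical
  unfold tgt
  refine sum_le_mn (A := α * z) hG0 hG hz _ (fun m hm => ?_)
  rw [Finset.mem_filter, Finset.mem_Ioc] at hm
  refine ⟨Int.floor_lt.1 hm.1.1, ?_⟩
  have h1 : (m : ℝ) ≤ (α + 1) * z := Int.le_floor.1 hm.1.2
  linarith

/-- The rectangle `k' ≤ h`, `q ≤ b` written by diagonals. -/
theorem Master_rect (h b : ℕ) (f : ℕ → ℕ × ℕ → ℝ)
    (hf : ∀ k x, h < x.1 ∨ b < x.2 → f k x = 0) :
    ∑ k ∈ range (h + b + 1), ∑ x ∈ antidiagonal k, f k x =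
      ∑ q ∈ range (b + 1), ∑ k' ∈ range (h + 1), f (k' + q) (k', q) := by
  classical
  have h1 : ∑ x ∈ range (h + 1) ×ˢ range (b + 1), f (x.1 + x.2) x =
      ∑ k ∈ range (h + b + 1), ∑ x ∈ (range (h + 1) ×ˢ range (b + 1)).filter
        (fun x => x.1 + x.2 = k), f (x.1 + x.2) x := by
    symm
    apply Finset.sum_fiberwise_of_maps_to
    intro x hx
    rw [Finset.mem_product, Finset.mem_range, Finset.mem_range] at hx
    rw [Finset.mem_range]
    omega
  rw [Finset.sum_comm, ← Finset.sum_product' (range (h + 1)) (range (b + 1))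
    (fun k' q => f (k' + q) (k', q)), h1]
  refine Finset.sum_congr rfl fun k _ => ?_
  symm
  have h2 : ∑ x ∈ (range (h + 1) ×ˢ range (b + 1)).filter (fun x => x.1 + x.2 = k),
      f (x.1 + x.2) x = ∑ x ∈ (range (h + 1) ×ˢ range (b + 1)).filter
        (fun x => x.1 + x.2 = k), f k x := by
    refine Finset.sum_congr rfl fun x hx => ?_
    rw [(Finset.mem_filter.1 hx).2]
  rw [h2]
  apply Finset.sum_subset
  · intro x hx
    rw [Finset.HasAntidiagonal.mem_antidiagonal]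
    exact (Finset.mem_filter.1 hx).2
  · intro x hx hnot
    apply hf
    by_contra hcon
    push Not at hcon
    apply hnot
    rw [Finset.mem_filter, Finset.mem_product, Finset.mem_range, Finset.mem_range]
    exact ⟨⟨by omega, by omega⟩, Finset.HasAntidiagonal.mem_antidiagonal.1 hx⟩

theorem Master_Eb (b : ℕ) (F : ℕ → ℝ) : Eb b F = ∑ q ∈ range (b + 1), bin b q * F q := by
  unfold Eb Sb bin
  rw [Finset.sum_div]
  exact Finset.sum_congr rfl fun q _ => by ring

theorem Master_Eb_abs_le (b : ℕ) {F : ℕ → ℝ} {E : ℝ} (hF : ∀ q, |F q| ≤ E) : |Eb b F| ≤ E := by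
  rw [Master_Eb]
  refine (Finset.abs_sum_le_sum_abs _ _).trans ?_
  have h1 : ∀ q ∈ range (b + 1), |bin b q * F q| ≤ bin b q * E := by
    intro q _
    rw [abs_mul, abs_of_nonneg (bin_nonneg b q)]
    exact mul_le_mul_of_nonneg_left (hF q) (bin_nonneg b q)
  refine (Finset.sum_le_sum h1).trans ?_
  rw [← Finset.sum_mul, sum_bin, one_mul]

theorem master (W : Set ℤ) (α x : ℝ) (h b : ℕ) (hx : (2 : ℝ) ^ (h + b) ≤ x) :
    |(cnt W (h + b) (α * x) ((α + 1) * x) : ℝ) / x -
      Eb b (fun q => (cnt W h (α * (3 ^ q * x / 2 ^ b)) ((α + 1) * (3 ^ q * x / 2 ^ b)) : ℝ) /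
        (3 ^ q * x / 2 ^ b))| ≤ 8 * 2 ^ (h + b) / x + 3 * EE h b := by
  have h2l : (0 : ℝ) < 2 ^ (h + b) := by positivity
  have hx0 : 0 < x := h2l.trans_le hx
  have hxne : x ≠ 0 := hx0.ne'
  set z : ℕ → ℝ := fun k => 3 ^ k * x / 2 ^ (h + b) with hz
  have hz0 : ∀ k, 0 < z k := fun k => by
    simp only [hz]
    positivity
  have hz1 : ∀ k, (3 : ℝ) ^ k ≤ z k := by
    intro k
    simp only [hz]
    rw [le_div_iff₀ h2l]
    exact mul_le_mul_of_nonneg_left hx (by positivity)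
  -- the main term of the first count
  set M1 : ℝ := ∑ k ∈ range (h + b + 1),
    tgt W (fun n => (1 / z k) * XR (h + b) k k n) (α * z k) ((α + 1) * z k) with hM1
  set M2 : ℝ := ∑ k ∈ range (h + b + 1),
    tgt W (fun n => (1 / z k) * cvX h b k n) (α * z k) ((α + 1) * z k) with hM2
  have e1 : |(cnt W (h + b) (α * x) ((α + 1) * x) : ℝ) / x - M1| ≤ 4 * 2 ^ (h + b) / x := by
    have h1 := cnt_approx W (h + b) α x hx0
    have h2 : (∑ k ∈ range (h + b + 1), tgt W (fun n => 2 ^ (h + b) / 3 ^ k * XR (h + b) k k n)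
        (α * (3 ^ k * x / 2 ^ (h + b))) ((α + 1) * (3 ^ k * x / 2 ^ (h + b)))) = M1 * x := by
      rw [hM1, Finset.sum_mul]
      refine Finset.sum_congr rfl fun k _ => ?_
      rw [Master_tgt_smul, Master_tgt_smul]
      simp only [hz]
      field_simp
    rw [h2] at h1
    have h3 : (cnt W (h + b) (α * x) ((α + 1) * x) : ℝ) / x - M1 =
        ((cnt W (h + b) (α * x) ((α + 1) * x) : ℝ) - M1 * x) / x := by
      field_simp
    rw [h3, abs_div, abs_of_pos hx0]
    exact div_le_div_of_nonneg_right h1 hx0.le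
  -- the second counts
  set N : ℕ → ℝ := fun q => ∑ k' ∈ range (h + 1),
    tgt W (fun n => (1 / z (k' + q)) * XR h k' k' n) (α * z (k' + q)) ((α + 1) * z (k' + q))
    with hN
  have e2 : ∀ q, |(cnt W h (α * (3 ^ q * x / 2 ^ b)) ((α + 1) * (3 ^ q * x / 2 ^ b)) : ℝ) /
      (3 ^ q * x / 2 ^ b) - N q| ≤ 4 * 2 ^ (h + b) / x := by
    intro q
    set y : ℝ := 3 ^ q * x / 2 ^ b with hy
    have hy0 : 0 < y := by rw [hy]; positivity
    have hyz : ∀ k', 3 ^ k' * y / 2 ^ h = z (k' + q) := by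
      intro k'
      simp only [hz, hy]
      rw [pow_add, pow_add]
      field_simp
    have h1 := cnt_approx W h α y hy0
    have h2 : (∑ k ∈ range (h + 1), tgt W (fun n => 2 ^ h / 3 ^ k * XR h k k n)
        (α * (3 ^ k * y / 2 ^ h)) ((α + 1) * (3 ^ k * y / 2 ^ h))) = N q * y := by
      simp only [hN]
      rw [Finset.sum_mul]
      refine Finset.sum_congr rfl fun k _ => ?_
      rw [Master_tgt_smul, Master_tgt_smul, ← hyz k]
      field_simp
    rw [h2] at h1
    have h3 : (cnt W h (α * y) ((α + 1) * y) : ℝ) / y - N q =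
        ((cnt W h (α * y) ((α + 1) * y) : ℝ) - N q * y) / y := by
      field_simp
    rw [h3, abs_div, abs_of_pos hy0]
    refine (div_le_div_of_nonneg_right h1 hy0.le).trans ?_
    have h4 : 4 * 2 ^ h / y = (4 * 2 ^ (h + b) / x) / 3 ^ q := by
      rw [hy, pow_add]
      field_simp
    rw [h4]
    exact div_le_self (by positivity) (one_le_pow₀ (by norm_num))
  -- the average of the main terms
  have e3 : Eb b N = M2 := by
    rw [Master_Eb, hM2]
    have h1 : ∀ k ∈ range (h + b + 1),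
        tgt W (fun n => (1 / z k) * cvX h b k n) (α * z k) ((α + 1) * z k) =
        ∑ p ∈ antidiagonal k, bin b p.2 *
          tgt W (fun n => (1 / z k) * XR h p.1 p.1 n) (α * z k) ((α + 1) * z k) := by
      intro k _
      rw [Master_tgt_smul]
      have h2 : tgt W (cvX h b k) (α * z k) ((α + 1) * z k) =
          ∑ p ∈ antidiagonal k, bin b p.2 *
            tgt W (XR h p.1 p.1) (α * z k) ((α + 1) * z k) := by
        have h3 : cvX h b k = fun n => ∑ p ∈ antidiagonal k, bin b p.2 * XR h p.1 p.1 n := rfl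
        rw [h3, Master_tgt_sum]
        exact Finset.sum_congr rfl fun p _ => Master_tgt_smul _ _ _ _ _
      rw [h2, Finset.mul_sum]
      refine Finset.sum_congr rfl fun p _ => ?_
      rw [Master_tgt_smul]
      ring
    rw [Finset.sum_congr rfl h1]
    rw [Master_rect h b (fun k p => bin b p.2 *
      tgt W (fun n => (1 / z k) * XR h p.1 p.1 n) (α * z k) ((α + 1) * z k))]
    · refine Finset.sum_congr rfl fun q _ => ?_
      simp only [hN]
      rw [Finset.mul_sum]
    · rintro k p (hp | hp)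
      · have h2 : (fun n => (1 / z k) * XR h p.1 p.1 n) = fun _ : ℤ => (0 : ℝ) := by
          funext n
          rw [XR_eq_zero p.1 hp n, mul_zero]
        simp only [h2]
        unfold tgt
        simp
      · simp only [bin_eq_zero hp, zero_mul]
  -- the difference of the main terms
  have e4 : |M1 - M2| ≤ 3 * EE h b := by
    have h1 : M1 - M2 = ∑ k ∈ range (h + b + 1), (1 / z k) *
        tgt W (fun n => XR (h + b) k k n - cvX h b k n) (α * z k) ((α + 1) * z k) := by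
      rw [hM1, hM2, ← Finset.sum_sub_distrib]
      refine Finset.sum_congr rfl fun k _ => ?_
      rw [Master_tgt_smul, Master_tgt_smul, ← mul_sub]
      congr 1
      have h2 : (fun n => XR (h + b) k k n - cvX h b k n) =
          fun n => XR (h + b) k k n + (-1) * cvX h b k n := by
        funext n
        ring
      rw [h2, Master_tgt_add, Master_tgt_smul]
      ring
    rw [h1]
    refine (Finset.abs_sum_le_sum_abs _ _).trans ?_
    unfold EE
    rw [Finset.mul_sum]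
    refine Finset.sum_le_sum fun k _ => ?_
    rw [abs_mul, abs_of_pos (one_div_pos.2 (hz0 k))]
    have h2 := Master_tgt_abs W (fun n => XR (h + b) k k n - cvX h b k n) (α * z k)
      ((α + 1) * z k)
    have h3 := Master_tgt_le (q := k) W (G := fun n => |XR (h + b) k k n - cvX h b k n|)
      (fun n => abs_nonneg _) (fun n => by
        rw [XR_periodic le_rfl, cvX_periodic le_rfl]) α (hz1 k)
    refine (mul_le_mul_of_nonneg_left (h2.trans h3) (one_div_pos.2 (hz0 k)).le).trans ?_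
    apply le_of_eq
    have := (hz0 k).ne'
    field_simp
  have e5 : |Eb b (fun q => (cnt W h (α * (3 ^ q * x / 2 ^ b)) ((α + 1) * (3 ^ q * x / 2 ^ b)) : ℝ) /
      (3 ^ q * x / 2 ^ b)) - Eb b N| ≤ 4 * 2 ^ (h + b) / x := by
    rw [← Eb_sub]
    exact Master_Eb_abs_le b e2
  rw [e3] at e5
  have e6 : 8 * 2 ^ (h + b) / x = 4 * 2 ^ (h + b) / x + 4 * 2 ^ (h + b) / x := by ring
  rw [e6]
  rw [abs_le] at *
  constructor <;> linarith [e1.1, e1.2, e4.1, e4.2, e5.1, e5.2]

theorem master_conv (B : ℕ) : ∃ C : ℝ, 0 ≤ C ∧ ∀ (W : Set ℤ) (α x : ℝ) (h b : ℕ), 1 ≤ h →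
    (2 : ℝ) ^ (h + b) ≤ x →
    |(cnt W (h + b) (α * x) ((α + 1) * x) : ℝ) / x -
      Eb b (fun q => (cnt W h (α * (3 ^ q * x / 2 ^ b)) ((α + 1) * (3 ^ q * x / 2 ^ b)) : ℝ) /
        (3 ^ q * x / 2 ^ b))| ≤ 8 * 2 ^ (h + b) / x + C / (h : ℝ) ^ B := by
  obtain ⟨C, hC0, hC⟩ := conv B
  refine ⟨3 * C, by positivity, fun W α x h b hh hx => (master W α x h b hx).trans ?_⟩
  have h1 := hC h b hh
  have h2 : 3 * EE h b ≤ 3 * C / (h : ℝ) ^ B := by
    rw [mul_div_assoc]
    linarith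
  linarith

end Pool.Agent.H89.ND
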