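import Pool.Agent.H89.ND.Uni

/-!
# JOB ND-ADD. The natural density is countably additive on invariant sets

* `rat_union`: cards of disjoint finite sets. `dens_union`: limits (`tendsto_dens`, `tendsto_nhds_unique`; an invariant set is `EvInv _ 0`).
* `dens_iUnion`: let `V k = ⋃ i ≥ k, U i` (invariant). By induction `dens (⋃ U i) = ∑_{i<k} dens (U i) + dens (V k)`. `dens (V k) → 0`: given `η`, take `N` from
  `dens_unif (η/2)`; the finitely many `n` with `|n| ≤ N` lie in at most one `U i` each, so `V k` contains none of them for large `k`, `rat (V k) N = 0` and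
  `dens (V k) ≤ η/2`. `hasSum_iff_tendsto_nat_of_nonneg`.
-/

set_option autoImplicit false

namespace Pool.Agent.H89.ND

open Finset Filter Topology Pool.Agent.H30 Pool.Agent.H30.PD

open Classical in
theorem rat_eq_filter (U : Set ℤ) (x : ℕ) :
    rat U x = (((Icc (-(x : ℤ)) x).filter fun n => n ∈ U).card : ℝ) / (2 * x + 1) := by
  unfold rat
  have : Nat.card {n : ℤ // n ∈ U ∧ |n| ≤ x} = ((Icc (-(x : ℤ)) x).filter fun n => n ∈ U).card := by
    rw [← Nat.card_eq_finsetCard]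
    refine Nat.card_congr (Equiv.subtypeEquivRight fun n => ?_)
    rw [Finset.mem_filter, Finset.mem_Icc, abs_le]
    tauto
  rw [this]

theorem dens_nonneg {U : Set ℤ} (hU : ∀ n, T n ∈ U ↔ n ∈ U) : 0 ≤ dens U :=
  ge_of_tendsto' (tendsto_dens (K := 0) fun n _ => hU n) fun x => rat_nonneg U x

theorem dens_univ : dens Set.univ = 1 := by
  have h : Tendsto (rat Set.univ) atTop (𝓝 (dens Set.univ)) :=
    tendsto_dens (K := 0) fun n _ => by simp
  have h1 : rat Set.univ = fun _ => (1 : ℝ) := by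
    classical
    funext x
    rw [rat_eq_filter]
    simp only [Set.mem_univ, Finset.filter_true, Int.card_Icc]
    have : ((x : ℤ) + 1 - -(x : ℤ)).toNat = 2 * x + 1 := by omega
    rw [this]
    push_cast
    exact div_self (by positivity)
  rw [h1] at h
  exact tendsto_nhds_unique h tendsto_const_nhds

theorem rat_union {U U' : Set ℤ} (hd : Disjoint U U') (x : ℕ) :
    rat (U ∪ U') x = rat U x + rat U' x := by
  classical
  rw [rat_eq_filter, rat_eq_filter, rat_eq_filter, ← add_div]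
  congr 1
  rw [← Nat.cast_add, ← Finset.card_union_of_disjoint]
  · congr 2
    ext n
    simp only [Finset.mem_filter, Finset.mem_union, Set.mem_union]
    tauto
  · rw [Finset.disjoint_left]
    intro n h1 h2
    rw [Finset.mem_filter] at h1 h2
    exact Set.disjoint_left.mp hd h1.2 h2.2

theorem dens_union {U U' : Set ℤ} (hU : ∀ n, T n ∈ U ↔ n ∈ U) (hU' : ∀ n, T n ∈ U' ↔ n ∈ U')
    (hd : Disjoint U U') : dens (U ∪ U') = dens U + dens U' := by
  have h : Tendsto (rat (U ∪ U')) atTop (𝓝 (dens (U ∪ U'))) :=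
    tendsto_dens (K := 0) fun n _ => by
      rw [Set.mem_union, Set.mem_union, hU n, hU' n]
  have h1 : Tendsto (rat U) atTop (𝓝 (dens U)) := tendsto_dens (K := 0) fun n _ => hU n
  have h2 : Tendsto (rat U') atTop (𝓝 (dens U')) := tendsto_dens (K := 0) fun n _ => hU' n
  have h3 : rat (U ∪ U') = fun x => rat U x + rat U' x := funext fun x => rat_union hd x
  rw [h3] at h
  exact tendsto_nhds_unique h (h1.add h2)

/-- The tail of a union. -/
def tl (U : ℕ → Set ℤ) (k : ℕ) : Set ℤ := {n | ∃ i, k ≤ i ∧ n ∈ U i}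

theorem tl_inv {U : ℕ → Set ℤ} (hU : ∀ i n, T n ∈ U i ↔ n ∈ U i) (k : ℕ) (n : ℤ) :
    T n ∈ tl U k ↔ n ∈ tl U k := by
  unfold tl
  simp only [Set.mem_ofPred_eq, hU]

theorem tl_zero (U : ℕ → Set ℤ) : tl U 0 = ⋃ i, U i := by
  ext n
  simp [tl]

theorem tl_succ (U : ℕ → Set ℤ) (k : ℕ) : tl U k = U k ∪ tl U (k + 1) := by
  ext n
  simp only [tl, Set.mem_ofPred_eq, Set.mem_union]
  constructor
  · rintro ⟨i, hi, hn⟩
    rcases Nat.eq_or_lt_of_le hi with h | h
    · exact Or.inl (h ▸ hn)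
    · exact Or.inr ⟨i, h, hn⟩
  · rintro (h | ⟨i, hi, hn⟩)
    · exact ⟨k, le_rfl, h⟩
    · exact ⟨i, by omega, hn⟩

theorem tl_disj {U : ℕ → Set ℤ} (hd : Pairwise (Function.onFun Disjoint U)) (k : ℕ) :
    Disjoint (U k) (tl U (k + 1)) := by
  rw [Set.disjoint_left]
  rintro n hn ⟨i, hi, hni⟩
  exact Set.disjoint_left.mp (hd (show k ≠ i by omega)) hn hni

theorem dens_split {U : ℕ → Set ℤ} (hU : ∀ i n, T n ∈ U i ↔ n ∈ U i)
    (hd : Pairwise (Function.onFun Disjoint U)) (k : ℕ) :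
    dens (⋃ i, U i) = ∑ i ∈ range k, dens (U i) + dens (tl U k) := by
  induction k with
  | zero => simp [tl_zero]
  | succ k ih =>
    rw [ih, Finset.sum_range_succ, add_assoc]
    congr 1
    rw [tl_succ, dens_union (hU k) (tl_inv hU (k + 1)) (tl_disj hd k)]

theorem tl_finite_avoid {U : ℕ → Set ℤ} (hd : Pairwise (Function.onFun Disjoint U))
    (S : Finset ℤ) : ∃ k₀, ∀ k ≥ k₀, ∀ n ∈ S, n ∉ tl U k := by
  classical
  have h1 : ∀ n : ℤ, ∃ k, n ∉ tl U k := by
    intro n
    by_cases h : ∃ i, n ∈ U i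
    · obtain ⟨i, hi⟩ := h
      refine ⟨i + 1, ?_⟩
      rintro ⟨j, hj, hn⟩
      exact Set.disjoint_left.mp (hd (show i ≠ j by omega)) hi hn
    · refine ⟨0, ?_⟩
      rintro ⟨j, -, hn⟩
      exact h ⟨j, hn⟩
  choose g hg using h1
  refine ⟨S.sup g, fun k hk n hn => ?_⟩
  rintro ⟨j, hj, hnj⟩
  exact hg n ⟨j, (Finset.le_sup hn).trans (hk.trans hj), hnj⟩

theorem dens_tl_tendsto {U : ℕ → Set ℤ} (hU : ∀ i n, T n ∈ U i ↔ n ∈ U i)
    (hd : Pairwise (Function.onFun Disjoint U)) :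
    Tendsto (fun k => dens (tl U k)) atTop (𝓝 0) := by
  classical
  rw [Metric.tendsto_atTop]
  intro η hη
  obtain ⟨N, hN⟩ := dens_unif (η / 2) (half_pos hη)
  obtain ⟨k₀, hk₀⟩ := tl_finite_avoid hd (Icc (-(N : ℤ)) N)
  refine ⟨k₀, fun k hk => ?_⟩
  have h1 := hN (tl U k) (tl_inv hU k) N le_rfl
  have h2 : rat (tl U k) N = 0 := by
    rw [rat_eq_filter, Finset.filter_false_of_mem (fun n hn => hk₀ k hk n hn)]
    simp
  rw [h2, zero_sub, abs_neg] at h1
  rw [Real.dist_eq, sub_zero]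
  linarith

theorem dens_iUnion (U : ℕ → Set ℤ) (hU : ∀ i n, T n ∈ U i ↔ n ∈ U i)
    (hd : Pairwise (Function.onFun Disjoint U)) :
    HasSum (fun i => dens (U i)) (dens (⋃ i, U i)) := by
  rw [hasSum_iff_tendsto_nat_of_nonneg (fun i => dens_nonneg (hU i))]
  have h1 : (fun k => ∑ i ∈ range k, dens (U i)) = fun k => dens (⋃ i, U i) - dens (tl U k) := by
    funext k
    rw [dens_split hU hd k]
    ring
  rw [h1]
  have := (tendsto_const_nhds (x := dens (⋃ i, U i)) (f := atTop (α := ℕ))).sub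
    (dens_tl_tendsto hU hd)
  rwa [sub_zero] at this

end Pool.Agent.H89.ND
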