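import Mathlib

/-!
# Binomial averages

`Eb b F` is the expectation of `F X`, where `X` is binomially distributed with parameters `b`, `1/2`.
-/

namespace Pool.Agent.H89.ND

open Finset

/-- The sum of `F` against the binomial coefficients. -/
def Sb (b : ℕ) (F : ℕ → ℝ) : ℝ := ∑ q ∈ range (b + 1), (b.choose q : ℝ) * F q

/-- The expectation of `F X`, `X` binomial with parameters `b`, `1/2`. -/
noncomputable def Eb (b : ℕ) (F : ℕ → ℝ) : ℝ := Sb b F / 2 ^ b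

theorem Sb_add (b : ℕ) (F G : ℕ → ℝ) : Sb b (fun q => F q + G q) = Sb b F + Sb b G := by
  simp only [Sb, mul_add, sum_add_distrib]

theorem Sb_sub (b : ℕ) (F G : ℕ → ℝ) : Sb b (fun q => F q - G q) = Sb b F - Sb b G := by
  simp only [Sb, mul_sub, sum_sub_distrib]

theorem Sb_smul (b : ℕ) (c : ℝ) (F : ℕ → ℝ) : Sb b (fun q => c * F q) = c * Sb b F := by
  simp only [Sb, mul_sum]
  exact sum_congr rfl fun q _ => by ring

theorem Sb_mono {b : ℕ} {F G : ℕ → ℝ} (h : ∀ q, q ≤ b → F q ≤ G q) : Sb b F ≤ Sb b G := by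
  refine sum_le_sum fun q hq => mul_le_mul_of_nonneg_left (h q ?_) (Nat.cast_nonneg _)
  rw [mem_range] at hq; omega

theorem Sb_abs_le (b : ℕ) (F : ℕ → ℝ) : |Sb b F| ≤ Sb b (fun q => |F q|) := by
  refine (abs_sum_le_sum_abs _ _).trans (sum_le_sum fun q _ => ?_)
  rw [abs_mul, Nat.abs_cast]

theorem Sb_one (b : ℕ) : Sb b (fun _ => 1) = 2 ^ b := by
  have h := Nat.sum_range_choose b
  simp only [Sb, mul_one]
  exact_mod_cast h

theorem Sb_congr {b : ℕ} {F G : ℕ → ℝ} (h : ∀ q, q ≤ b → F q = G q) : Sb b F = Sb b G := by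
  refine sum_congr rfl fun q hq => ?_
  rw [h q]
  rw [mem_range] at hq; omega

/-- `(b+1) S_b[F(·+1)] = S_{b+1}[X F]`. -/
theorem Sb_shift (b : ℕ) (F : ℕ → ℝ) :
    ((b : ℝ) + 1) * Sb b (fun q => F (q + 1)) = Sb (b + 1) (fun q => (q : ℝ) * F q) := by
  rw [Sb, Sb, sum_range_succ' _ (b + 1), mul_sum]
  simp only [Nat.cast_zero, zero_mul, mul_zero, add_zero]
  refine sum_congr rfl fun q _ => ?_
  have h : ((b : ℝ) + 1) * (b.choose q : ℝ) = ((b + 1).choose (q + 1) : ℝ) * ((q : ℝ) + 1) := by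
    exact_mod_cast Nat.add_one_mul_choose_eq b q
  push_cast
  linear_combination F (q + 1) * h

/-- `(b+1) S_b[F] = S_{b+1}[(b+1-X) F]`. -/
theorem Sb_same (b : ℕ) (F : ℕ → ℝ) :
    ((b : ℝ) + 1) * Sb b F = Sb (b + 1) (fun q => ((b : ℝ) + 1 - q) * F q) := by
  rw [Sb, Sb, sum_range_succ _ (b + 1), mul_sum]
  have h0 : ((b : ℝ) + 1 - ((b + 1 : ℕ) : ℝ)) = 0 := by push_cast; ring
  rw [h0, zero_mul, mul_zero, add_zero]
  refine sum_congr rfl fun q hq => ?_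
  rw [mem_range] at hq
  have h : (b.choose q : ℝ) * ((b : ℝ) + 1) = ((b + 1).choose q : ℝ) * ((b : ℝ) + 1 - q) := by
    have h1 := Nat.choose_mul_succ_eq b q
    have h2 : ((b + 1 - q : ℕ) : ℝ) = (b : ℝ) + 1 - q := by
      rw [Nat.cast_sub (by omega)]; push_cast; ring
    rw [← h2]
    exact_mod_cast h1
  linear_combination F q * h

/-- Pascal's rule. -/
theorem Sb_succ (b : ℕ) (F : ℕ → ℝ) : Sb (b + 1) F = Sb b F + Sb b (fun q => F (q + 1)) := by
  have h1 := Sb_shift b F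
  have h2 := Sb_same b F
  have h3 : ((b : ℝ) + 1) * Sb (b + 1) F =
      Sb (b + 1) (fun q => (q : ℝ) * F q) + Sb (b + 1) (fun q => ((b : ℝ) + 1 - q) * F q) := by
    rw [← Sb_add, ← Sb_smul]
    refine Sb_congr fun q _ => by ring
  have hb : ((b : ℝ) + 1) ≠ 0 := by positivity
  have h4 : ((b : ℝ) + 1) * Sb (b + 1) F =
      ((b : ℝ) + 1) * (Sb b F + Sb b (fun q => F (q + 1))) := by
    rw [h3, ← h1, ← h2]; ring
  exact mul_left_cancel₀ hb h4

/-- The variance. -/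
theorem Sb_var (b : ℕ) : Sb b (fun q => (2 * (q : ℝ) - b) ^ 2) = 2 ^ b * b := by
  induction b with
  | zero => simp [Sb]
  | succ b ih =>
    rw [Sb_succ, ← Sb_add]
    have : Sb b (fun q => (2 * (q : ℝ) - ((b + 1 : ℕ) : ℝ)) ^ 2 +
        (2 * ((q + 1 : ℕ) : ℝ) - ((b + 1 : ℕ) : ℝ)) ^ 2) =
        Sb b (fun q => 2 * (2 * (q : ℝ) - b) ^ 2 + 2 * 1) := by
      refine Sb_congr fun q _ => ?_
      push_cast; ring
    rw [this, Sb_add, Sb_smul, Sb_smul, ih, Sb_one]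
    push_cast; ring

/-- `E |2X - b| ≤ √b`. -/
theorem Sb_dev (b : ℕ) : Sb b (fun q => |2 * (q : ℝ) - b|) ≤ 2 ^ b * √b := by
  have h : (Sb b (fun q => |2 * (q : ℝ) - b|)) ^ 2 ≤ (2 ^ b * √b) ^ 2 := by
    have hcs := sum_mul_sq_le_sq_mul_sq (range (b + 1)) (fun q => √(b.choose q : ℝ))
      (fun q => √(b.choose q : ℝ) * |2 * (q : ℝ) - b|)
    have e1 : ∑ q ∈ range (b + 1), √(b.choose q : ℝ) * (√(b.choose q : ℝ) * |2 * (q : ℝ) - b|) =
        Sb b (fun q => |2 * (q : ℝ) - b|) := by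
      refine sum_congr rfl fun q _ => ?_
      rw [← mul_assoc, Real.mul_self_sqrt (Nat.cast_nonneg _)]
    have e2 : ∑ q ∈ range (b + 1), √(b.choose q : ℝ) ^ 2 = 2 ^ b := by
      rw [← Sb_one b]
      refine sum_congr rfl fun q _ => ?_
      rw [Real.sq_sqrt (Nat.cast_nonneg _), mul_one]
    have e3 : ∑ q ∈ range (b + 1), (√(b.choose q : ℝ) * |2 * (q : ℝ) - b|) ^ 2 = 2 ^ b * b := by
      rw [← Sb_var b]
      refine sum_congr rfl fun q _ => ?_
      rw [mul_pow, Real.sq_sqrt (Nat.cast_nonneg _), sq_abs]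
    rw [e1, e2, e3] at hcs
    refine hcs.trans (le_of_eq ?_)
    rw [mul_pow, Real.sq_sqrt (Nat.cast_nonneg _)]
    ring
  exact le_of_sq_le_sq h (by positivity)

theorem Eb_one (b : ℕ) : Eb b (fun _ => 1) = 1 := by
  rw [Eb, Sb_one, div_self (by positivity)]

theorem Eb_const (b : ℕ) (c : ℝ) : Eb b (fun _ => c) = c := by
  have : Sb b (fun _ => c) = c * 2 ^ b := by
    rw [← Sb_one, ← Sb_smul]; simp
  rw [Eb, this, mul_div_assoc, div_self (by positivity), mul_one]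

theorem Eb_add (b : ℕ) (F G : ℕ → ℝ) : Eb b (fun q => F q + G q) = Eb b F + Eb b G := by
  rw [Eb, Sb_add, add_div]; rfl

theorem Eb_sub (b : ℕ) (F G : ℕ → ℝ) : Eb b (fun q => F q - G q) = Eb b F - Eb b G := by
  rw [Eb, Sb_sub, sub_div]; rfl

theorem Eb_smul (b : ℕ) (c : ℝ) (F : ℕ → ℝ) : Eb b (fun q => c * F q) = c * Eb b F := by
  rw [Eb, Sb_smul, mul_div_assoc]; rfl

theorem Eb_mono {b : ℕ} {F G : ℕ → ℝ} (h : ∀ q, q ≤ b → F q ≤ G q) : Eb b F ≤ Eb b G :=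
  div_le_div_of_nonneg_right (Sb_mono h) (by positivity)

theorem Eb_congr {b : ℕ} {F G : ℕ → ℝ} (h : ∀ q, q ≤ b → F q = G q) : Eb b F = Eb b G := by
  rw [Eb, Sb_congr h]; rfl

theorem Eb_abs_le (b : ℕ) (F : ℕ → ℝ) : |Eb b F| ≤ Eb b (fun q => |F q|) := by
  rw [Eb, abs_div, abs_of_pos (show (0:ℝ) < 2 ^ b by positivity)]
  exact div_le_div_of_nonneg_right (Sb_abs_le b F) (by positivity)

theorem Eb_dev (b : ℕ) : Eb b (fun q => |2 * (q : ℝ) - b|) ≤ √b := by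
  rw [Eb, div_le_iff₀ (by positivity), mul_comm]
  exact Sb_dev b

theorem Eb_succ (b : ℕ) (F : ℕ → ℝ) :
    Eb (b + 1) F = (Eb b F + Eb b (fun q => F (q + 1))) / 2 := by
  rw [Eb, Sb_succ, Eb, Eb, pow_succ]
  field_simp

/-- A shift by one changes a binomial average by at most `2 / √(b+1)`. -/
theorem Eb_shift (b : ℕ) {F : ℕ → ℝ} (hF : ∀ q, |F q| ≤ 1) :
    |Eb b (fun q => F (q + 1)) - Eb b F| ≤ 2 / √((b : ℝ) + 1) := by
  have h1 := Sb_shift b F
  have h2 := Sb_same b F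
  have h3 : ((b : ℝ) + 1) * (Sb b (fun q => F (q + 1)) - Sb b F) =
      Sb (b + 1) (fun q => (2 * (q : ℝ) - ((b + 1 : ℕ) : ℝ)) * F q) := by
    rw [mul_sub, h1, h2, ← Sb_sub]
    refine Sb_congr fun q _ => ?_
    push_cast; ring
  have h4 : |Sb (b + 1) (fun q => (2 * (q : ℝ) - ((b + 1 : ℕ) : ℝ)) * F q)| ≤
      2 ^ (b + 1) * √((b + 1 : ℕ) : ℝ) := by
    refine (Sb_abs_le _ _).trans ((Sb_mono fun q _ => ?_).trans (Sb_dev (b + 1)))
    rw [abs_mul]
    exact mul_le_of_le_one_right (abs_nonneg _) (hF q)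
  rw [← h3, abs_mul, abs_of_pos (show (0:ℝ) < (b : ℝ) + 1 by positivity)] at h4
  have hs : 0 < √((b : ℝ) + 1) := Real.sqrt_pos.mpr (by positivity)
  have hss : √((b : ℝ) + 1) * √((b : ℝ) + 1) = (b : ℝ) + 1 := Real.mul_self_sqrt (by positivity)
  have e : Eb b (fun q => F (q + 1)) - Eb b F = (Sb b (fun q => F (q + 1)) - Sb b F) / 2 ^ b := by
    rw [Eb, Eb, sub_div]
  rw [e, abs_div, abs_of_pos (show (0:ℝ) < 2 ^ b by positivity), div_le_div_iff₀ (by positivity) hs]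
  have h5 : ((b + 1 : ℕ) : ℝ) = (b : ℝ) + 1 := by push_cast; ring
  rw [h5, pow_succ] at h4
  have h6 : |Sb b (fun q => F (q + 1)) - Sb b F| * √((b : ℝ) + 1) * √((b : ℝ) + 1) ≤
      2 * 2 ^ b * √((b : ℝ) + 1) := by
    rw [mul_assoc, hss, mul_comm]
    linarith
  exact le_of_mul_le_mul_right h6 hs

/-- Two more steps change a (centred) binomial average by at most `2 / (b+1)`. -/
theorem Eb_two (b : ℕ) {F : ℕ → ℝ} (hF : ∀ q, |F q| ≤ 1) :
    |Eb (b + 2) F - Eb b (fun q => F (q + 1))| ≤ 2 / ((b : ℝ) + 1) := by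
  -- the three identities
  have a1 : ((b : ℝ) + 2) * (((b : ℝ) + 1) * Sb b (fun q => F (q + 2))) =
      Sb (b + 2) (fun q => (q : ℝ) * (((q : ℝ) - 1) * F q)) := by
    have h1 := Sb_shift b (fun q => F (q + 1))
    have h2 := Sb_shift (b + 1) (fun q => ((q : ℝ) - 1) * F q)
    rw [h1, ← h2]
    push_cast
    congr 1
    · ring
    · exact Sb_congr fun q _ => by ring
  have a2 : ((b : ℝ) + 2) * (((b : ℝ) + 1) * Sb b (fun q => F (q + 1))) =
      Sb (b + 2) (fun q => (q : ℝ) * (((b : ℝ) + 2 - q) * F q)) := by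
    have h1 := Sb_same b (fun q => F (q + 1))
    have h2 := Sb_shift (b + 1) (fun q => ((b : ℝ) + 2 - q) * F q)
    rw [h1, ← h2]
    push_cast
    congr 1
    · ring
    · exact Sb_congr fun q _ => by ring
  have a3 : ((b : ℝ) + 2) * (((b : ℝ) + 1) * Sb b F) =
      Sb (b + 2) (fun q => ((b : ℝ) + 2 - q) * (((b : ℝ) + 1 - q) * F q)) := by
    have h1 := Sb_same b F
    have h2 := Sb_same (b + 1) (fun q => ((b : ℝ) + 1 - q) * F q)
    rw [h1]
    push_cast at h2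
    have e : ((b : ℝ) + 2) = (b : ℝ) + 1 + 1 := by ring
    rw [e, h2]
  have a4 : ((b : ℝ) + 2) * (((b : ℝ) + 1) *
      (Sb b F - 2 * Sb b (fun q => F (q + 1)) + Sb b (fun q => F (q + 2)))) =
      Sb (b + 2) (fun q => ((2 * (q : ℝ) - ((b + 2 : ℕ) : ℝ)) ^ 2 - ((b + 2 : ℕ) : ℝ)) * F q) := by
    have : ((b : ℝ) + 2) * (((b : ℝ) + 1) *
      (Sb b F - 2 * Sb b (fun q => F (q + 1)) + Sb b (fun q => F (q + 2)))) =
      ((b : ℝ) + 2) * (((b : ℝ) + 1) * Sb b F) -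
      2 * (((b : ℝ) + 2) * (((b : ℝ) + 1) * Sb b (fun q => F (q + 1)))) +
      ((b : ℝ) + 2) * (((b : ℝ) + 1) * Sb b (fun q => F (q + 2))) := by ring
    rw [this, a1, a2, a3, ← Sb_smul, ← Sb_sub, ← Sb_add]
    refine Sb_congr fun q _ => ?_
    push_cast; ring
  have a5 : |Sb (b + 2) (fun q => ((2 * (q : ℝ) - ((b + 2 : ℕ) : ℝ)) ^ 2 - ((b + 2 : ℕ) : ℝ)) * F q)| ≤
      2 ^ (b + 2) * (2 * ((b : ℝ) + 2)) := by
    refine (Sb_abs_le _ _).trans ((Sb_mono (G := fun q => (2 * (q : ℝ) - ((b + 2 : ℕ) : ℝ)) ^ 2 +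
      ((b + 2 : ℕ) : ℝ) * 1) fun q _ => ?_).trans (le_of_eq ?_))
    · rw [abs_mul]
      refine (mul_le_of_le_one_right (abs_nonneg _) (hF q)).trans ?_
      rw [mul_one, abs_le]
      constructor
      · have := sq_nonneg (2 * (q : ℝ) - ((b + 2 : ℕ) : ℝ)); linarith
      · have : (0 : ℝ) ≤ ((b + 2 : ℕ) : ℝ) := Nat.cast_nonneg _
        linarith
    · rw [Sb_add, Sb_smul, Sb_one, Sb_var]
      push_cast; ring
  rw [← a4, abs_mul, abs_mul, abs_of_pos (show (0:ℝ) < (b : ℝ) + 2 by positivity),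
    abs_of_pos (show (0:ℝ) < (b : ℝ) + 1 by positivity)] at a5
  have e : Eb (b + 2) F - Eb b (fun q => F (q + 1)) =
      (Sb b F - 2 * Sb b (fun q => F (q + 1)) + Sb b (fun q => F (q + 2))) / (4 * 2 ^ b) := by
    rw [Eb_succ (b + 1), Eb_succ b, Eb_succ b, Eb, Eb, Eb]
    field_simp
    ring
  rw [e, abs_div, abs_of_pos (show (0:ℝ) < 4 * 2 ^ b by positivity),
    div_le_div_iff₀ (by positivity) (by positivity)]
  set Z := |Sb b F - 2 * Sb b (fun q => F (q + 1)) + Sb b (fun q => F (q + 2))|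
  have h6 : ((b : ℝ) + 2) * (Z * ((b : ℝ) + 1)) ≤ ((b : ℝ) + 2) * (2 * (4 * 2 ^ b)) := by
    have : (2:ℝ) ^ (b + 2) = 4 * 2 ^ b := by rw [pow_add]; ring
    rw [this] at a5
    linarith
  exact le_of_mul_le_mul_left h6 (by positivity)

/-- `2 a` more steps. -/
theorem Eb_many (b a : ℕ) : ∀ {F : ℕ → ℝ}, (∀ q, |F q| ≤ 1) →
    |Eb (b + 2 * a) F - Eb b (fun q => F (q + a))| ≤ a * (2 / ((b : ℝ) + 1)) := by
  induction a with
  | zero => intro F _; simp
  | succ a ih =>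
    intro F hF
    have h1 := Eb_two (b + 2 * a) hF
    have h2 := ih (F := fun q => F (q + 1)) (fun q => hF _)
    have e1 : b + 2 * (a + 1) = b + 2 * a + 2 := by ring
    have e2 : (fun q => F (q + a + 1)) = fun q => F (q + (a + 1)) := by
      funext q; rfl
    have h3 : 2 / (((b + 2 * a : ℕ) : ℝ) + 1) ≤ 2 / ((b : ℝ) + 1) := by
      refine div_le_div_of_nonneg_left (by norm_num) (by positivity) ?_
      push_cast
      have : (0:ℝ) ≤ 2 * a := by positivity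
      linarith
    rw [e1]
    rw [show (fun q => F (q + a + 1)) = fun q => F (q + (a + 1)) from e2] at h2
    calc |Eb (b + 2 * a + 2) F - Eb b (fun q => F (q + (a + 1)))|
        = |(Eb (b + 2 * a + 2) F - Eb (b + 2 * a) (fun q => F (q + 1))) +
          (Eb (b + 2 * a) (fun q => F (q + 1)) - Eb b (fun q => F (q + (a + 1))))| := by
          congr 1; ring
      _ ≤ 2 / ((b : ℝ) + 1) + a * (2 / ((b : ℝ) + 1)) :=
          (abs_add_le _ _).trans (add_le_add (h1.trans h3) h2)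
      _ = _ := by push_cast; ring

end Pool.Agent.H89.ND
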