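import Mathlib
import Pool.Agent.H89.ND.Bin

/-!
# Functions that are almost harmonic for the 3x+1 random walk (1)
-/

namespace Pool.Agent.H89.ND

open Finset Real MeasureTheory intervalIntegral

/-- A bounded function `f` (of the logarithm of the scale) which is almost harmonic from `s₀` on. -/
structure Good (C s₀ : ℝ) (f : ℝ → ℝ) : Prop where
  nonneg : ∀ s, 0 ≤ f s
  le_one : ∀ s, f s ≤ 1
  meas : Measurable f
  harm : ∀ s, s₀ ≤ s → ∀ b : ℕ, b * log 2 ≤ 0.9 * s →
    |f s - Eb b (fun q => f (s + q * log 3 - b * log 2))| ≤ C / s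
  reg : ∀ s, 0 ≤ s → ∀ t, 0 ≤ t → t ≤ 1 → |f (s + t) - f s| ≤ 2 * t + exp (-s)

theorem log3_lb : 84 / 53 * log 2 ≤ log 3 := by
  have h1 := log_two_lt_d9
  have h2 := log_three_gt_d9
  norm_num at h1 h2 ⊢
  linarith

theorem log3_ub : log 3 ≤ 65 / 41 * log 2 := by
  have h1 := log_two_gt_d9
  have h2 := log_three_lt_d9
  norm_num at h1 h2 ⊢
  linarith

theorem log2_lb : 0.693 ≤ log 2 := by
  have h1 := log_two_gt_d9
  norm_num at h1 ⊢
  linarith

theorem log2_ub : log 2 ≤ 0.694 := by
  have h1 := log_two_lt_d9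
  norm_num at h1 ⊢
  linarith

variable {C s₀ : ℝ} {f : ℝ → ℝ}

theorem Good.abs_le (h : Good C s₀ f) (s : ℝ) : |f s| ≤ 1 := by
  rw [abs_of_nonneg (h.nonneg s)]; exact h.le_one s

theorem Good.ii (h : Good C s₀ f) (a b : ℝ) : IntervalIntegrable f volume a b := by
  refine (intervalIntegrable_const (c := (1 : ℝ))).mono_fun' h.meas.aestronglyMeasurable ?_
  filter_upwards with x
  exact h.abs_le x

/-- The number of steps used for the comparison of nearby points. -/
noncomputable def nb (s : ℝ) : ℕ := ⌊0.8 * s / log 2⌋₊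

theorem nb_le {s : ℝ} (hs : 0 ≤ s) : nb s * log 2 ≤ 0.8 * s := by
  have h2 : 0 < log 2 := log_pos (by norm_num)
  rw [← le_div_iff₀ h2]
  exact Nat.floor_le (by positivity)

theorem nb_ge {s : ℝ} (hs : 0 ≤ s) : s ≤ nb s + 1 := by
  have h2 : 0 < log 2 := log_pos (by norm_num)
  have h1 := Nat.lt_floor_add_one (0.8 * s / log 2)
  have h3 : s ≤ 0.8 * s / log 2 := by
    rw [le_div_iff₀ h2]
    have := log2_ub
    nlinarith
  exact h3.trans h1.le

theorem inv_le_sqrt {s : ℝ} (hs : 1 ≤ s) : 1 / s ≤ 1 / √s := by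
  refine div_le_div_of_nonneg_left (by norm_num) (sqrt_pos.mpr (by linarith)) ?_
  rw [sqrt_le_left (by linarith)]
  nlinarith

theorem div_le_sqrt {C s : ℝ} (hC : 0 ≤ C) (hs : 1 ≤ s) : C / s ≤ C / √s := by
  rw [div_eq_mul_one_div, div_eq_mul_one_div C (√s)]
  exact mul_le_mul_of_nonneg_left (inv_le_sqrt hs) hC

/-- Shift by `log 2`. -/
theorem Good.log2 (h : Good C s₀ f) (hC : 0 ≤ C) {s : ℝ} (hs : 1 ≤ s) (hs₀ : s₀ ≤ s) :
    |f (s + log 2) - f s| ≤ (2 * C + 1) / √s := by
  have h2 : 0 < log 2 := log_pos (by norm_num)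
  have hs0 : 0 ≤ s := by linarith
  set b := nb s
  have hb := nb_le hs0
  have hb' := nb_ge hs0
  have a1 := h.harm (s + log 2) (by linarith) (b + 1) (by
    have e : (((b + 1 : ℕ) : ℝ)) * log 2 = b * log 2 + log 2 := by push_cast; ring
    have := log2_ub
    rw [e]
    norm_num at hb this ⊢
    linarith)
  have a2 := h.harm s hs₀ b (by nlinarith)
  set F : ℕ → ℝ := fun q => f (s + q * log 3 - b * log 2) with hF
  have e1 : Eb (b + 1) (fun q => f (s + log 2 + q * log 3 - ((b + 1 : ℕ) : ℝ) * log 2)) =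
      (Eb b F + Eb b (fun q => F (q + 1))) / 2 := by
    rw [← Eb_succ]
    refine Eb_congr fun q _ => ?_
    rw [hF]
    simp only []
    congr 1
    push_cast; ring
  rw [e1] at a1
  have a3 := Eb_shift b (F := F) (fun q => h.abs_le _)
  have a4 : 2 / √((b : ℝ) + 1) ≤ 2 / √s :=
    div_le_div_of_nonneg_left (by norm_num) (sqrt_pos.mpr (by linarith)) (sqrt_le_sqrt hb')
  have a5 : C / (s + log 2) ≤ C / √s := (div_le_div_of_nonneg_left hC (by linarith)
    (by linarith)).trans (div_le_sqrt hC hs)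
  have a6 : C / s ≤ C / √s := div_le_sqrt hC hs
  have e2 : (2 * C + 1) / √s = C / √s + C / √s + (2 / √s) / 2 := by ring
  rw [e2]
  have e3 : f (s + log 2) - f s = (f (s + log 2) - (Eb b F + Eb b (fun q => F (q + 1))) / 2) +
      (-(f s - Eb b F)) + (Eb b (fun q => F (q + 1)) - Eb b F) / 2 := by ring
  rw [e3]
  refine (abs_add_three _ _ _).trans (add_le_add_three (a1.trans a5) ?_ ?_)
  · rw [abs_neg]; exact a2.trans a6
  · rw [abs_div, abs_two]
    exact div_le_div_of_nonneg_right (a3.trans a4) (by norm_num)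

/-- Shift by `log 3`. -/
theorem Good.log3 (h : Good C s₀ f) (hC : 0 ≤ C) {s : ℝ} (hs : 1 ≤ s) (hs₀ : s₀ ≤ s) :
    |f (s + log 3) - f s| ≤ (2 * C + 2) / √s := by
  have h3 : 0 < Real.log 3 := log_pos (by norm_num)
  have hs0 : 0 ≤ s := by linarith
  set b := nb s
  have hb := nb_le hs0
  have hb' := nb_ge hs0
  have a1 := h.harm (s + Real.log 3) (by linarith) b (by nlinarith)
  have a2 := h.harm s hs₀ b (by nlinarith)
  set F : ℕ → ℝ := fun q => f (s + q * Real.log 3 - b * Real.log 2) with hF
  have e1 : Eb b (fun q => f (s + Real.log 3 + q * Real.log 3 - (b : ℝ) * Real.log 2)) =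
      Eb b (fun q => F (q + 1)) := by
    refine Eb_congr fun q _ => ?_
    rw [hF]
    simp only []
    congr 1
    push_cast; ring
  rw [e1] at a1
  have a3 := Eb_shift b (F := F) (fun q => h.abs_le _)
  have a4 : 2 / √((b : ℝ) + 1) ≤ 2 / √s :=
    div_le_div_of_nonneg_left (by norm_num) (sqrt_pos.mpr (by linarith)) (sqrt_le_sqrt hb')
  have a5 : C / (s + Real.log 3) ≤ C / √s := (div_le_div_of_nonneg_left hC (by linarith)
    (by linarith)).trans (div_le_sqrt hC hs)
  have a6 : C / s ≤ C / √s := div_le_sqrt hC hs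
  have e2 : (2 * C + 2) / √s = C / √s + C / √s + 2 / √s := by ring
  rw [e2]
  have e3 : f (s + Real.log 3) - f s = (f (s + Real.log 3) - Eb b (fun q => F (q + 1))) +
      (-(f s - Eb b F)) + (Eb b (fun q => F (q + 1)) - Eb b F) := by ring
  rw [e3]
  refine (abs_add_three _ _ _).trans (add_le_add_three (a1.trans a5) ?_ (a3.trans a4))
  rw [abs_neg]; exact a2.trans a6

/-- The average of `f` over an interval of length `log 2`. -/
noncomputable def V (f : ℝ → ℝ) (s : ℝ) : ℝ := (∫ r in s..(s + Real.log 2), f r) / Real.log 2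

theorem V_eq (f : ℝ → ℝ) (s : ℝ) : V f s = (∫ t in (0 : ℝ)..(Real.log 2), f (s + t)) / Real.log 2 := by
  rw [V, intervalIntegral.integral_comp_add_left (fun r => f r) s, add_zero]

theorem Good.V_nonneg (h : Good C s₀ f) (s : ℝ) : 0 ≤ V f s := by
  have h2 : 0 < Real.log 2 := log_pos (by norm_num)
  refine div_nonneg ?_ h2.le
  exact intervalIntegral.integral_nonneg (by linarith) fun r _ => h.nonneg r

theorem Good.V_le_one (h : Good C s₀ f) (s : ℝ) : V f s ≤ 1 := by
  have h2 : 0 < Real.log 2 := log_pos (by norm_num)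
  rw [V, div_le_one h2]
  have := intervalIntegral.integral_mono_on (a := s) (b := s + Real.log 2) (by linarith)
    (h.ii _ _) (intervalIntegrable_const (c := (1 : ℝ))) (fun r _ => h.le_one r)
  refine this.trans (le_of_eq ?_)
  simp

theorem Good.ii_shift (h : Good C s₀ f) (c : ℝ) (a b : ℝ) :
    IntervalIntegrable (fun t => f (t + c)) volume a b := by
  refine (intervalIntegrable_const (c := (1 : ℝ))).mono_fun'
    (h.meas.comp (measurable_id.add_const c)).aestronglyMeasurable ?_
  filter_upwards with x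
  exact h.abs_le _

theorem Good.ii_Eb (h : Good C s₀ f) (b : ℕ) (s : ℝ) (c d : ℝ) :
    IntervalIntegrable (fun t => Eb b (fun q => f (s + t + q * Real.log 3 -
      b * Real.log 2))) volume c d := by
  refine (intervalIntegrable_const (c := (1 : ℝ))).mono_fun' ?_ ?_
  · refine Measurable.aestronglyMeasurable ?_
    simp only [Eb, Sb]
    refine Measurable.div_const (Finset.measurable_sum _ fun q _ => ?_) _
    refine Measurable.const_mul (h.meas.comp ?_) _
    exact ((measurable_const.add measurable_id).add_const _).sub_const _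
  · filter_upwards with x
    refine (Eb_abs_le _ _).trans ?_
    rw [← Eb_one b]
    exact Eb_mono fun q _ => h.abs_le _

theorem V_Eb (h : Good C s₀ f) (b : ℕ) (s : ℝ) :
    Eb b (fun q => V f (s + q * Real.log 3 - b * Real.log 2)) =
      (∫ t in (0 : ℝ)..(Real.log 2),
        Eb b (fun q => f (s + t + q * Real.log 3 - b * Real.log 2))) / Real.log 2 := by
  have h2 : 0 < Real.log 2 := log_pos (by norm_num)
  have key : ∀ q : ℕ, (∫ t in (0 : ℝ)..(Real.log 2),
      (b.choose q : ℝ) * f (s + t + q * Real.log 3 - b * Real.log 2)) =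
      (b.choose q : ℝ) * V f (s + q * Real.log 3 - b * Real.log 2) * Real.log 2 := by
    intro q
    rw [intervalIntegral.integral_const_mul, V_eq, mul_assoc, div_mul_cancel₀ _ h2.ne']
    have e : ∀ t, f (s + t + q * Real.log 3 - b * Real.log 2) =
        f (s + q * Real.log 3 - b * Real.log 2 + t) := by
      intro t; congr 1; ring
    simp only [e]
  have e1 : (∫ t in (0 : ℝ)..(Real.log 2),
        Eb b (fun q => f (s + t + q * Real.log 3 - b * Real.log 2))) =
      (∑ q ∈ range (b + 1), (b.choose q : ℝ) * V f (s + q * Real.log 3 - b * Real.log 2) *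
        Real.log 2) / 2 ^ b := by
    simp only [Eb, Sb]
    rw [intervalIntegral.integral_div, intervalIntegral.integral_finsetSum]
    · rw [Finset.sum_congr rfl fun q _ => key q]
    · intro q _
      refine IntervalIntegrable.const_mul ?_ _
      have h1 : (fun t => f (s + t + q * Real.log 3 - b * Real.log 2)) =
          fun t => f (t + (s + q * Real.log 3 - b * Real.log 2)) := by
        funext t; congr 1; ring
      rw [h1]
      exact h.ii_shift _ _ _
  rw [e1, ← Finset.sum_mul, Eb, Sb, mul_div_right_comm, mul_div_assoc, div_self h2.ne', mul_one]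

/-- `V` is almost harmonic. -/
theorem Good.V_harm (h : Good C s₀ f) (hC : 0 ≤ C) {s : ℝ} (hs : 1 ≤ s) (hs₀ : s₀ ≤ s) (b : ℕ)
    (hb : b * Real.log 2 ≤ 0.9 * s) :
    |V f s - Eb b (fun q => V f (s + q * Real.log 3 - b * Real.log 2))| ≤ C / s := by
  have h2 : 0 < Real.log 2 := log_pos (by norm_num)
  have i1 : IntervalIntegrable (fun t => f (s + t)) volume 0 (Real.log 2) := by
    have := h.ii_shift s 0 (Real.log 2)
    simpa [add_comm] using this
  have i2 := h.ii_Eb b s 0 (Real.log 2)
  rw [V_Eb h, V_eq, ← sub_div, ← intervalIntegral.integral_sub i1 i2, abs_div, abs_of_pos h2,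
    div_le_iff₀ h2, ← Real.norm_eq_abs]
  have := intervalIntegral.norm_integral_le_of_norm_le_const (a := 0) (b := Real.log 2)
    (C := C / s) (f := fun t => f (s + t) - Eb b (fun q => f (s + t + q * Real.log 3 -
      b * Real.log 2))) (by
      intro t ht
      rw [Set.uIoc_of_le h2.le] at ht
      rw [Real.norm_eq_abs]
      refine (h.harm (s + t) (by linarith [ht.1]) b (by nlinarith [ht.1])).trans ?_
      exact div_le_div_of_nonneg_left hC (by linarith) (by linarith [ht.1]))
  refine this.trans (le_of_eq ?_)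
  rw [sub_zero, abs_of_pos h2]

/-- `V` moves slowly. -/
theorem Good.V_slow (h : Good C s₀ f) (hC : 0 ≤ C) {s : ℝ} (hs : 1 ≤ s) (hs₀ : s₀ ≤ s) {t : ℝ}
    (ht : 0 ≤ t) : |V f (s + t) - V f s| ≤ t * (2 * ((2 * C + 1) / √s)) := by
  have h2 : 0 < Real.log 2 := log_pos (by norm_num)
  have e : V f (s + t) - V f s = (∫ r in s..(s + t), (f (r + Real.log 2) - f r)) / Real.log 2 := by
    rw [V, V, ← sub_div]
    congr 1
    have i1 : IntervalIntegrable (fun r => f (r + Real.log 2)) volume s (s + t) := by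
      have := (h.ii (s + Real.log 2) (s + t + Real.log 2)).comp_add_right (Real.log 2)
      simpa using this
    rw [intervalIntegral.integral_sub i1 (h.ii _ _), intervalIntegral.integral_comp_add_right
      (fun r => f r)]
    have e1 := intervalIntegral.integral_add_adjacent_intervals (h.ii (s + t) (s + Real.log 2))
      (h.ii (s + Real.log 2) (s + t + Real.log 2))
    have e2 := intervalIntegral.integral_add_adjacent_intervals (h.ii s (s + t))
      (h.ii (s + t) (s + Real.log 2))
    rw [← e1, ← e2]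
    ring
  rw [e, abs_div, abs_of_pos h2, div_le_iff₀ h2, ← Real.norm_eq_abs]
  have hK : 0 ≤ (2 * C + 1) / √s := by positivity
  have := intervalIntegral.norm_integral_le_of_norm_le_const (a := s) (b := s + t)
    (C := (2 * C + 1) / √s) (f := fun r => f (r + Real.log 2) - f r) (by
      intro r hr
      rw [Set.uIoc_of_le (by linarith)] at hr
      rw [Real.norm_eq_abs]
      refine (h.log2 hC (by linarith [hr.1]) (by linarith [hr.1])).trans ?_
      exact div_le_div_of_nonneg_left (by linarith) (sqrt_pos.mpr (by linarith))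
        (sqrt_le_sqrt hr.1.le))
  refine this.trans ?_
  rw [show s + t - s = t by ring, abs_of_nonneg ht]
  have h3 := log2_lb
  have h4 : 0 ≤ t * ((2 * C + 1) / √s) := mul_nonneg ht hK
  nlinarith

/-- Comparison of `V` at `s` and at `s + a log (4/3)`. -/
theorem Good.V_four (h : Good C s₀ f) (hC : 0 ≤ C) {s : ℝ} (hs : 1 ≤ s) (hs₀ : s₀ ≤ s) (a : ℕ)
    (ha : a ≤ 0.08 * s) :
    |V f (s + a * (2 * Real.log 2 - Real.log 3)) - V f s| ≤ (2 * C + 2 * a) / s := by
  have h2 : 0 < Real.log 2 := log_pos (by norm_num)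
  have l2 := log2_lb
  have l2' := log2_ub
  have l3 := log3_lb
  have l3' := log3_ub
  have hs0 : 0 ≤ s := by linarith
  have ha0 : (0 : ℝ) ≤ a := Nat.cast_nonneg a
  have hk0 : 0 ≤ 2 * Real.log 2 - Real.log 3 := by linarith
  set b := nb s
  have hb := nb_le hs0
  have hb' := nb_ge hs0
  have hge : s ≤ s + a * (2 * Real.log 2 - Real.log 3) := by
    have := mul_nonneg ha0 hk0; linarith
  have a1 := h.V_harm hC (s := s + a * (2 * Real.log 2 - Real.log 3)) (by linarith) (by linarith)
    (b + 2 * a) (by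
      push_cast
      have e : (a : ℝ) * (2 * Real.log 2 - 0.9 * (2 * Real.log 2 - Real.log 3)) ≤ 0.1 * s := by
        have e1 : 2 * Real.log 2 - 0.9 * (2 * Real.log 2 - Real.log 3) ≤ 1.25 := by
          norm_num at l2' ⊢
          linarith
        have e2 : 0 ≤ 2 * Real.log 2 - 0.9 * (2 * Real.log 2 - Real.log 3) := by
          norm_num
          linarith
        nlinarith
      norm_num at e hb ⊢
      linarith)
  have a2 := h.V_harm hC hs hs₀ b (by nlinarith)
  set F : ℕ → ℝ := fun q => V f (s + a * (2 * Real.log 2 - Real.log 3) + q * Real.log 3 -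
    ((b + 2 * a : ℕ) : ℝ) * Real.log 2) with hF
  have e1 : Eb b (fun q => V f (s + q * Real.log 3 - (b : ℝ) * Real.log 2)) =
      Eb b (fun q => F (q + a)) := by
    refine Eb_congr fun q _ => ?_
    rw [hF]
    simp only []
    congr 1
    push_cast; ring
  rw [e1] at a2
  have a3 := Eb_many b a (F := F) (fun q => by
    rw [abs_of_nonneg (h.V_nonneg _)]; exact h.V_le_one _)
  have a4 : (a : ℝ) * (2 / ((b : ℝ) + 1)) ≤ a * (2 / s) :=
    mul_le_mul_of_nonneg_left (div_le_div_of_nonneg_left (by norm_num) (by linarith) hb') ha0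
  have a5 : C / (s + a * (2 * Real.log 2 - Real.log 3)) ≤ C / s :=
    div_le_div_of_nonneg_left hC (by linarith) hge
  have e2 : (2 * C + 2 * a) / s = C / s + C / s + a * (2 / s) := by ring
  rw [e2]
  have e3 : V f (s + a * (2 * Real.log 2 - Real.log 3)) - V f s =
      (V f (s + a * (2 * Real.log 2 - Real.log 3)) - Eb (b + 2 * a) F) +
      (-(V f s - Eb b (fun q => F (q + a)))) + (Eb (b + 2 * a) F - Eb b (fun q => F (q + a))) := by
    ring
  rw [e3]
  refine (abs_add_three _ _ _).trans (add_le_add_three (a1.trans a5) ?_ (a3.trans a4))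
  rw [abs_neg]; exact a2

end Pool.Agent.H89.ND
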