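import Mathlib
import Pool.Agent.H89.ND.Ana1

/-!
# Functions that are almost harmonic for the 3x+1 random walk (2): the averages converge
-/

set_option autoImplicit false

namespace Pool.Agent.H89.ND

open Finset Real MeasureTheory intervalIntegral

variable {C s₀ : ℝ} {f : ℝ → ℝ}

/-- The constant of `V_near`. -/
noncomputable def K1 (C : ℝ) : ℝ := 50 + 6 * C

theorem Good.V_near (h : Good C s₀ f) (hC : 0 ≤ C) {s : ℝ} (hs : 1 ≤ s) (hs₀ : s₀ ≤ s) {t : ℝ}
    (ht : 0 ≤ t) : |V f (s + t) - V f s| ≤ K1 C * (t / s + 1 / √s) := by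
  have l2 := log2_lb
  have l2' := log2_ub
  have l3 := log3_lb
  have l3' := log3_ub
  have hs0 : 0 < s := by linarith
  have hsq : 0 < √s := sqrt_pos.mpr hs0
  rcases lt_or_ge (0.02 * s) t with hbig | hsmall
  · have h1 : |V f (s + t) - V f s| ≤ 1 := by
      rw [_root_.abs_le]
      have a1 := h.V_nonneg (s + t)
      have a2 := h.V_nonneg s
      have a3 := h.V_le_one (s + t)
      have a4 := h.V_le_one s
      constructor <;> linarith
    have h2 : 1 ≤ 50 * (t / s) := by
      rw [← mul_div_assoc, le_div_iff₀ hs0]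
      linarith
    have h3 : 50 * (t / s) ≤ K1 C * (t / s + 1 / √s) := by
      have : 0 ≤ t / s := by positivity
      have h4 : 0 ≤ 1 / √s := by positivity
      rw [K1]
      nlinarith [mul_nonneg hC this, mul_nonneg hC h4]
    linarith
  · set κ := 2 * Real.log 2 - Real.log 3 with hκ
    have hκ0 : 0.287 ≤ κ := by
      rw [hκ]
      norm_num at l2 l3' ⊢
      linarith
    have hκ1 : κ ≤ 1 := by
      rw [hκ]
      norm_num at l2' l3 ⊢
      linarith
    have hκp : 0 < κ := by linarith
    set a := ⌊t / κ⌋₊ with ha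
    have ha1 : (a : ℝ) ≤ t / κ := Nat.floor_le (by positivity)
    have ha2 : t / κ < a + 1 := Nat.lt_floor_add_one _
    rw [le_div_iff₀ hκp] at ha1
    rw [div_lt_iff₀ hκp] at ha2
    set r := t - a * κ with hr
    have hr0 : 0 ≤ r := by rw [hr]; linarith
    have hr1 : r ≤ 1 := by rw [hr]; nlinarith
    have ha0 : (0:ℝ) ≤ a := Nat.cast_nonneg _
    have ha3 : (a : ℝ) ≤ 3.5 * t := by nlinarith
    have b1 := h.V_four hC (s := s + r) (by linarith) (by linarith) a (by nlinarith)
    have b2 := h.V_slow hC hs hs₀ hr0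
    have e : s + r + a * (2 * Real.log 2 - Real.log 3) = s + t := by
      rw [← hκ, hr]; ring
    rw [e] at b1
    have b3 : (2 * C + 2 * a) / (s + r) ≤ (2 * C + 2 * a) / s :=
      div_le_div_of_nonneg_left (by positivity) hs0 (by linarith)
    have b4 : (2 * C + 2 * a) / s ≤ 2 * C / √s + 7 * (t / s) := by
      rw [add_div]
      refine add_le_add (div_le_sqrt (by positivity) hs) ?_
      rw [← mul_div_assoc]
      exact div_le_div_of_nonneg_right (by linarith) hs0.le
    have b5 : r * (2 * ((2 * C + 1) / √s)) ≤ 1 * (2 * ((2 * C + 1) / √s)) :=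
      mul_le_mul_of_nonneg_right hr1 (by positivity)
    have e2 : V f (s + t) - V f s = (V f (s + t) - V f (s + r)) + (V f (s + r) - V f s) := by ring
    rw [e2]
    refine (abs_add_le _ _).trans ((add_le_add ((b1.trans b3).trans b4) (b2.trans b5)).trans ?_)
    have h5 : 0 ≤ t / s := by positivity
    have h6 : 0 ≤ 1 / √s := by positivity
    have e3 : 2 * C / √s + 7 * (t / s) + 1 * (2 * ((2 * C + 1) / √s)) =
        (6 * C + 2) * (1 / √s) + 7 * (t / s) := by ring
    rw [e3, K1]
    nlinarith [mul_nonneg hC h5, mul_nonneg hC h6]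

theorem K1_nonneg (hC : 0 ≤ C) : 0 ≤ K1 C := by rw [K1]; positivity

/-- Symmetric form. -/
theorem Good.V_near' (h : Good C s₀ f) (hC : 0 ≤ C) {m : ℝ} (hm : 1 ≤ m) (hm₀ : s₀ ≤ m) {p c : ℝ}
    (hp : m ≤ p) (hc : m ≤ c) : |V f p - V f c| ≤ K1 C * (|p - c| / m + 1 / √m) := by
  have hK := K1_nonneg hC
  have key : ∀ p c : ℝ, m ≤ c → c ≤ p → |V f p - V f c| ≤ K1 C * (|p - c| / m + 1 / √m) := by
    intro p c hc hcp
    have h1 := h.V_near hC (s := c) (by linarith) (by linarith) (t := p - c) (by linarith)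
    rw [show c + (p - c) = p by ring] at h1
    refine h1.trans (mul_le_mul_of_nonneg_left (add_le_add ?_ ?_) hK)
    · rw [abs_of_nonneg (by linarith)]
      exact div_le_div_of_nonneg_left (by linarith) (by linarith) hc
    · exact div_le_div_of_nonneg_left (by norm_num) (sqrt_pos.mpr (by linarith)) (sqrt_le_sqrt hc)
  rcases le_total c p with hcp | hcp
  · exact key p c hc hcp
  · rw [abs_sub_comm, abs_sub_comm p c]
    exact key c p hp hcp

/-- `V` at the mean position after `b` steps. -/
theorem Good.V_mean (h : Good C s₀ f) (hC : 0 ≤ C) {s : ℝ} (hs : 10 ≤ s) (hs₀ : 10 * s₀ ≤ s)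
    (hs₀' : s₀ ≤ s) (b : ℕ) (hb : b * Real.log 2 ≤ 0.9 * s) :
    |V f s - V f (s - b * (Real.log 2 - Real.log 3 / 2))| ≤ (C + 10 * K1 C) / √s := by
  have l2 := log2_lb
  have l2' := log2_ub
  have l3 := log3_lb
  have l3' := log3_ub
  have hK := K1_nonneg hC
  have hs0 : 0 < s := by linarith
  have hsq : 0 < √s := sqrt_pos.mpr hs0
  have hlog3 : 0 < Real.log 3 := by linarith
  have hlog3' : Real.log 3 ≤ 1.1003 := by
    norm_num at l2' l3' ⊢
    linarith
  have hb0 : (0:ℝ) ≤ b := Nat.cast_nonneg _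
  set c := s - b * (Real.log 2 - Real.log 3 / 2) with hc
  set m := 0.1 * s with hm
  have hcm : m ≤ c := by
    rw [hc, hm]
    have : (b:ℝ) * (Real.log 2 - Real.log 3 / 2) ≤ b * Real.log 2 :=
      mul_le_mul_of_nonneg_left (by linarith) hb0
    norm_num at hb ⊢
    linarith
  have a1 := h.V_harm hC (s := s) (by linarith) hs₀' b hb
  have a2 : |Eb b (fun q => V f (s + q * Real.log 3 - b * Real.log 2)) - V f c| ≤
      10 * K1 C / √s := by
    have e1 : Eb b (fun q => V f (s + q * Real.log 3 - b * Real.log 2)) - V f c =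
        Eb b (fun q => V f (s + q * Real.log 3 - b * Real.log 2) - V f c) := by
      rw [Eb_sub, Eb_const]
    rw [e1]
    have b1 : ∀ q : ℕ, |V f (s + q * Real.log 3 - b * Real.log 2) - V f c| ≤
        K1 C * (0.55015 / m) * |2 * (q : ℝ) - b| + K1 C * (1 / √m) := by
      intro q
      have hq0 : (0:ℝ) ≤ q := Nat.cast_nonneg _
      have hp : m ≤ s + q * Real.log 3 - b * Real.log 2 := by
        have := mul_nonneg hq0 hlog3.le
        rw [hm]
        norm_num at hb ⊢
        linarith
      refine (h.V_near' hC (m := m) (by rw [hm]; linarith) (by rw [hm]; linarith) hp hcm).trans ?_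
      rw [mul_add]
      refine add_le_add ?_ le_rfl
      have e2 : s + q * Real.log 3 - b * Real.log 2 - c = (2 * (q : ℝ) - b) * (Real.log 3 / 2) := by
        rw [hc]; ring
      rw [e2, abs_mul, abs_of_pos (show 0 < Real.log 3 / 2 by linarith), mul_assoc]
      refine mul_le_mul_of_nonneg_left ?_ hK
      rw [div_mul_eq_mul_div]
      refine div_le_div_of_nonneg_right ?_ (by rw [hm]; linarith)
      rw [mul_comm]
      exact mul_le_mul_of_nonneg_right (by linarith) (abs_nonneg _)
    refine (Eb_abs_le _ _).trans ((Eb_mono fun q _ => b1 q).trans ?_)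
    rw [Eb_add, Eb_smul, Eb_const]
    have hm0 : 0 < m := by rw [hm]; linarith
    have hdev := Eb_dev b
    have hbs : √(b : ℝ) ≤ 1.15 * √s := by
      have : (b : ℝ) ≤ 1.3 * s := by nlinarith
      calc √(b : ℝ) ≤ √(1.15 ^ 2 * s) := by
            apply sqrt_le_sqrt
            norm_num at this ⊢
            linarith
        _ = 1.15 * √s := by
            rw [sqrt_mul (by norm_num), sqrt_sq (by norm_num)]
    have hsm : √s ≤ 3.2 * √m := by
      calc √s ≤ √(3.2 ^ 2 * m) := by
            apply sqrt_le_sqrt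
            rw [hm]
            norm_num
            linarith
        _ = 3.2 * √m := by
            rw [sqrt_mul (by norm_num), sqrt_sq (by norm_num)]
    have hmq : 0 < √m := sqrt_pos.mpr hm0
    have c1 : K1 C * (0.55015 / m) * Eb b (fun q => |2 * (q : ℝ) - b|) ≤
        K1 C * (0.55015 / m) * (1.15 * √s) :=
      mul_le_mul_of_nonneg_left (hdev.trans hbs) (by positivity)
    have c2 : K1 C * (0.55015 / m) * (1.15 * √s) ≤ K1 C * (6.5 / √s) := by
      rw [mul_assoc]
      refine mul_le_mul_of_nonneg_left ?_ hK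
      rw [div_mul_eq_mul_div, div_le_div_iff₀ hm0 hsq]
      have : √s * √s = s := mul_self_sqrt hs0.le
      have e3 : 0.55015 * (1.15 * √s) * √s = 0.55015 * 1.15 * (√s * √s) := by ring
      rw [e3, this, hm]
      nlinarith
    have c3 : K1 C * (1 / √m) ≤ K1 C * (3.2 / √s) := by
      refine mul_le_mul_of_nonneg_left ?_ hK
      rw [div_le_div_iff₀ hmq hsq]
      linarith
    have c4 : K1 C * (6.5 / √s) + K1 C * (3.2 / √s) ≤ 10 * K1 C / √s := by
      have : K1 C * (6.5 / √s) + K1 C * (3.2 / √s) = 9.7 * K1 C / √s := by ring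
      rw [this]
      exact div_le_div_of_nonneg_right (by nlinarith) hsq.le
    linarith
  have a3 : C / s ≤ C / √s := div_le_sqrt hC (by linarith)
  have e4 : V f s - V f c = (V f s - Eb b (fun q => V f (s + q * Real.log 3 - b * Real.log 2))) +
      (Eb b (fun q => V f (s + q * Real.log 3 - b * Real.log 2)) - V f c) := by ring
  rw [e4, add_div]
  exact (abs_add_le _ _).trans (add_le_add (a1.trans a3) a2)

/-- Comparison of `V` at `s` and `s'` within a factor `0.82`. -/
theorem Good.V_step (h : Good C s₀ f) (hC : 0 ≤ C) {s s' : ℝ} (hs : 10 ≤ s') (hs₀ : 10 * s₀ ≤ s')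
    (hs₀' : s₀ ≤ s') (hle : s' ≤ s) (hge : 0.82 * s ≤ s') :
    |V f s - V f s'| ≤ (C + 12 * K1 C) / √s' := by
  have l2 := log2_lb
  have l2' := log2_ub
  have l3 := log3_lb
  have l3' := log3_ub
  have hK := K1_nonneg hC
  have hs0 : 0 < s' := by linarith
  have hsq : 0 < √s' := sqrt_pos.mpr hs0
  set μ := Real.log 2 - Real.log 3 / 2 with hμ
  have hμ0 : 17 / 82 * Real.log 2 ≤ μ := by rw [hμ]; linarith
  have hμp : 0 < μ := by linarith
  have hμ1 : μ ≤ 1 := by rw [hμ]; linarith
  set b := ⌊(s - s') / μ⌋₊ with hb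
  have hb1 : (b : ℝ) ≤ (s - s') / μ := Nat.floor_le (div_nonneg (by linarith) hμp.le)
  have hb2 : (s - s') / μ < b + 1 := Nat.lt_floor_add_one _
  rw [le_div_iff₀ hμp] at hb1
  rw [div_lt_iff₀ hμp] at hb2
  have hb0 : (0:ℝ) ≤ b := Nat.cast_nonneg _
  have hbl : (b:ℝ) * Real.log 2 ≤ 0.9 * s := by
    have h1 : (b : ℝ) * (17 / 82 * Real.log 2) ≤ 0.18 * s := by
      refine (mul_le_mul_of_nonneg_left hμ0 hb0).trans (hb1.trans ?_)
      linarith
    have h2 : (b : ℝ) * Real.log 2 = 82 / 17 * ((b : ℝ) * (17 / 82 * Real.log 2)) := by ring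
    rw [h2]
    have : 0 < s := by linarith
    linarith
  have a1 := h.V_mean hC (s := s) (by linarith) (by linarith) (by linarith) b hbl
  rw [← hμ] at a1
  have a2 := h.V_near' hC (m := s') (by linarith) hs₀' (p := s - b * μ) (c := s') (by linarith) le_rfl
  have a3 : |s - b * μ - s'| ≤ 1 := by
    rw [_root_.abs_le]
    constructor <;> nlinarith
  have a4 : K1 C * (|s - b * μ - s'| / s' + 1 / √s') ≤ 2 * K1 C / √s' := by
    have : |s - b * μ - s'| / s' ≤ 1 / √s' :=
      (div_le_div_of_nonneg_right a3 hs0.le).trans (inv_le_sqrt (by linarith))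
    have e : 2 * K1 C / √s' = K1 C * (1 / √s' + 1 / √s') := by ring
    rw [e]
    exact mul_le_mul_of_nonneg_left (by linarith) hK
  have a5 : (C + 10 * K1 C) / √s ≤ (C + 10 * K1 C) / √s' :=
    div_le_div_of_nonneg_left (by positivity) hsq (sqrt_le_sqrt hle)
  have e : V f s - V f s' = (V f s - V f (s - b * μ)) + (V f (s - b * μ) - V f s') := by ring
  have e2 : (C + 12 * K1 C) / √s' = (C + 10 * K1 C) / √s' + 2 * K1 C / √s' := by ring
  rw [e, e2]
  exact (abs_add_le _ _).trans (add_le_add (a1.trans a5) (a2.trans a4))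

/-- Comparison of `V` at all pairs of points. -/
theorem Good.V_all (h : Good C s₀ f) (hC : 0 ≤ C) (n : ℕ) : ∀ {s s' : ℝ}, 10 ≤ s' → 10 * s₀ ≤ s' →
    s₀ ≤ s' → s' ≤ s → s ≤ s' * (1.21 : ℝ) ^ n → |V f s - V f s'| ≤ 11 * (C + 12 * K1 C) / √s' := by
  have hK := K1_nonneg hC
  have hM : 0 ≤ C + 12 * K1 C := by positivity
  induction n with
  | zero =>
    intro s s' h1 h2 h3 h4 h5
    have : s = s' := by
      rw [pow_zero, mul_one] at h5; linarith
    rw [this, sub_self, abs_zero]
    positivity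
  | succ n ih =>
    intro s s' h1 h2 h3 h4 h5
    have hs0 : 0 < s' := by linarith
    have hsq : 0 < √s' := sqrt_pos.mpr hs0
    rcases le_total s (1.21 * s') with h6 | h6
    · refine (h.V_step hC h1 h2 h3 h4 (by linarith)).trans ?_
      exact div_le_div_of_nonneg_right (by linarith) hsq.le
    · have a1 := ih (s := s) (s' := 1.21 * s') (by linarith) (by linarith) (by linarith) h6 (by
        rw [pow_succ] at h5
        linarith)
      have a2 := h.V_step hC (s := 1.21 * s') (s' := s') h1 h2 h3 (by linarith) (by linarith)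
      have e1 : √(1.21 * s') = 1.1 * √s' := by
        rw [show (1.21 : ℝ) * s' = 1.1 ^ 2 * s' by norm_num, sqrt_mul (by norm_num),
          sqrt_sq (by norm_num)]
      rw [e1] at a1
      have e2 : 11 * (C + 12 * K1 C) / (1.1 * √s') = 10 * (C + 12 * K1 C) / √s' := by
        rw [div_eq_div_iff (by positivity) hsq.ne']
        ring
      rw [e2] at a1
      have e3 : V f s - V f s' = (V f s - V f (1.21 * s')) + (V f (1.21 * s') - V f s') := by ring
      have e4 : 11 * (C + 12 * K1 C) / √s' =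
          10 * (C + 12 * K1 C) / √s' + (C + 12 * K1 C) / √s' := by ring
      rw [e3, e4]
      exact (abs_add_le _ _).trans (add_le_add a1 a2)

end Pool.Agent.H89.ND
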