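import Pool.Agent.H89.ND.Defs
import Pool.Agent.H30.PD.Words
import Pool.Agent.H30.PD.Bin
import Pool.Agent.H30.PD.Parseval

/-!
# JOB ND-MN. Means over residues, elementary properties of `XR`

* `mn_nonneg`, `mn_mono`, `mn_add`, `mn_smul`, `mn_sum`: finite sums.
* `mn_level`: `range (3^q)` is the disjoint union of `3^(q-r)` translates of `range (3^r)` by multiples of `3^r`
  (`Finset.sum_range` over a product, e.g. `Finset.sum_range_mul`/`Nat.divMod`, or induction on `q` with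
  `3^(q+1) = 3 * 3^q`: `sum_range_add` three times and periodicity with period `3^q` (a multiple of `3^r`)).
* `mn_unit`: `Pool.Agent.H30.PD.sum_mul_unit` with `N = 3^q`, `a = 2^L`.
* `XR_periodic`: the divisibility `3^r ∣ 2^l (n + 3^q) - c` is equivalent to `3^r ∣ 2^l n - c` for `r ≤ q`.
* `mn_XR`: write the card as a sum of indicators over `p ∈ D l`, `p.1 = k`; exchange the sums; for every `p` the number of
  `n ∈ range (3^q)` with `3^r ∣ 2^l n - p.2` is `3^(q-r)` (`mn_unit` and `mn_level` for the indicator of `3^r ∣ u - c`, or directly);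
  `card_filter_fst`.
* `gg_eq`: unfold; `cvX_periodic`, `mn_cvX`: `mn_sum`, `mn_smul`, `mn_XR`; `bin_add` (Vandermonde; `antidiagonal` sums:
  `Finset.Nat.sum_antidiagonal_eq_sum_range_succ_mk`).
* `sum_le_mn`: `Pool.Agent.H30.PD.sum_interval_le` with `N = 3^q`: `((z + 1)/N + 1) * N * mn q G ≤ 3 z * mn q G` as `N ≤ z`, `1 ≤ N`.
-/

set_option autoImplicit false

namespace Pool.Agent.H89.ND

open Finset Pool.Agent.H30 Pool.Agent.H30.PD

theorem mn_nonneg {q : ℕ} {G : ℤ → ℝ} (h : ∀ n, 0 ≤ G n) : 0 ≤ mn q G := by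
  unfold mn
  exact div_nonneg (Finset.sum_nonneg fun u _ => h u) (by positivity)

theorem mn_mono {q : ℕ} {G G' : ℤ → ℝ} (h : ∀ n, G n ≤ G' n) : mn q G ≤ mn q G' := by
  unfold mn
  exact div_le_div_of_nonneg_right (Finset.sum_le_sum fun u _ => h u) (by positivity)

theorem mn_add (q : ℕ) (G G' : ℤ → ℝ) : mn q (fun n => G n + G' n) = mn q G + mn q G' := by
  unfold mn
  rw [Finset.sum_add_distrib, add_div]

theorem mn_smul (q : ℕ) (c : ℝ) (G : ℤ → ℝ) : mn q (fun n => c * G n) = c * mn q G := by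
  unfold mn
  rw [← Finset.mul_sum, mul_div_assoc]

theorem mn_sum {ι : Type*} (q : ℕ) (s : Finset ι) (G : ι → ℤ → ℝ) :
    mn q (fun n => ∑ i ∈ s, G i n) = ∑ i ∈ s, mn q (G i) := by
  unfold mn
  rw [Finset.sum_comm, Finset.sum_div]

theorem Mn_per {r q : ℕ} (hrq : r ≤ q) {G : ℤ → ℝ} (hG : ∀ n, G (n + 3 ^ r) = G n) (n : ℤ) :
    G (n + 3 ^ q) = G n := by
  have h1 : Function.Periodic G ((3 : ℤ) ^ r) := hG
  have h2 := h1.int_mul (3 ^ (q - r)) n
  have h3 : (((3 ^ (q - r) : ℤ)) : ℤ) * 3 ^ r = 3 ^ q := by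
    rw [← pow_add, Nat.sub_add_cancel hrq]
  simp only [Int.cast_id] at h2
  rwa [h3] at h2

theorem mn_level {r q : ℕ} (hrq : r ≤ q) {G : ℤ → ℝ} (hG : ∀ n, G (n + 3 ^ r) = G n) :
    mn q G = mn r G := by
  induction q, hrq using Nat.le_induction with
  | base => rfl
  | succ q hrq ih =>
    rw [← ih]
    have hp := Mn_per hrq hG
    have h3 : (3 : ℕ) ^ (q + 1) = 3 ^ q + 3 ^ q + 3 ^ q := by ring
    have h4 : ∀ u : ℕ, G ((3 ^ q + u : ℕ) : ℤ) = G u := by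
      intro u
      rw [← hp u]
      push_cast
      rw [add_comm]
    have h5 : ∀ u : ℕ, G ((3 ^ q + 3 ^ q + u : ℕ) : ℤ) = G u := by
      intro u
      rw [add_assoc, h4, h4]
    unfold mn
    rw [h3, Finset.sum_range_add, Finset.sum_range_add]
    simp only [h4, h5]
    rw [pow_succ]
    have h6 : (3 : ℝ) ^ q ≠ 0 := by positivity
    field_simp
    ring

theorem Mn_coprime (L q : ℕ) : IsCoprime ((2 : ℤ) ^ L) ((3 ^ q : ℕ) : ℤ) := by
  push_cast
  apply IsCoprime.pow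
  rw [Int.isCoprime_iff_gcd_eq_one]
  rfl

theorem mn_unit {q : ℕ} (L : ℕ) {G : ℤ → ℝ} (hG : ∀ n, G (n + 3 ^ q) = G n) :
    mn q (fun n => G (2 ^ L * n)) = mn q G := by
  unfold mn
  congr 1
  refine sum_mul_unit (N := 3 ^ q) (by positivity) G (fun u => ?_) (Mn_coprime L q)
  push_cast
  exact hG u

theorem XR_nonneg (l r k : ℕ) (n : ℤ) : 0 ≤ XR l r k n := by
  unfold XR
  positivity

theorem XR_eq_zero {l k : ℕ} (r : ℕ) (h : l < k) (n : ℤ) : XR l r k n = 0 := by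
  unfold XR
  have h1 : ((D l).filter fun p => p.1 = k ∧ (3 : ℤ) ^ r ∣ 2 ^ l * n - p.2) = ∅ := by
    rw [Finset.filter_eq_empty_iff]
    rintro p hp ⟨h2, _⟩
    have := D_le hp
    omega
  rw [h1]
  simp

theorem Mn_dvd {r q : ℕ} (hrq : r ≤ q) (l : ℕ) (n c : ℤ) :
    (3 : ℤ) ^ r ∣ 2 ^ l * (n + 3 ^ q) - c ↔ (3 : ℤ) ^ r ∣ 2 ^ l * n - c := by
  have h1 : (3 : ℤ) ^ r ∣ 2 ^ l * 3 ^ q := Dvd.dvd.mul_left (pow_dvd_pow 3 hrq) _
  have h2 : (2 : ℤ) ^ l * (n + 3 ^ q) - c = (2 ^ l * n - c) + 2 ^ l * 3 ^ q := by ring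
  rw [h2]
  exact (Int.dvd_add_left h1)

theorem XR_periodic {r q : ℕ} (hrq : r ≤ q) (l k : ℕ) (n : ℤ) :
    XR l r k (n + 3 ^ q) = XR l r k n := by
  unfold XR
  simp only [Mn_dvd hrq]

theorem Mn_count (r l c : ℕ) :
    ∑ u ∈ range (3 ^ r), (if (3 : ℤ) ^ r ∣ 2 ^ l * (u : ℤ) - c then (1 : ℝ) else 0) = 1 := by
  have h0 := sum_mul_unit (N := 3 ^ r) (by positivity)
    (fun v : ℤ => if (3 : ℤ) ^ r ∣ v - c then (1 : ℝ) else 0) (fun u => by
      have h1 : (3 : ℤ) ^ r ∣ u + ((3 ^ r : ℕ) : ℤ) - c ↔ (3 : ℤ) ^ r ∣ u - c := by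
        push_cast
        have := Mn_dvd (le_refl r) 0 u c
        simpa using this
      simp only [h1]) (Mn_coprime l r)
  rw [h0]
  have hlt : c % 3 ^ r < 3 ^ r := Nat.mod_lt _ (by positivity)
  have hcast : ((3 ^ r : ℕ) : ℤ) = (3 : ℤ) ^ r := by push_cast; rfl
  rw [Finset.sum_eq_single (c % 3 ^ r)]
  · rw [if_pos]
    rw [← hcast, ← Nat.modEq_iff_dvd]
    exact (Nat.mod_modEq c (3 ^ r)).symm
  · intro u hu hne
    rw [if_neg]
    intro hd
    apply hne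
    rw [← hcast, ← Nat.modEq_iff_dvd] at hd
    have h2 : c % 3 ^ r = u % 3 ^ r := hd
    rw [Nat.mod_eq_of_lt (Finset.mem_range.1 hu)] at h2
    exact h2.symm
  · intro h
    exact absurd (Finset.mem_range.2 hlt) h

theorem mn_XR {r q : ℕ} (hrq : r ≤ q) (l k : ℕ) : mn q (XR l r k) = bin l k := by
  rw [mn_level hrq (XR_periodic le_rfl l k)]
  have h1 : ∀ u : ℕ, XR l r k u = 3 ^ r / 2 ^ l * ∑ p ∈ (D l).filter (fun p => p.1 = k),
      (if (3 : ℤ) ^ r ∣ 2 ^ l * (u : ℤ) - (p.2 : ℕ) then (1 : ℝ) else 0) := by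
    intro u
    unfold XR
    rw [← Finset.filter_filter, Finset.card_filter]
    push_cast
    rfl
  unfold mn
  simp only [h1]
  rw [← Finset.mul_sum, Finset.sum_comm]
  simp only [Mn_count]
  rw [Finset.sum_const, card_filter_fst]
  unfold bin
  have h2 : (3 : ℝ) ^ r ≠ 0 := by positivity
  simp only [nsmul_eq_mul, mul_one]
  field_simp

theorem gg_eq (L q r : ℕ) (n : ℤ) : gg L q r (2 ^ L * n) = XR L q q n - XR L r q n := by
  unfold gg XR
  ring

theorem cvX_nonneg (h b k : ℕ) (n : ℤ) : 0 ≤ cvX h b k n := by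
  unfold cvX
  exact Finset.sum_nonneg fun x _ => mul_nonneg (bin_nonneg _ _) (XR_nonneg _ _ _ _)

theorem cvX_periodic {k q : ℕ} (hkq : k ≤ q) (h b : ℕ) (n : ℤ) :
    cvX h b k (n + 3 ^ q) = cvX h b k n := by
  unfold cvX
  refine Finset.sum_congr rfl fun x hx => ?_
  have h1 : x.1 ≤ k := (Finset.HasAntidiagonal.mem_antidiagonal.1 hx) ▸ Nat.le_add_right _ _
  rw [XR_periodic (h1.trans hkq)]

theorem mn_cvX {k q : ℕ} (hkq : k ≤ q) (h b : ℕ) : mn q (cvX h b k) = bin (h + b) k := by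
  have h1 : mn q (cvX h b k) = ∑ x ∈ antidiagonal k, bin b x.2 * bin h x.1 := by
    have h2 : cvX h b k = fun n => ∑ x ∈ antidiagonal k, bin b x.2 * XR h x.1 x.1 n := rfl
    rw [h2, mn_sum]
    refine Finset.sum_congr rfl fun x hx => ?_
    have h3 : x.1 ≤ k := (Finset.HasAntidiagonal.mem_antidiagonal.1 hx) ▸ Nat.le_add_right _ _
    rw [mn_smul, mn_XR (h3.trans hkq)]
  rw [h1, bin_add, Finset.Nat.sum_antidiagonal_eq_sum_range_succ_mk]
  exact Finset.sum_congr rfl fun x _ => mul_comm _ _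

theorem sum_le_mn {q : ℕ} {G : ℤ → ℝ} (hG0 : ∀ n, 0 ≤ G n) (hG : ∀ n, G (n + 3 ^ q) = G n)
    {A z : ℝ} (hz : (3 : ℝ) ^ q ≤ z) (s : Finset ℤ) (hs : ∀ m ∈ s, A < (m : ℝ) ∧ (m : ℝ) ≤ A + z) :
    ∑ m ∈ s, G m ≤ 3 * z * mn q G := by
  have h1 : (1 : ℝ) ≤ 3 ^ q := one_le_pow₀ (by norm_num)
  have h2 := sum_interval_le (N := 3 ^ q) (by positivity) G (fun u => by
    push_cast
    exact hG u) hG0 s (x := A) (y := A + z) (by linarith) (fun m hm => ⟨(hs m hm).1.le, (hs m hm).2⟩)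
  have h3 : ∑ u ∈ range (3 ^ q), G u = 3 ^ q * mn q G := by
    unfold mn
    field_simp
  have h4 : 0 ≤ mn q G := mn_nonneg hG0
  rw [h3] at h2
  push_cast at h2
  have h5 : ((A + z - A + 1) / 3 ^ q + 1) * (3 ^ q * mn q G) = (z + 1 + 3 ^ q) * mn q G := by
    field_simp
    ring
  rw [h5] at h2
  refine h2.trans (mul_le_mul_of_nonneg_right ?_ h4)
  linarith

end Pool.Agent.H89.ND
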