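import Pool.Agent.H89.ND.Word
import Pool.Agent.H89.ND.Mn
import Pool.Agent.H30.PD.NodeSum

/-!
# JOB ND-CNT. Counting the integers with `T^l m ∈ W`

Partition the `m ∈ (A, B]` with `T^l m ∈ W` by their word `p ∈ D l` (`exists_word`, `word_unique`, `T_node`): for given `p = (k, c)` the map
`m ↦ n = T^l m` is a bijection onto `{n ∈ W : 3^k ∣ 2^l n - c, A < (2^l n - c)/3^k ≤ B}`. With `A = α x`, `B = (α+1) x`, `z = 3^k x/2^l` the condition is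
`α z + c/2^l < n ≤ (α+1) z + c/2^l`. Replacing it by `α z < n ≤ (α+1) z` changes the set only inside `(α z, α z + c/2^l]` and
`((α+1) z, (α+1) z + c/2^l]`; an interval of length `c/2^l ≤ 3^k` (`c_mul_le`) contains at most 2 integers of a residue class modulo `3^k`. So the
error is at most `4` for each of the `2^l` words (`card_D`). Finally
`∑_{p ∈ D l} #{n ∈ W ∩ (α z, (α+1) z] : 3^(p.1) ∣ 2^l n - p.2} = ∑_k ∑_{n} #{p ∈ D l : p.1 = k, 3^k ∣ 2^l n - p.2}` and this card is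
`2^l/3^k * XR l k k n` (`D_le`: `k ≤ l`).
-/

set_option autoImplicit false

namespace Pool.Agent.H89.ND

open Finset Pool.Agent.H30 Pool.Agent.H30.PD

open Classical in
/-- number of `n ∈ W` in `(a, b]` with `3^(p.1) ∣ 2^l n - p.2` -/
noncomputable def cntB (W : Set ℤ) (l : ℕ) (p : ℕ × ℕ) (a b : ℤ) : ℕ :=
  ((Ioc a b).filter fun n => n ∈ W ∧ (3 : ℤ) ^ p.1 ∣ 2 ^ l * n - p.2).card

theorem cnt_res_eq {l k : ℕ} {c n n' a : ℤ} (h : (3 : ℤ) ^ k ∣ 2 ^ l * n - c)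
    (h' : (3 : ℤ) ^ k ∣ 2 ^ l * n' - c) (ha : a < n) (hb : n ≤ a + 3 ^ k) (ha' : a < n')
    (hb' : n' ≤ a + 3 ^ k) : n = n' := by
  have h1 : (3 : ℤ) ^ k ∣ 2 ^ l * (n - n') := by
    have := dvd_sub h h'
    rwa [show 2 ^ l * n - c - (2 ^ l * n' - c) = 2 ^ l * (n - n') by ring] at this
  have hcop : IsCoprime ((3 : ℤ) ^ k) (2 ^ l) :=
    IsCoprime.pow (by norm_num)
  have h2 : (3 : ℤ) ^ k ∣ n - n' := hcop.dvd_of_dvd_mul_left h1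
  have h3 : |n - n'| < 3 ^ k := by
    rw [abs_lt]
    constructor <;> linarith
  have h4 := Int.eq_zero_of_abs_lt_dvd h2 h3
  linarith

open Classical in
theorem cntB_le_one (W : Set ℤ) (l : ℕ) (p : ℕ × ℕ) {a b : ℤ} (h : b ≤ a + 3 ^ p.1) :
    cntB W l p a b ≤ 1 := by
  unfold cntB
  rw [Finset.card_le_one]
  intro n hn n' hn'
  rw [mem_filter, mem_Ioc] at hn hn'
  exact cnt_res_eq hn.2.2 hn'.2.2 hn.1.1 (hn.1.2.trans h) hn'.1.1 (hn'.1.2.trans h)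

open Classical in
theorem cntB_le_add (W : Set ℤ) (l : ℕ) (p : ℕ × ℕ) {a b a' b' u v : ℤ}
    (h : ∀ n, a < n → n ≤ b → (a' < n ∧ n ≤ b') ∨ (u < n ∧ n ≤ v)) (huv : v ≤ u + 3 ^ p.1) :
    cntB W l p a b ≤ cntB W l p a' b' + 1 := by
  have h1 : ((Ioc a b).filter fun n => n ∈ W ∧ (3 : ℤ) ^ p.1 ∣ 2 ^ l * n - p.2) ⊆
      ((Ioc a' b').filter fun n => n ∈ W ∧ (3 : ℤ) ^ p.1 ∣ 2 ^ l * n - p.2) ∪
      ((Ioc u v).filter fun n => n ∈ W ∧ (3 : ℤ) ^ p.1 ∣ 2 ^ l * n - p.2) := by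
    intro n hn
    rw [mem_filter, mem_Ioc] at hn
    rw [mem_union, mem_filter, mem_filter, mem_Ioc, mem_Ioc]
    rcases h n hn.1.1 hn.1.2 with h2 | h2
    · exact Or.inl ⟨h2, hn.2⟩
    · exact Or.inr ⟨h2, hn.2⟩
  have h2 := cntB_le_one W l p huv
  have h3 := (Finset.card_le_card h1).trans (Finset.card_union_le _ _)
  unfold cntB at *
  exact h3.trans (Nat.add_le_add_left h2 _)

/-- shifting the interval by `c / 2^l` changes the count by at most `1` -/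
theorem cntB_shift (W : Set ℤ) (l : ℕ) {p : ℕ × ℕ} {u v δ : ℝ} (hδ : 0 ≤ δ)
    (hδ3 : δ ≤ 3 ^ p.1) :
    |((cntB W l p ⌊u + δ⌋ ⌊v + δ⌋ : ℕ) : ℝ) - (cntB W l p ⌊u⌋ ⌊v⌋ : ℕ)| ≤ 1 := by
  have h0 : ∀ w : ℝ, ⌊w⌋ ≤ ⌊w + δ⌋ := fun w => Int.floor_le_floor (by linarith)
  have h1 : ∀ w : ℝ, ⌊w + δ⌋ ≤ ⌊w⌋ + 3 ^ p.1 := by
    intro w
    have h2 : ⌊w + δ⌋ ≤ ⌊w + ((3 ^ p.1 : ℤ) : ℝ)⌋ := by
      apply Int.floor_le_floor
      push_cast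
      linarith
    rwa [Int.floor_add_intCast] at h2
  have h2 : cntB W l p ⌊u + δ⌋ ⌊v + δ⌋ ≤ cntB W l p ⌊u⌋ ⌊v⌋ + 1 := by
    apply cntB_le_add W l p (u := ⌊v⌋) (v := ⌊v + δ⌋) _ (h1 v)
    intro n hn1 hn2
    by_cases h3 : n ≤ ⌊v⌋
    · exact Or.inl ⟨lt_of_le_of_lt (h0 u) hn1, h3⟩
    · exact Or.inr ⟨not_le.1 h3, hn2⟩
  have h3 : cntB W l p ⌊u⌋ ⌊v⌋ ≤ cntB W l p ⌊u + δ⌋ ⌊v + δ⌋ + 1 := by
    apply cntB_le_add W l p (u := ⌊u⌋) (v := ⌊u + δ⌋) _ (h1 u)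
    intro n hn1 hn2
    by_cases h3 : n ≤ ⌊u + δ⌋
    · exact Or.inr ⟨hn1, h3⟩
    · exact Or.inl ⟨not_le.1 h3, hn2.trans (h0 v)⟩
  have h2' : ((cntB W l p ⌊u + δ⌋ ⌊v + δ⌋ : ℕ) : ℝ) ≤ (cntB W l p ⌊u⌋ ⌊v⌋ : ℕ) + 1 := by
    exact_mod_cast h2
  have h3' : ((cntB W l p ⌊u⌋ ⌊v⌋ : ℕ) : ℝ) ≤ (cntB W l p ⌊u + δ⌋ ⌊v + δ⌋ : ℕ) + 1 := by
    exact_mod_cast h3
  rw [abs_le]
  constructor <;> linarith

open Classical in
/-- the integers with a given word -/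
theorem cnt_word (W : Set ℤ) {l : ℕ} {p : ℕ × ℕ} (hp : p ∈ D l) (A B : ℝ) :
    ((Ioc ⌊A⌋ ⌊B⌋).filter fun m => T^[l] m ∈ W ∧
      (3 : ℤ) ^ p.1 * m = 2 ^ l * T^[l] m - p.2).card =
    cntB W l p ⌊3 ^ p.1 * A / 2 ^ l + p.2 / 2 ^ l⌋ ⌊3 ^ p.1 * B / 2 ^ l + p.2 / 2 ^ l⌋ := by
  have h3 : (0 : ℝ) < 3 ^ p.1 := by positivity
  have h2 : (0 : ℝ) < 2 ^ l := by positivity
  have hiff : ∀ (m n : ℤ) (C : ℝ), (3 : ℤ) ^ p.1 * m = 2 ^ l * n - p.2 →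
      (C < m ↔ 3 ^ p.1 * C / 2 ^ l + p.2 / 2 ^ l < (n : ℝ)) := by
    intro m n C h
    have h' : (3 : ℝ) ^ p.1 * m = 2 ^ l * n - p.2 := by exact_mod_cast h
    rw [← add_div, div_lt_iff₀ h2]
    constructor
    · intro hC
      have := mul_lt_mul_of_pos_left hC h3
      linarith
    · intro hC
      have h5 : (3 : ℝ) ^ p.1 * C < 3 ^ p.1 * m := by linarith
      exact lt_of_mul_lt_mul_left h5 h3.le
  have hm : ∀ (m n : ℤ), (3 : ℤ) ^ p.1 * m = 2 ^ l * n - p.2 →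
      (m ∈ Ioc ⌊A⌋ ⌊B⌋ ↔ n ∈ Ioc ⌊3 ^ p.1 * A / 2 ^ l + p.2 / 2 ^ l⌋
        ⌊3 ^ p.1 * B / 2 ^ l + p.2 / 2 ^ l⌋) := by
    intro m n h
    rw [mem_Ioc, mem_Ioc, Int.floor_lt, Int.floor_lt, Int.le_floor, Int.le_floor,
      hiff m n A h, ← not_lt, ← not_lt, hiff m n B h]
  unfold cntB
  refine Finset.card_bij (fun m _ => T^[l] m) ?_ ?_ ?_
  · intro m hm1
    rw [mem_filter] at hm1 ⊢
    exact ⟨(hm m _ hm1.2.2).1 hm1.1, hm1.2.1, ⟨m, hm1.2.2.symm⟩⟩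
  · intro m hm1 m' hm2 heq
    rw [mem_filter] at hm1 hm2
    have h5 : (3 : ℤ) ^ p.1 * m = 3 ^ p.1 * m' := by
      rw [hm1.2.2, hm2.2.2]
      change T^[l] m = T^[l] m' at heq
      rw [heq]
    exact mul_left_cancel₀ (by positivity) h5
  · intro n hn
    rw [mem_filter] at hn
    obtain ⟨m, hmn⟩ := hn.2.2
    have h5 : T^[l] m = n := T_node hp hmn.symm
    refine ⟨m, ?_, h5⟩
    rw [mem_filter, h5]
    exact ⟨(hm m n hmn.symm).2 hn.1, hn.2.1, hmn.symm⟩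

open Classical in
theorem cnt_eq_sum (W : Set ℤ) (l : ℕ) (A B : ℝ) :
    cnt W l A B = ∑ p ∈ D l,
      cntB W l p ⌊3 ^ p.1 * A / 2 ^ l + p.2 / 2 ^ l⌋ ⌊3 ^ p.1 * B / 2 ^ l + p.2 / 2 ^ l⌋ := by
  have h1 : ∀ p ∈ D l, cntB W l p ⌊3 ^ p.1 * A / 2 ^ l + p.2 / 2 ^ l⌋
      ⌊3 ^ p.1 * B / 2 ^ l + p.2 / 2 ^ l⌋ =
      (((Ioc ⌊A⌋ ⌊B⌋).filter fun m => T^[l] m ∈ W).filter fun m =>
        (3 : ℤ) ^ p.1 * m = 2 ^ l * T^[l] m - p.2).card := by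
    intro p hp
    rw [← cnt_word W hp A B, Finset.filter_filter]
  rw [Finset.sum_congr rfl h1]
  have h2 := Finset.sum_card_bipartiteAbove_eq_sum_card_bipartiteBelow
    (s := (Ioc ⌊A⌋ ⌊B⌋).filter fun m => T^[l] m ∈ W) (t := D l)
    (fun m p => (3 : ℤ) ^ p.1 * m = 2 ^ l * T^[l] m - p.2)
  have h3 : ∀ m ∈ (Ioc ⌊A⌋ ⌊B⌋).filter fun m => T^[l] m ∈ W,
      ((D l).bipartiteAbove (fun m p => (3 : ℤ) ^ p.1 * m = 2 ^ l * T^[l] m - p.2) m).card = 1 := by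
    intro m _
    rw [Finset.card_eq_one]
    obtain ⟨p, hp, h4⟩ := exists_word l m
    refine ⟨p, ?_⟩
    ext q
    rw [Finset.mem_bipartiteAbove, mem_singleton]
    constructor
    · rintro ⟨hq, h5⟩
      exact (word_unique hq hp h5 h4).1
    · rintro rfl
      exact ⟨hp, h4⟩
  rw [Finset.sum_congr rfl h3] at h2
  unfold cnt
  rw [Finset.sum_const, smul_eq_mul, mul_one] at h2
  exact h2

open Classical in
theorem cnt_tgt (W : Set ℤ) (l : ℕ) (a b : ℕ → ℝ) :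
    ∑ k ∈ range (l + 1), tgt W (fun n => 2 ^ l / 3 ^ k * XR l k k n) (a k) (b k) =
      ∑ p ∈ D l, (cntB W l p ⌊a p.1⌋ ⌊b p.1⌋ : ℝ) := by
  have h0 : ∀ p ∈ D l, p.1 ∈ range (l + 1) := fun p hp => by
    rw [mem_range]
    have := D_le hp
    omega
  rw [← Finset.sum_fiberwise_of_maps_to h0]
  refine Finset.sum_congr rfl fun k _ => ?_
  unfold tgt
  have h1 : ∀ n : ℤ, (2 : ℝ) ^ l / 3 ^ k * XR l k k n =
      (((D l).filter fun p => p.1 = k ∧ (3 : ℤ) ^ k ∣ 2 ^ l * n - p.2).card : ℝ) := by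
    intro n
    unfold XR
    field_simp
  simp only [h1]
  have h2 := Finset.sum_card_bipartiteAbove_eq_sum_card_bipartiteBelow
    (s := (Ioc ⌊a k⌋ ⌊b k⌋).filter fun n => n ∈ W) (t := (D l).filter fun p => p.1 = k)
    (fun n p => (3 : ℤ) ^ k ∣ 2 ^ l * n - p.2)
  have h3 : ∀ n : ℤ, ((D l).filter fun p => p.1 = k).bipartiteAbove
      (fun n p => (3 : ℤ) ^ k ∣ 2 ^ l * n - (p.2 : ℤ)) n =
      (D l).filter fun p => p.1 = k ∧ (3 : ℤ) ^ k ∣ 2 ^ l * n - p.2 := by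
    intro n
    unfold Finset.bipartiteAbove
    rw [Finset.filter_filter]
  simp only [h3] at h2
  have h4 : ∀ p ∈ (D l).filter fun p => p.1 = k,
      (((Ioc ⌊a k⌋ ⌊b k⌋).filter fun n => n ∈ W).bipartiteBelow
        (fun n p => (3 : ℤ) ^ k ∣ 2 ^ l * n - (p.2 : ℤ)) p).card =
      cntB W l p ⌊a p.1⌋ ⌊b p.1⌋ := by
    intro p hp
    rw [mem_filter] at hp
    unfold Finset.bipartiteBelow cntB
    rw [Finset.filter_filter, hp.2]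
  rw [Finset.sum_congr rfl h4] at h2
  exact_mod_cast h2

theorem cnt_approx (W : Set ℤ) (l : ℕ) (α x : ℝ) (hx : 0 < x) :
    |(cnt W l (α * x) ((α + 1) * x) : ℝ) - ∑ k ∈ range (l + 1),
      tgt W (fun n => 2 ^ l / 3 ^ k * XR l k k n)
        (α * (3 ^ k * x / 2 ^ l)) ((α + 1) * (3 ^ k * x / 2 ^ l))| ≤ 4 * 2 ^ l := by
  have _ := hx
  rw [cnt_tgt W l (fun k => α * (3 ^ k * x / 2 ^ l)) (fun k => (α + 1) * (3 ^ k * x / 2 ^ l)),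
    cnt_eq_sum, Nat.cast_sum, ← Finset.sum_sub_distrib]
  refine (Finset.abs_sum_le_sum_abs _ _).trans ?_
  have h1 : ∀ p ∈ D l, |((cntB W l p ⌊3 ^ p.1 * (α * x) / 2 ^ l + p.2 / 2 ^ l⌋
      ⌊3 ^ p.1 * ((α + 1) * x) / 2 ^ l + p.2 / 2 ^ l⌋ : ℕ) : ℝ) -
      (cntB W l p ⌊α * (3 ^ p.1 * x / 2 ^ l)⌋ ⌊(α + 1) * (3 ^ p.1 * x / 2 ^ l)⌋ : ℕ)| ≤ 1 := by
    intro p hp
    have h2 : (3 : ℝ) ^ p.1 * (α * x) / 2 ^ l = α * (3 ^ p.1 * x / 2 ^ l) := by ring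
    have h3 : (3 : ℝ) ^ p.1 * ((α + 1) * x) / 2 ^ l = (α + 1) * (3 ^ p.1 * x / 2 ^ l) := by ring
    rw [h2, h3]
    apply cntB_shift W l (by positivity)
    have h4 : (p.2 : ℝ) * 2 ^ p.1 ≤ 2 ^ l * 3 ^ p.1 := by exact_mod_cast c_mul_le hp
    rw [div_le_iff₀ (by positivity)]
    have h5 : (1 : ℝ) ≤ 2 ^ p.1 := one_le_pow₀ (by norm_num)
    have h6 : (p.2 : ℝ) ≤ p.2 * 2 ^ p.1 := le_mul_of_one_le_right (by positivity) h5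
    linarith
  refine (Finset.sum_le_sum h1).trans ?_
  rw [Finset.sum_const, card_D, nsmul_eq_mul, mul_one]
  push_cast
  have : (0 : ℝ) < 2 ^ l := by positivity
  linarith

end Pool.Agent.H89.ND
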