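import Pool.Agent.H30.PD.Defs
import Pool.Agent.H89.ND.Bin

/-!
# Natural densities of sets invariant under the 3x+1 map: definitions

Paper proof: team-store file `helper89_natural_density.md`. `D l`, `comp`, `bin`, `gg` are those of `Pool.Agent.H30.PD`.
-/

set_option autoImplicit false

namespace Pool.Agent.H89.ND

open Finset Pool.Agent.H30 Pool.Agent.H30.PD

/-- Normalised number of words of length `l` with `k` heads and constant congruent to `2^l n` modulo `3^r`. -/
noncomputable def XR (l r k : ℕ) (n : ℤ) : ℝ :=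
  3 ^ r / 2 ^ l * (((D l).filter fun p => p.1 = k ∧ (3 : ℤ) ^ r ∣ 2 ^ l * n - p.2).card : ℝ)

/-- Mean over the residues modulo `3^q`. -/
noncomputable def mn (q : ℕ) (G : ℤ → ℝ) : ℝ := (∑ u ∈ range (3 ^ q), G u) / 3 ^ q

/-- Smoothed version of `XR (h + b) k k`: only the `h` letters next to the target see the congruence. -/
noncomputable def cvX (h b k : ℕ) (n : ℤ) : ℝ :=
  ∑ x ∈ antidiagonal k, bin b x.2 * XR h x.1 x.1 n

/-- The total `L^1` error of the smoothing. -/
noncomputable def EE (h b : ℕ) : ℝ :=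
  ∑ k ∈ range (h + b + 1), mn k (fun n => |XR (h + b) k k n - cvX h b k n|)

open Classical in
/-- The number of integers `m` in `(A, B]` with `T^l m` in `W`. -/
noncomputable def cnt (W : Set ℤ) (l : ℕ) (A B : ℝ) : ℕ :=
  ((Ioc ⌊A⌋ ⌊B⌋).filter fun m => T^[l] m ∈ W).card

open Classical in
/-- The sum of `G` over the elements of `W` in `(A, B]`. -/
noncomputable def tgt (W : Set ℤ) (G : ℤ → ℝ) (A B : ℝ) : ℝ :=
  ∑ n ∈ (Ioc ⌊A⌋ ⌊B⌋).filter (fun n => n ∈ W), G n

/-- Density of `U` in `(α e^s, (α+1) e^s]`; used for `α = 0` (positive integers) and `α = -1` (negative integers). -/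
noncomputable def dU (U : Set ℤ) (α s : ℝ) : ℝ :=
  (cnt U 0 (α * Real.exp s) ((α + 1) * Real.exp s) : ℝ) / Real.exp s

end Pool.Agent.H89.ND
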