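import Pool.Agent.H89.ND.Master
import Pool.Agent.H89.ND.Ana1

/-!
# JOB ND-HARM. Densities of (eventually) invariant sets are almost harmonic

`α = 0` or `α = -1`, `0 ∉ U`. `Good C s₀ f` is defined in `Ana1.lean`.
* `nonneg`, `le_one`: `(0, e^s]` contains at most `e^s` integers and `(-e^s, 0]` at most `e^s` integers besides `0 ∉ U` (also for negative `s`).
* `meas`: `s ↦ cnt U 0 (α e^s) ((α+1) e^s)` is monotone (`Monotone.measurable` after casting), `e^s` is continuous.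
* `reg`: for `0 ≤ t ≤ 1`: the interval for `s + t` contains the one for `s` and has at most `e^(s+t) - e^s + 1` further integers, so
  `f (s+t) - f s ∈ [-(1 - e^(-t)) , (e^t - 1) + e^(-s)]` roughly; `e^t - 1 ≤ 2 t` for `0 ≤ t ≤ 1`.
* `harm`: let `x = e^s`, `b log 2 ≤ 0.9 s`, `h = ⌊0.05 s/log 2⌋`, `l = h + b`, so `2^l ≤ x^0.95`. If `|m| > 2^l K` then `|T^i m| > K` for `i ≤ l`
  (`T_iter_ge`), so `T^l m ∈ U ↔ m ∈ U`; hence `|cnt U l A B - cnt U 0 A B| ≤ 2 * 2^l K + 1`, and the same with `h` at `y_q = 3^q x/2^b ≥ x/2^b` (relative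
  error `≤ (2 * 2^h K + 1)/y_q ≤ (2K+1) 2^l/x`). `master_conv 1` and `3^q x/2^b = exp (s + q log 3 - b log 2)`:
  `|f s - Eb b (...)| ≤ 8 x^(-0.05) + C/h + 2 (2K+1) x^(-0.05)`. For `s ≥ s₀(K)` this is `≤ C'/s` with `C'` independent of `K` (take `s₀` so large that
  `(2K+1) s exp(-0.05 s) ≤ 1` for `s ≥ s₀`). For `K = 0`, `s₀ = 1`: if `h = 0` (`s < 20`) use `|f s - Eb ...| ≤ 1 ≤ 20/s`.
-/

set_option autoImplicit false

namespace Pool.Agent.H89.ND

open Finset Pool.Agent.H30 Pool.Agent.H30.PD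

/-- Invariance under `T` outside `[-K, K]`. -/
def EvInv (U : Set ℤ) (K : ℕ) : Prop := ∀ n : ℤ, (K : ℤ) < |n| → (T n ∈ U ↔ n ∈ U)

theorem T_iter_zero (l : ℕ) : T^[l] 0 = 0 :=
  Function.iterate_fixed (by simp [T]) l

theorem evInv_iter {U : Set ℤ} {K : ℕ} (hU : EvInv U K) (m : ℤ) :
    ∀ l : ℕ, 2 ^ l * (K : ℤ) < |m| → (T^[l] m ∈ U ↔ m ∈ U) := by
  intro l
  induction l with
  | zero => intro _; simp
  | succ l ih =>
    intro h
    have hK : (0 : ℤ) ≤ K := Int.natCast_nonneg K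
    have h2 : (0 : ℤ) < 2 ^ l := by positivity
    have h1 : 2 ^ l * (K : ℤ) < |m| := by
      rw [pow_succ] at h
      nlinarith
    rw [Function.iterate_succ_apply', hU _ ?_, ih h1]
    have h3 := T_iter_ge l m
    have h4 : 2 ^ l * (K : ℤ) < 2 ^ l * |T^[l] m| := lt_of_lt_of_le h1 h3
    exact lt_of_mul_lt_mul_left h4 h2.le

/-- Comparison of the counts at times `l` and `0`. -/
theorem cnt_sub_le {U : Set ℤ} {K : ℕ} (hU : EvInv U K) (h0 : (0 : ℤ) ∉ U) (l : ℕ) (A B : ℝ) :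
    |(cnt U l A B : ℝ) - cnt U 0 A B| ≤ 2 * 2 ^ l * K := by
  classical
  set L : ℕ := 2 ^ l * K with hL
  have key : ∀ l₁ l₂ : ℕ, (∀ m : ℤ, (L : ℤ) < |m| → (T^[l₁] m ∈ U ↔ T^[l₂] m ∈ U)) →
      cnt U l₁ A B ≤ cnt U l₂ A B + 2 * L := by
    intro l₁ l₂ h12
    unfold cnt
    have hsub : (Ioc ⌊A⌋ ⌊B⌋).filter (fun m => T^[l₁] m ∈ U) ⊆
        (Ioc ⌊A⌋ ⌊B⌋).filter (fun m => T^[l₂] m ∈ U) ∪ (Icc (-(L : ℤ)) L).erase 0 := by
      intro m hm
      rw [mem_filter] at hm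
      rw [mem_union, mem_filter, mem_erase, mem_Icc]
      by_cases hb : (L : ℤ) < |m|
      · exact Or.inl ⟨hm.1, (h12 m hb).mp hm.2⟩
      · right
        refine ⟨?_, abs_le.mp (not_lt.mp hb)⟩
        rintro rfl
        apply h0
        rw [← T_iter_zero l₁]
        exact hm.2
    refine (card_le_card hsub).trans ((card_union_le _ _).trans ?_)
    refine Nat.add_le_add_left ?_ _
    rw [card_erase_of_mem (by rw [mem_Icc]; constructor <;> simp), Int.card_Icc]
    omega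
  have e1 : ∀ m : ℤ, (L : ℤ) < |m| → (T^[l] m ∈ U ↔ T^[0] m ∈ U) := by
    intro m hm
    rw [Function.iterate_zero, id]
    refine evInv_iter hU m l ?_
    rw [hL] at hm
    push_cast at hm
    exact hm
  have k1 := key l 0 e1
  have k2 := key 0 l (fun m hm => (e1 m hm).symm)
  have k1' : (cnt U l A B : ℝ) ≤ cnt U 0 A B + 2 * L := by exact_mod_cast k1
  have k2' : (cnt U 0 A B : ℝ) ≤ cnt U l A B + 2 * L := by exact_mod_cast k2
  have hL' : (L : ℝ) = 2 ^ l * K := by rw [hL]; push_cast; ring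
  rw [hL'] at k1' k2'
  rw [abs_le]
  constructor <;> linarith

theorem Ioc_card_le (x y : ℝ) (h : x ≤ y) :
    ((Ioc ⌊x⌋ ⌊y⌋).card : ℝ) ≤ y - x + 1 := by
  rw [Int.card_Ioc]
  have h1 : ⌊x⌋ ≤ ⌊y⌋ := Int.floor_le_floor h
  have h2 : (((⌊y⌋ - ⌊x⌋).toNat : ℤ) : ℝ) = (⌊y⌋ : ℝ) - ⌊x⌋ := by
    rw [Int.toNat_of_nonneg (by omega)]
    push_cast; ring
  have h3 : (((⌊y⌋ - ⌊x⌋).toNat : ℕ) : ℝ) = (((⌊y⌋ - ⌊x⌋).toNat : ℤ) : ℝ) := by norm_cast
  rw [h3, h2]
  have := Int.floor_le y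
  have := Int.lt_floor_add_one x
  linarith

/-- The counting function. -/
noncomputable def NN (U : Set ℤ) (α x : ℝ) : ℕ := cnt U 0 (α * x) ((α + 1) * x)

theorem NN_le {U : Set ℤ} (h0 : (0 : ℤ) ∉ U) {α : ℝ} (hα : α = 0 ∨ α = -1) {x : ℝ} (hx : 0 ≤ x) :
    (NN U α x : ℝ) ≤ x := by
  classical
  unfold NN cnt
  rcases hα with rfl | rfl
  · have h1 : ((Ioc ⌊(0 : ℝ) * x⌋ ⌊((0 : ℝ) + 1) * x⌋).filter fun m => T^[0] m ∈ U).card ≤
        ⌊x⌋.toNat := by
      refine (card_filter_le _ _).trans ?_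
      rw [Int.card_Ioc]
      simp
    have h2 : ((⌊x⌋.toNat : ℕ) : ℝ) ≤ x := by
      have h3 : (((⌊x⌋.toNat : ℕ) : ℤ) : ℝ) = ⌊x⌋ := by
        rw [Int.toNat_of_nonneg (Int.floor_nonneg.mpr hx)]
      have h4 : ((⌊x⌋.toNat : ℕ) : ℝ) = (((⌊x⌋.toNat : ℕ) : ℤ) : ℝ) := by norm_cast
      rw [h4, h3]
      exact Int.floor_le x
    refine le_trans ?_ h2
    exact_mod_cast h1
  · have hsub : (Ioc ⌊(-1 : ℝ) * x⌋ ⌊((-1 : ℝ) + 1) * x⌋).filter (fun m => T^[0] m ∈ U) ⊆
        Ioc ⌊-x⌋ (-1) := by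
      intro m hm
      rw [mem_filter, mem_Ioc] at hm
      obtain ⟨⟨h1, h2⟩, h3⟩ := hm
      rw [mem_Ioc]
      rw [neg_one_mul] at h1
      refine ⟨h1, ?_⟩
      have h4 : m ≤ 0 := by simpa using h2
      have h5 : m ≠ 0 := by
        rintro rfl
        exact h0 h3
      omega
    have h1 := card_le_card hsub
    rw [Int.card_Ioc] at h1
    have h2 : (((-1 - ⌊-x⌋).toNat : ℕ) : ℝ) ≤ x := by
      have h4 : (((-1 - ⌊-x⌋).toNat : ℕ) : ℝ) = (((-1 - ⌊-x⌋).toNat : ℤ) : ℝ) := by norm_cast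
      rw [h4]
      rcases le_total 0 (-1 - ⌊-x⌋) with h | h
      · rw [Int.toNat_of_nonneg h]
        push_cast
        have := Int.lt_floor_add_one (-x)
        linarith
      · rw [Int.toNat_of_nonpos h]
        simpa using hx
    refine le_trans ?_ h2
    exact_mod_cast h1

theorem NN_mono (U : Set ℤ) {α : ℝ} (hα : α = 0 ∨ α = -1) {x y : ℝ} (hxy : x ≤ y) :
    NN U α x ≤ NN U α y := by
  classical
  unfold NN cnt
  refine card_le_card (filter_subset_filter _ ?_)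
  rcases hα with rfl | rfl
  · refine Ioc_subset_Ioc (by simp) (Int.floor_le_floor (by linarith))
  · refine Ioc_subset_Ioc (Int.floor_le_floor (by linarith)) (by simp)

theorem NN_step (U : Set ℤ) {α : ℝ} (hα : α = 0 ∨ α = -1) {x y : ℝ} (hxy : x ≤ y) :
    (NN U α y : ℝ) ≤ NN U α x + (y - x + 1) := by
  classical
  rcases hα with rfl | rfl
  · have h1 : NN U 0 y ≤ NN U 0 x + (Ioc ⌊x⌋ ⌊y⌋).card := by
      unfold NN cnt
      refine le_trans (card_le_card ?_) (card_union_le _ _)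
      intro m hm
      rw [mem_filter, mem_Ioc] at hm
      rw [mem_union, mem_filter, mem_Ioc, mem_Ioc]
      simp only [zero_mul, zero_add, one_mul] at hm ⊢
      by_cases h : m ≤ ⌊x⌋
      · exact Or.inl ⟨⟨hm.1.1, h⟩, hm.2⟩
      · exact Or.inr ⟨by omega, hm.1.2⟩
    have h2 := Ioc_card_le x y hxy
    have h3 : (NN U 0 y : ℝ) ≤ NN U 0 x + (Ioc ⌊x⌋ ⌊y⌋).card := by exact_mod_cast h1
    linarith
  · have h1 : NN U (-1) y ≤ NN U (-1) x + (Ioc ⌊-y⌋ ⌊-x⌋).card := by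
      unfold NN cnt
      refine le_trans (card_le_card ?_) (card_union_le _ _)
      intro m hm
      rw [mem_filter, mem_Ioc] at hm
      rw [mem_union, mem_filter, mem_Ioc, mem_Ioc]
      simp only [neg_one_mul, neg_add_cancel, zero_mul] at hm ⊢
      by_cases h : m ≤ ⌊-x⌋
      · exact Or.inr ⟨hm.1.1, h⟩
      · exact Or.inl ⟨⟨by omega, hm.1.2⟩, hm.2⟩
    have h2 := Ioc_card_le (-y) (-x) (by linarith)
    have h3 : (NN U (-1) y : ℝ) ≤ NN U (-1) x + (Ioc ⌊-y⌋ ⌊-x⌋).card := by exact_mod_cast h1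
    linarith

theorem dU_eq (U : Set ℤ) (α s : ℝ) : dU U α s = (NN U α (Real.exp s) : ℝ) / Real.exp s := rfl

theorem dU_nonneg (U : Set ℤ) (α s : ℝ) : 0 ≤ dU U α s := by
  rw [dU_eq]; positivity

theorem dU_le_one {U : Set ℤ} (h0 : (0 : ℤ) ∉ U) {α : ℝ} (hα : α = 0 ∨ α = -1) (s : ℝ) :
    dU U α s ≤ 1 := by
  rw [dU_eq, div_le_one (Real.exp_pos s)]
  exact NN_le h0 hα (Real.exp_pos s).le

theorem dU_meas (U : Set ℤ) {α : ℝ} (hα : α = 0 ∨ α = -1) : Measurable (dU U α) := by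
  have h1 : Monotone fun s : ℝ => (NN U α (Real.exp s) : ℝ) := by
    intro s t hst
    exact Nat.cast_le.mpr (NN_mono U hα (Real.exp_le_exp.mpr hst))
  exact h1.measurable.div Real.measurable_exp

theorem dU_reg {U : Set ℤ} (h0 : (0 : ℤ) ∉ U) {α : ℝ} (hα : α = 0 ∨ α = -1) (s t : ℝ)
    (ht : 0 ≤ t) : |dU U α (s + t) - dU U α s| ≤ 2 * t + Real.exp (-s) := by
  rw [dU_eq, dU_eq]
  set x := Real.exp s with hx
  set y := Real.exp (s + t) with hy
  have hx0 : 0 < x := Real.exp_pos s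
  have hy0 : 0 < y := Real.exp_pos _
  have hxy : x ≤ y := Real.exp_le_exp.mpr (by linarith)
  have e1 : Real.exp (-s) = 1 / x := by rw [Real.exp_neg, one_div]
  have e2 : y * (1 - t) ≤ x := by
    have h1 : x = y * Real.exp (-t) := by
      rw [hx, hy, ← Real.exp_add]; congr 1; ring
    rw [h1]
    refine mul_le_mul_of_nonneg_left ?_ hy0.le
    have := Real.add_one_le_exp (-t)
    linarith
  have a1 : (NN U α x : ℝ) ≤ NN U α y := Nat.cast_le.mpr (NN_mono U hα hxy)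
  have a2 := NN_step U hα hxy
  have a3 := NN_le h0 hα hx0.le
  have a4 : (0 : ℝ) ≤ NN U α x := Nat.cast_nonneg _
  have b1 : (NN U α y : ℝ) / y ≤ NN U α x / x + (t + 1 / x) := by
    have c1 : (NN U α y : ℝ) / y ≤ (NN U α x + (y - x + 1)) / y := by gcongr
    have c2 : ((NN U α x : ℝ) + (y - x + 1)) / y = NN U α x / y + (y - x) / y + 1 / y := by ring
    have c3 : (NN U α x : ℝ) / y ≤ NN U α x / x := by gcongr
    have c4 : (y - x) / y ≤ t := by
      rw [div_le_iff₀ hy0]; linarith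
    have c5 : 1 / y ≤ 1 / x := by gcongr
    linarith
  have b2 : (NN U α x : ℝ) / x ≤ NN U α y / y + t := by
    have c1 : (NN U α x : ℝ) / y ≤ NN U α y / y := by gcongr
    have c2 : (NN U α x : ℝ) / x ≤ NN U α x / y + t := by
      rw [div_add' _ _ _ hy0.ne', div_le_div_iff₀ hx0 hy0]
      have d1 : (NN U α x : ℝ) * (y - x) ≤ x * (t * y) := by
        have d2 : y - x ≤ t * y := by linarith
        have d3 : 0 ≤ y - x := by linarith
        exact mul_le_mul a3 d2 d3 hx0.le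
      linarith
    linarith
  have hinv : 0 ≤ 1 / x := by positivity
  rw [e1, abs_le]
  constructor <;> linarith

theorem Eb_abs_sub_le {b : ℕ} {F G : ℕ → ℝ} {c : ℝ} (h : ∀ q, q ≤ b → |F q - G q| ≤ c) :
    |Eb b F - Eb b G| ≤ c := by
  rw [← Eb_sub]
  refine (Eb_abs_le b _).trans ?_
  rw [← Eb_const b c]
  exact Eb_mono h

theorem exp_lin (u : ℝ) (hu : 0 < u) : Real.exp (-u) ≤ 1 / u := by
  rw [Real.exp_neg, ← one_div]
  have := Real.add_one_le_exp u
  gcongr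
  linarith

theorem exp_quad (u : ℝ) (hu : 0 < u) : Real.exp (-u) ≤ 2 / u ^ 2 := by
  rw [Real.exp_neg, ← one_div, div_le_div_iff₀ (Real.exp_pos u) (by positivity)]
  have := Real.quadratic_le_exp_of_nonneg hu.le
  nlinarith

theorem dU_harm {C : ℝ} (hC : 0 ≤ C) (hmc : ∀ (W : Set ℤ) (α x : ℝ) (h b : ℕ), 1 ≤ h →
    (2 : ℝ) ^ (h + b) ≤ x →
    |(cnt W (h + b) (α * x) ((α + 1) * x) : ℝ) / x -
      Eb b (fun q => (cnt W h (α * (3 ^ q * x / 2 ^ b)) ((α + 1) * (3 ^ q * x / 2 ^ b)) : ℝ) /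
        (3 ^ q * x / 2 ^ b))| ≤ 8 * 2 ^ (h + b) / x + C / (h : ℝ) ^ 1)
    {K : ℕ} {U : Set ℤ} (hU : EvInv U K) (h0 : (0 : ℤ) ∉ U) {α : ℝ} (hα : α = 0 ∨ α = -1)
    {s : ℝ} (hs1 : 1 ≤ s) (hsK : 800 * (K : ℝ) ≤ s) (b : ℕ) (hb : b * Real.log 2 ≤ 0.9 * s) :
    |dU U α s - Eb b (fun q => dU U α (s + q * Real.log 3 - b * Real.log 2))| ≤
      (184 + 28 * C) / s := by
  have hs0 : 0 < s := by linarith
  have l1 := log2_lb
  have l2 := log2_ub
  have hlog : 0 < Real.log 2 := Real.log_pos (by norm_num)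
  set h : ℕ := ⌊0.05 * s / Real.log 2⌋₊ with hh
  have hle : (h : ℝ) * Real.log 2 ≤ 0.05 * s := by
    rw [← le_div_iff₀ hlog]
    exact Nat.floor_le (by positivity)
  have hge : 0.05 * s < ((h : ℝ) + 1) * Real.log 2 := by
    rw [← div_lt_iff₀ hlog]
    exact Nat.lt_floor_add_one _
  by_cases hz : h = 0
  · -- trivial bound
    rw [hz] at hge
    have hs20 : s < 20 := by
      norm_num at hge l2
      linarith
    have t1 : |dU U α s - Eb b (fun q => dU U α (s + q * Real.log 3 - b * Real.log 2))| ≤ 1 := by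
      have u1 := dU_nonneg U α s
      have u2 := dU_le_one h0 hα s
      have u3 : 0 ≤ Eb b (fun q => dU U α (s + q * Real.log 3 - b * Real.log 2)) := by
        rw [← Eb_const b 0]
        exact Eb_mono fun q _ => dU_nonneg U α _
      have u4 : Eb b (fun q => dU U α (s + q * Real.log 3 - b * Real.log 2)) ≤ 1 := by
        rw [← Eb_const b 1]
        exact Eb_mono fun q _ => dU_le_one h0 hα _
      rw [abs_le]
      constructor <;> linarith
    refine t1.trans ?_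
    rw [le_div_iff₀ hs0]
    linarith
  · have hh1 : 1 ≤ h := Nat.one_le_iff_ne_zero.mpr hz
    set x := Real.exp s with hx
    have hx0 : 0 < x := Real.exp_pos s
    -- 2^(h+b) ≤ exp (0.95 s)
    have hpow : (2 : ℝ) ^ (h + b) ≤ Real.exp (0.95 * s) := by
      have e1 : (2 : ℝ) ^ (h + b) = Real.exp (((h + b : ℕ) : ℝ) * Real.log 2) := by
        rw [Real.exp_nat_mul, Real.exp_log (by norm_num)]
      rw [e1]
      refine Real.exp_le_exp.mpr ?_
      push_cast
      norm_num at hle hb ⊢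
      linarith
    have hratio : (2 : ℝ) ^ (h + b) / x ≤ Real.exp (-(0.05 * s)) := by
      rw [div_le_iff₀ hx0, hx, ← Real.exp_add]
      refine hpow.trans (Real.exp_le_exp.mpr ?_)
      norm_num
      linarith
    have hxx : (2 : ℝ) ^ (h + b) ≤ x := by
      refine hpow.trans (Real.exp_le_exp.mpr ?_)
      norm_num
      linarith
    have m1 := hmc U α x h b hh1 hxx
    rw [pow_one] at m1
    -- comparison at time h + b
    have m2 : |dU U α s - (cnt U (h + b) (α * x) ((α + 1) * x) : ℝ) / x| ≤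
        2 * K * ((2 : ℝ) ^ (h + b) / x) := by
      have e : dU U α s - (cnt U (h + b) (α * x) ((α + 1) * x) : ℝ) / x =
          -(((cnt U (h + b) (α * x) ((α + 1) * x) : ℝ) - cnt U 0 (α * x) ((α + 1) * x)) / x) := by
        rw [dU, ← hx]; ring
      rw [e, abs_neg, abs_div, abs_of_pos hx0, div_le_iff₀ hx0]
      refine (cnt_sub_le hU h0 (h + b) _ _).trans (le_of_eq ?_)
      field_simp
    -- comparison at time h
    have m3 : |Eb b (fun q => (cnt U h (α * (3 ^ q * x / 2 ^ b)) ((α + 1) * (3 ^ q * x / 2 ^ b)) :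
        ℝ) / (3 ^ q * x / 2 ^ b)) - Eb b (fun q => dU U α (s + q * Real.log 3 - b * Real.log 2))| ≤
        2 * K * ((2 : ℝ) ^ (h + b) / x) := by
      refine Eb_abs_sub_le fun q _ => ?_
      have hy : Real.exp (s + q * Real.log 3 - b * Real.log 2) = 3 ^ q * x / 2 ^ b := by
        rw [Real.exp_sub, Real.exp_add, Real.exp_nat_mul, Real.exp_nat_mul,
          Real.exp_log (by norm_num), Real.exp_log (by norm_num), ← hx]
        ring
      have hy0 : 0 < 3 ^ q * x / 2 ^ b := by positivity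
      have hyx : x / 2 ^ b ≤ 3 ^ q * x / 2 ^ b := by
        have : (1 : ℝ) ≤ 3 ^ q := one_le_pow₀ (by norm_num)
        have h1 : x ≤ 3 ^ q * x := by nlinarith
        gcongr
      rw [dU, hy, ← sub_div, abs_div, abs_of_pos hy0, div_le_iff₀ hy0]
      refine (cnt_sub_le hU h0 h _ _).trans ?_
      have e : 2 * (2 : ℝ) ^ h * K = 2 * K * ((2 : ℝ) ^ (h + b) / x) * (x / 2 ^ b) := by
        rw [pow_add]
        field_simp
      rw [e]
      gcongr
    have t1 : |dU U α s - Eb b (fun q => dU U α (s + q * Real.log 3 - b * Real.log 2))| ≤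
        2 * K * ((2 : ℝ) ^ (h + b) / x) + (8 * 2 ^ (h + b) / x + C / h) +
        2 * K * ((2 : ℝ) ^ (h + b) / x) := by
      have e : dU U α s - Eb b (fun q => dU U α (s + q * Real.log 3 - b * Real.log 2)) =
          (dU U α s - (cnt U (h + b) (α * x) ((α + 1) * x) : ℝ) / x) +
          ((cnt U (h + b) (α * x) ((α + 1) * x) : ℝ) / x -
            Eb b (fun q => (cnt U h (α * (3 ^ q * x / 2 ^ b)) ((α + 1) * (3 ^ q * x / 2 ^ b)) : ℝ) /
              (3 ^ q * x / 2 ^ b))) +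
          (Eb b (fun q => (cnt U h (α * (3 ^ q * x / 2 ^ b)) ((α + 1) * (3 ^ q * x / 2 ^ b)) : ℝ) /
              (3 ^ q * x / 2 ^ b)) -
            Eb b (fun q => dU U α (s + q * Real.log 3 - b * Real.log 2))) := by ring
      rw [e]
      exact (abs_add_three _ _ _).trans (add_le_add_three m2 m1 m3)
    refine t1.trans ?_
    set r := (2 : ℝ) ^ (h + b) / x with hr
    have hr0 : 0 ≤ r := by positivity
    have r1 : r ≤ 20 / s := by
      refine hratio.trans ((exp_lin _ (by positivity)).trans (le_of_eq ?_))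
      field_simp
      norm_num
    have r2 : r ≤ 800 / s ^ 2 := by
      refine hratio.trans ((exp_quad _ (by positivity)).trans (le_of_eq ?_))
      field_simp
      norm_num
    have r3 : 4 * K * r ≤ 4 / s := by
      have hK0 : (0 : ℝ) ≤ K := Nat.cast_nonneg K
      calc 4 * K * r ≤ 4 * K * (800 / s ^ 2) := by gcongr
        _ = 4 * ((800 * K) / s ^ 2) := by ring
        _ ≤ 4 * (s / s ^ 2) := by gcongr
        _ = 4 / s := by field_simp
    have r4 : C / h ≤ 28 * C / s := by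
      have hh0 : (0 : ℝ) < h := by exact_mod_cast hh1
      rw [div_le_div_iff₀ hh0 hs0]
      have hh1' : (1 : ℝ) ≤ h := by exact_mod_cast hh1
      have : s ≤ 28 * h := by
        norm_num at hge l2
        nlinarith
      nlinarith
    have e8 : 8 * (2 : ℝ) ^ (h + b) / x = 8 * r := by rw [hr]; ring
    rw [e8]
    have e9 : (184 + 28 * C) / s = 4 / s + 9 * (20 / s) + 28 * C / s := by ring
    rw [e9]
    have : 0 ≤ 20 / s := by positivity
    linarith

theorem good : ∃ C : ℝ, 0 ≤ C ∧ ∀ K : ℕ, ∃ s₀ : ℝ, 1 ≤ s₀ ∧ ∀ (U : Set ℤ), EvInv U K →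
    (0 : ℤ) ∉ U → ∀ α : ℝ, (α = 0 ∨ α = -1) → Good C s₀ (dU U α) := by
  obtain ⟨C, hC, hmc⟩ := master_conv 1
  refine ⟨184 + 28 * C, by positivity, fun K => ⟨800 * K + 1, ?_, ?_⟩⟩
  · have : (0 : ℝ) ≤ K := Nat.cast_nonneg K
    linarith
  · intro U hU h0 α hα
    have hK0 : (0 : ℝ) ≤ K := Nat.cast_nonneg K
    exact
      { nonneg := dU_nonneg U α
        le_one := dU_le_one h0 hα
        meas := dU_meas U hα
        harm := fun s hs b hb => dU_harm hC hmc hU h0 hα (by linarith) (by linarith) b hb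
        reg := fun s _ t ht _ => dU_reg h0 hα s t ht }

end Pool.Agent.H89.ND
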