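import Pool.Agent.H89.ND.Ana2
import Pool.Agent.H14.ND.Window

/-!
# Almost harmonic functions converge, uniformly
-/

set_option autoImplicit false

namespace Pool.Agent.H89.ND

open Finset Real MeasureTheory intervalIntegral

variable {C s₀ : ℝ} {f : ℝ → ℝ}

/-- `n` shifts by `log 3`. -/
theorem Good.many3 (h : Good C s₀ f) (hC : 0 ≤ C) {m : ℝ} (hm : 1 ≤ m) (hm₀ : s₀ ≤ m) (n : ℕ) {s : ℝ}
    (hs : m ≤ s) : |f (s + n * Real.log 3) - f s| ≤ n * ((2 * C + 2) / √m) := by
  have l3 : 0 < Real.log 3 := log_pos (by norm_num)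
  induction n with
  | zero => simp
  | succ n ih =>
    have hn : (0:ℝ) ≤ n := Nat.cast_nonneg _
    have hge : m ≤ s + n * Real.log 3 := by
      have := mul_nonneg hn l3.le
      linarith
    have a1 := h.log3 hC (s := s + n * Real.log 3) (by linarith) (by linarith)
    have a2 : (2 * C + 2) / √(s + n * Real.log 3) ≤ (2 * C + 2) / √m :=
      div_le_div_of_nonneg_left (by positivity) (sqrt_pos.mpr (by linarith)) (sqrt_le_sqrt hge)
    have e : f (s + ((n + 1 : ℕ) : ℝ) * Real.log 3) - f s =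
        (f (s + n * Real.log 3 + Real.log 3) - f (s + n * Real.log 3)) +
        (f (s + n * Real.log 3) - f s) := by
      have : s + ((n + 1 : ℕ) : ℝ) * Real.log 3 = s + n * Real.log 3 + Real.log 3 := by
        push_cast; ring
      rw [this]; ring
    rw [e]
    refine (abs_add_le _ _).trans ((add_le_add (a1.trans a2) ih).trans (le_of_eq ?_))
    push_cast; ring

/-- `n` shifts by `log 2`. -/
theorem Good.many2 (h : Good C s₀ f) (hC : 0 ≤ C) {m : ℝ} (hm : 1 ≤ m) (hm₀ : s₀ ≤ m) (n : ℕ) {s : ℝ}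
    (hs : m ≤ s) : |f (s + n * Real.log 2) - f s| ≤ n * ((2 * C + 2) / √m) := by
  have l3 : 0 < Real.log 2 := log_pos (by norm_num)
  induction n with
  | zero => simp
  | succ n ih =>
    have hn : (0:ℝ) ≤ n := Nat.cast_nonneg _
    have hge : m ≤ s + n * Real.log 2 := by
      have := mul_nonneg hn l3.le
      linarith
    have a1 := h.log2 hC (s := s + n * Real.log 2) (by linarith) (by linarith)
    have a2 : (2 * C + 1) / √(s + n * Real.log 2) ≤ (2 * C + 2) / √m :=
      (div_le_div_of_nonneg_left (by positivity) (sqrt_pos.mpr (by linarith))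
        (sqrt_le_sqrt hge)).trans
        (div_le_div_of_nonneg_right (by linarith) (sqrt_nonneg _))
    have e : f (s + ((n + 1 : ℕ) : ℝ) * Real.log 2) - f s =
        (f (s + n * Real.log 2 + Real.log 2) - f (s + n * Real.log 2)) +
        (f (s + n * Real.log 2) - f s) := by
      have : s + ((n + 1 : ℕ) : ℝ) * Real.log 2 = s + n * Real.log 2 + Real.log 2 := by
        push_cast; ring
      rw [this]; ring
    rw [e]
    refine (abs_add_le _ _).trans ((add_le_add (a1.trans a2) ih).trans (le_of_eq ?_))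
    push_cast; ring

/-- Shift by `p log 3 - q log 2`. -/
theorem Good.mixed (h : Good C s₀ f) (hC : 0 ≤ C) {m : ℝ} (hm : 1 ≤ m) (hm₀ : s₀ ≤ m) (p q : ℕ)
    {s : ℝ} (hs : m ≤ s) (hs' : m ≤ s + (p * Real.log 3 - q * Real.log 2)) :
    |f (s + (p * Real.log 3 - q * Real.log 2)) - f s| ≤ (p + q) * ((2 * C + 2) / √m) := by
  have a1 := h.many3 hC hm hm₀ p hs
  have a2 := h.many2 hC hm hm₀ q hs'
  have e : s + (p * Real.log 3 - q * Real.log 2) + q * Real.log 2 = s + p * Real.log 3 := by ring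
  rw [e, abs_sub_comm] at a2
  have e2 : f (s + (p * Real.log 3 - q * Real.log 2)) - f s =
      (f (s + (p * Real.log 3 - q * Real.log 2)) - f (s + p * Real.log 3)) +
      (f (s + p * Real.log 3) - f s) := by ring
  rw [e2]
  refine (abs_add_le _ _).trans ((add_le_add a2 a1).trans (le_of_eq ?_))
  ring

/-- The oscillation of `f` over short intervals tends to `0`, uniformly. -/
theorem osc (C s₀ : ℝ) (hC : 0 ≤ C) (η : ℝ) (hη : 0 < η) :
    ∃ s₁ : ℝ, 1 ≤ s₁ ∧ ∀ f : ℝ → ℝ, Good C s₀ f → ∀ s, s₁ ≤ s → ∀ t, 0 ≤ t → t ≤ Real.log 2 →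
      |f (s + t) - f s| ≤ η := by
  have l2' := log2_ub
  obtain ⟨p, q, hpq0, hpq⟩ := Pool.Agent.H14.ND.small_elem (min (η / 8) 1) (by positivity)
  -- the small element
  set δ : ℝ := q * Real.log (3 / 2) - p * Real.log 2 with hδ
  have hδ8 : |δ| < η / 8 := lt_of_lt_of_le hpq (min_le_left _ _)
  have hδ1 : |δ| < 1 := lt_of_lt_of_le hpq (min_le_right _ _)
  have hδe : δ = q * Real.log 3 - ((p + q : ℕ) : ℝ) * Real.log 2 := by
    rw [hδ, Real.log_div (by norm_num) (by norm_num)]
    push_cast; ring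
  have hδp : 0 < |δ| := abs_pos.mpr hpq0
  set N : ℕ := ⌊1 / |δ|⌋₊ with hN
  set R : ℝ := N * ((q : ℝ) + ((p + q : ℕ) : ℝ)) * (2 * C + 2) with hR
  have hR0 : 0 ≤ R := by rw [hR]; positivity
  refine ⟨max (|s₀| + 3) (max (-Real.log (η / 8) + 3) ((4 * R / η + 1) ^ 2 + 3)), ?_, ?_⟩
  · exact le_trans (by have := abs_nonneg s₀; linarith) (le_max_left _ _)
  intro f h s hs t ht0 ht1
  have hs1 : |s₀| + 3 ≤ s := (le_max_left _ _).trans hs
  have hs2 : -Real.log (η / 8) + 3 ≤ s := ((le_max_left _ _).trans (le_max_right _ _)).trans hs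
  have hs3 : (4 * R / η + 1) ^ 2 + 3 ≤ s := ((le_max_right _ _).trans (le_max_right _ _)).trans hs
  have ht : t ≤ 1 := by linarith
  -- the number of small steps
  set n : ℕ := ⌊t / |δ|⌋₊ with hn
  have hn1 : (n : ℝ) * |δ| ≤ t := by
    rw [← le_div_iff₀ hδp]
    exact Nat.floor_le (by positivity)
  have hn2 : t < ((n : ℝ) + 1) * |δ| := by
    rw [← div_lt_iff₀ hδp]
    exact Nat.lt_floor_add_one _
  have hnN : (n : ℝ) ≤ N := by
    have : n ≤ N := Nat.floor_le_floor (div_le_div_of_nonneg_right ht hδp.le)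
    exact_mod_cast this
  set m : ℝ := s - 2 with hm
  have hm1 : 1 ≤ m := by
    have := abs_nonneg s₀
    rw [hm]; linarith
  have hm0 : s₀ ≤ m := by
    have := le_abs_self s₀
    rw [hm]; linarith
  have hmexp : exp (-m) ≤ η / 8 := by
    have : exp (-m) ≤ exp (Real.log (η / 8)) := by
      apply exp_le_exp.mpr
      rw [hm]; linarith
    rwa [exp_log (by positivity)] at this
  have hsm : 4 * R / η + 1 ≤ √m := by
    apply le_sqrt_of_sq_le
    rw [hm]; linarith
  -- n shifts by δ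
  have key : ∀ x : ℝ, m ≤ x → m ≤ x + n * δ → |f (x + n * δ) - f x| ≤ η / 4 := by
    intro x hx hx'
    have e : (n : ℝ) * δ = ((n * q : ℕ) : ℝ) * Real.log 3 - ((n * (p + q) : ℕ) : ℝ) * Real.log 2 := by
      rw [hδe]; push_cast; ring
    rw [e] at hx' ⊢
    refine (h.mixed hC hm1 hm0 (n * q) (n * (p + q)) hx hx').trans ?_
    have e2 : (((n * q : ℕ) : ℝ) + ((n * (p + q) : ℕ) : ℝ)) * ((2 * C + 2) / √m) =
        (n * ((q : ℝ) + ((p + q : ℕ) : ℝ)) * (2 * C + 2)) / √m := by
      push_cast; ring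
    rw [e2]
    have hsq : 0 < √m := sqrt_pos.mpr (by linarith)
    rw [div_le_iff₀ hsq]
    have e3 : (n : ℝ) * ((q : ℝ) + ((p + q : ℕ) : ℝ)) * (2 * C + 2) ≤ R := by
      rw [hR]
      exact mul_le_mul_of_nonneg_right (mul_le_mul_of_nonneg_right hnN (by positivity))
        (by positivity)
    have e4 : η / 4 * (4 * R / η + 1) ≤ η / 4 * √m := mul_le_mul_of_nonneg_left hsm (by positivity)
    have e5 : η / 4 * (4 * R / η + 1) = R + η / 4 := by field_simp
    linarith
  -- comparison with the exact shift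
  have reg2 : ∀ x y : ℝ, m ≤ x → x ≤ y → y - x ≤ |δ| → |f y - f x| ≤ 2 * |δ| + η / 8 := by
    intro x y hx hxy hyx
    have := h.reg x (by linarith) (y - x) (by linarith) (by linarith)
    rw [show x + (y - x) = y by ring] at this
    refine this.trans (add_le_add (by linarith) (le_trans ?_ hmexp))
    exact exp_le_exp.mpr (by linarith)
  rcases lt_or_gt_of_ne hpq0 with hneg | hpos
  · -- δ < 0
    have hab : |δ| = -δ := abs_of_neg hneg
    rw [hab] at hn1 hn2
    have a1 := key (s + t) (by rw [hm]; linarith) (by rw [hm]; nlinarith)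
    have a2 := reg2 s (s + t + n * δ) (by rw [hm]; linarith) (by nlinarith) (by rw [hab]; nlinarith)
    have e : f (s + t) - f s = -(f (s + t + n * δ) - f (s + t)) + (f (s + t + n * δ) - f s) := by
      ring
    rw [e]
    refine (abs_add_le _ _).trans ?_
    rw [abs_neg]
    linarith
  · -- δ > 0
    have hab : |δ| = δ := abs_of_pos hpos
    rw [hab] at hn1 hn2
    have hnd : 0 ≤ (n : ℝ) * δ := mul_nonneg (Nat.cast_nonneg _) hpos.le
    have a1 := key s (by rw [hm]; linarith) (by rw [hm]; linarith)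
    have a2 := reg2 (s + n * δ) (s + t) (by rw [hm]; linarith) (by linarith)
      (by rw [hab]; nlinarith)
    have e : f (s + t) - f s = (f (s + t) - f (s + n * δ)) + (f (s + n * δ) - f s) := by ring
    rw [e]
    refine (abs_add_le _ _).trans ?_
    linarith

/-- `f` and `V f` are close. -/
theorem f_V (C s₀ : ℝ) (hC : 0 ≤ C) (η : ℝ) (hη : 0 < η) :
    ∃ s₁ : ℝ, 1 ≤ s₁ ∧ ∀ f : ℝ → ℝ, Good C s₀ f → ∀ s, s₁ ≤ s → |f s - V f s| ≤ η := by
  obtain ⟨s₁, h1, hosc⟩ := osc C s₀ hC η hη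
  refine ⟨s₁, h1, fun f h s hs => ?_⟩
  have h2 : 0 < Real.log 2 := log_pos (by norm_num)
  have e : f s - V f s = (∫ t in (0 : ℝ)..(Real.log 2), (f s - f (s + t))) / Real.log 2 := by
    have i1 : IntervalIntegrable (fun t => f (s + t)) volume 0 (Real.log 2) := by
      have := h.ii_shift s 0 (Real.log 2)
      simpa [add_comm] using this
    rw [intervalIntegral.integral_sub intervalIntegrable_const i1, sub_div, ← V_eq,
      intervalIntegral.integral_const, sub_zero, smul_eq_mul, mul_div_right_comm,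
      div_self h2.ne', one_mul]
  rw [e, abs_div, abs_of_pos h2, div_le_iff₀ h2, ← Real.norm_eq_abs]
  have := intervalIntegral.norm_integral_le_of_norm_le_const (a := 0) (b := Real.log 2)
    (C := η) (f := fun t => f s - f (s + t)) (by
      intro t ht
      rw [Set.uIoc_of_le h2.le] at ht
      rw [Real.norm_eq_abs, abs_sub_comm]
      exact hosc f h s hs t ht.1.le ht.2)
  refine this.trans (le_of_eq ?_)
  rw [sub_zero, abs_of_pos h2]

theorem good_lim (C s₀ : ℝ) (hC : 0 ≤ C) (η : ℝ) (hη : 0 < η) :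
    ∃ s₁ : ℝ, ∀ f : ℝ → ℝ, Good C s₀ f → ∀ s, s₁ ≤ s → ∀ s', s₁ ≤ s' → |f s - f s'| ≤ η := by
  obtain ⟨s₁, h1, hfV⟩ := f_V C s₀ hC (η / 4) (by positivity)
  have hK := K1_nonneg hC
  set M : ℝ := 11 * (C + 12 * K1 C) with hM
  have hM0 : 0 ≤ M := by rw [hM]; positivity
  refine ⟨max s₁ (max (10 * |s₀| + 10) ((4 * M / η) ^ 2 + 1)), ?_⟩
  have key : ∀ f : ℝ → ℝ, Good C s₀ f → ∀ s s', max s₁ (max (10 * |s₀| + 10) ((4 * M / η) ^ 2 + 1)) ≤ s' →
      s' ≤ s → |f s - f s'| ≤ η := by
    intro f h s s' hs' hle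
    have b1 : s₁ ≤ s' := (le_max_left _ _).trans hs'
    have b2 : 10 * |s₀| + 10 ≤ s' := ((le_max_left _ _).trans (le_max_right _ _)).trans hs'
    have b3 : (4 * M / η) ^ 2 + 1 ≤ s' := ((le_max_right _ _).trans (le_max_right _ _)).trans hs'
    have b4 := le_abs_self s₀
    have b5 := abs_nonneg s₀
    obtain ⟨n, hn⟩ := pow_unbounded_of_one_lt (s / s') (show (1:ℝ) < 1.21 by norm_num)
    have hs'0 : 0 < s' := by linarith
    rw [div_lt_iff₀ hs'0] at hn
    have a1 := h.V_all hC n (s := s) (s' := s') (by linarith) (by linarith) (by linarith) hle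
      (by linarith)
    have a2 : 11 * (C + 12 * K1 C) / √s' ≤ η / 4 := by
      rw [← hM, div_le_iff₀ (sqrt_pos.mpr hs'0)]
      have : 4 * M / η ≤ √s' := le_sqrt_of_sq_le (by linarith)
      have := mul_le_mul_of_nonneg_left this (show 0 ≤ η / 4 by positivity)
      have e : η / 4 * (4 * M / η) = M := by field_simp
      linarith
    have a3 := hfV f h s (by linarith)
    have a4 := hfV f h s' b1
    have e : f s - f s' = (f s - V f s) + (V f s - V f s') + (-(f s' - V f s')) := by ring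
    rw [e]
    refine (abs_add_three _ _ _).trans ?_
    rw [abs_neg]
    linarith
  intro f h s hs s' hs'
  rcases le_total s' s with hle | hle
  · exact key f h s s' hs' hle
  · rw [abs_sub_comm]
    exact key f h s' s hs hle

end Pool.Agent.H89.ND
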