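import Pool.Agent.H89.ND.Uni
import Pool.Agent.H30.PD.Count

/-!
# JOB ND-POS. Positivity

* `pre_evInv`: for `P = {n | ∃ k, T^[k] n = a}`: `T n ∈ P → n ∈ P`; `n ∈ P`, `n ≠ a` → `T n ∈ P`.
* `pre_pos`: `Pool.Agent.H30.PD.dens` gives `rat P x ≥ c x/(|a| (2x+1)) ≥ c/(3|a|)` for large `x` (`Nat.card` of the set
  `{n : ℤ | |(n:ℝ)| ≤ x ∧ ∃ k, T^[k] n = a}`); limit.
* `dens_pos`: let `0 ≠ n ∈ U`. Some iterate of `n` is odd (2-adic valuation, `T m = m/2` for even `m`), and for odd `m`, `T m = (3m+1)/2` is not divisible by 3: so there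
  is `a ∈ U`, `¬ 3 ∣ a` (`U` is forward invariant). `P ⊆ U` (backward invariance, induction on `k`), so `rat P x ≤ rat U x`, `dens P ≤ dens U`.
-/

set_option autoImplicit false

namespace Pool.Agent.H89.ND

open Finset Filter Topology Pool.Agent.H30 Pool.Agent.H30.PD

theorem finite_abs (U : Set ℤ) (x : ℕ) : Finite {n : ℤ // n ∈ U ∧ |n| ≤ x} := by
  have : {n : ℤ | n ∈ U ∧ |n| ≤ x} ⊆ Set.Icc (-(x : ℤ)) x := fun n hn => abs_le.mp hn.2
  exact (Set.finite_Icc (-(x : ℤ)) x).subset this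

theorem rat_mono {U U' : Set ℤ} (h : U ⊆ U') (x : ℕ) : rat U x ≤ rat U' x := by
  unfold rat
  have := finite_abs U' x
  refine div_le_div_of_nonneg_right (Nat.cast_le.mpr ?_) (by positivity)
  exact Nat.card_le_card_of_injective
    (fun n : {n : ℤ // n ∈ U ∧ |n| ≤ x} => (⟨n.1, h n.2.1, n.2.2⟩ : {n : ℤ // n ∈ U' ∧ |n| ≤ x}))
    (fun a b hab => Subtype.ext (by simpa using congrArg Subtype.val hab))

theorem pre_evInv (a : ℤ) : EvInv {n : ℤ | ∃ k : ℕ, T^[k] n = a} a.natAbs := by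
  intro n hn
  constructor
  · rintro ⟨k, hk⟩
    exact ⟨k + 1, by rw [Function.iterate_succ_apply]; exact hk⟩
  · rintro ⟨k, hk⟩
    cases k with
    | zero =>
      rw [Function.iterate_zero_apply] at hk
      subst hk
      exact absurd hn (by simp)
    | succ k => exact ⟨k, by rw [← Function.iterate_succ_apply]; exact hk⟩

theorem pre_pos {a : ℤ} (ha : ¬ (3 : ℤ) ∣ a) :
    0 < Pool.Agent.H89.ND.dens {n : ℤ | ∃ k : ℕ, T^[k] n = a} := by
  obtain ⟨c, C, hc, hC, h⟩ := Pool.Agent.H30.PD.dens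
  have ha0 : (a : ℝ) ≠ 0 := by
    intro h0
    rw [Int.cast_eq_zero] at h0
    exact ha (h0 ▸ dvd_zero 3)
  have ha1 : 0 < |(a : ℝ)| := abs_pos.mpr ha0
  have hlim : Tendsto (rat {n : ℤ | ∃ k : ℕ, T^[k] n = a}) atTop
      (𝓝 (Pool.Agent.H89.ND.dens {n : ℤ | ∃ k : ℕ, T^[k] n = a})) := tendsto_dens (pre_evInv a)
  have hlow : ∀ᶠ x : ℕ in atTop, c / (3 * |(a : ℝ)|) ≤ rat {n : ℤ | ∃ k : ℕ, T^[k] n = a} x := by
    filter_upwards [eventually_ge_atTop (⌈C * |(a : ℝ)|⌉₊), eventually_ge_atTop 1] with x hx hx1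
    have h1 := h a ha x (Nat.ceil_le.mp hx)
    have hx1' : (1 : ℝ) ≤ x := by exact_mod_cast hx1
    have h2 : Nat.card {n : ℤ | |(n : ℝ)| ≤ (x : ℝ) ∧ ∃ k : ℕ, T^[k] n = a} =
        Nat.card {n : ℤ // n ∈ {n : ℤ | ∃ k : ℕ, T^[k] n = a} ∧ |n| ≤ (x : ℤ)} := by
      refine Nat.card_congr (Equiv.subtypeEquivRight fun n => ?_)
      have : |(n : ℝ)| ≤ (x : ℝ) ↔ |n| ≤ (x : ℤ) := by
        rw [← Int.cast_abs]
        exact_mod_cast Iff.rfl
      constructor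
      · rintro ⟨h3, h4⟩
        exact ⟨h4, this.mp h3⟩
      · rintro ⟨h3, h4⟩
        exact ⟨this.mpr h4, h3⟩
    rw [h2] at h1
    unfold rat
    rw [div_le_div_iff₀ (by positivity) (by positivity)]
    rw [div_le_iff₀ ha1] at h1
    have h3 : c * (2 * x + 1) ≤ 3 * (c * x) := by nlinarith
    calc c * (2 * x + 1) ≤ 3 * (c * x) := h3
      _ ≤ 3 * ((Nat.card {n : ℤ // n ∈ {n : ℤ | ∃ k : ℕ, T^[k] n = a} ∧ |n| ≤ (x : ℤ)} : ℝ) *
          |(a : ℝ)|) := by linarith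
      _ = _ := by ring
  have := ge_of_tendsto hlim hlow
  exact lt_of_lt_of_le (by positivity) this

theorem exists_odd_iter {U : Set ℤ} (hU : ∀ n, T n ∈ U ↔ n ∈ U) :
    ∀ N : ℕ, ∀ n : ℤ, n.natAbs = N → n ∈ U → n ≠ 0 → ∃ m ∈ U, m % 2 ≠ 0 := by
  intro N
  induction N using Nat.strong_induction_on with
  | _ N ih =>
    intro n hN hn hn0
    by_cases h : n % 2 = 0
    · have hT : T n = n / 2 := by unfold T; rw [if_pos h]
      have h1 : n / 2 ∈ U := by rw [← hT, hU]; exact hn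
      exact ih (n / 2).natAbs (by omega) (n / 2) rfl h1 (by omega)
    · exact ⟨n, hn, h⟩

theorem dens_pos {U : Set ℤ} (hU : ∀ n, T n ∈ U ↔ n ∈ U) (h : ∃ n ∈ U, n ≠ 0) :
    0 < Pool.Agent.H89.ND.dens U := by
  obtain ⟨n, hn, hn0⟩ := h
  obtain ⟨m, hm, hm2⟩ := exists_odd_iter hU n.natAbs n rfl hn hn0
  have hT : T m = (3 * m + 1) / 2 := by unfold T; rw [if_neg hm2]
  have ha : T m ∈ U := by rw [hU]; exact hm
  have h3 : ¬ (3 : ℤ) ∣ T m := by rw [hT]; omega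
  have hsub : {n : ℤ | ∃ k : ℕ, T^[k] n = T m} ⊆ U := by
    rintro n ⟨k, hk⟩
    have : ∀ (k : ℕ) (n : ℤ), T^[k] n ∈ U → n ∈ U := by
      intro k
      induction k with
      | zero => intro n hn; exact hn
      | succ k ih =>
        intro n hn
        rw [Function.iterate_succ_apply] at hn
        exact (hU n).mp (ih (T n) hn)
    exact this k n (hk ▸ ha)
  have h1 : Tendsto (rat U) atTop (𝓝 (Pool.Agent.H89.ND.dens U)) :=
    tendsto_dens (K := 0) fun n _ => hU n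
  have h2 : Tendsto (rat {n : ℤ | ∃ k : ℕ, T^[k] n = T m}) atTop
      (𝓝 (Pool.Agent.H89.ND.dens {n : ℤ | ∃ k : ℕ, T^[k] n = T m})) :=
    tendsto_dens (pre_evInv (T m))
  exact (pre_pos h3).trans_le (le_of_tendsto_of_tendsto' h2 h1 fun x => rat_mono hsub x)

end Pool.Agent.H89.ND
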