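import Pool.Agent.H89.ND.Mn

/-!
# JOB ND-SPLIT. Splitting words at time `a`

`sum_D_add` for the indicator: `XR (a+b) r k n = 3^r/2^(a+b) * #{(p,q) ∈ D a × D b : p.1 + q.1 = k, 3^r ∣ 2^(a+b) n - (2^b p.2 + 3^(p.1) q.2)}`
`= ∑_{x ∈ antidiagonal k}` (part with `p.1 = x.1`, `q.1 = x.2`). If `r ≤ x.1` then `3^r ∣ 3^(p.1) q.2`, so the condition is
`3^r ∣ 2^b (2^a n - p.2)`, i.e. `3^r ∣ 2^a n - p.2` (`2^b` is coprime to `3^r`): the part is `bin b x.2 * XR a r x.1 n` (`card_filter_fst`).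
So the difference is the sum of the parts with `x.1 < r`; it is `≥ 0`, and for given `(p, q)` the number of `n` modulo `3^k` with
`3^r ∣ 2^(a+b) n - c` is `3^(k-r)` (see `mn_XR`), so its mean is `∑_{x.1 < r} bin a x.1 * bin b x.2`.
-/

set_option autoImplicit false

namespace Pool.Agent.H89.ND

open Finset Pool.Agent.H30 Pool.Agent.H30.PD

theorem split_dvd (a b r : ℕ) (n : ℤ) (p q : ℕ × ℕ) (hr : r ≤ p.1)
    (h : (3 : ℤ) ^ r ∣ 2 ^ a * n - p.2) :
    (3 : ℤ) ^ r ∣ 2 ^ (a + b) * n - ((comp b p q).2 : ℕ) := by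
  have e : (2 : ℤ) ^ (a + b) * n - ((comp b p q).2 : ℕ) =
      2 ^ b * (2 ^ a * n - p.2) - 3 ^ p.1 * q.2 := by
    simp only [comp]
    push_cast
    ring
  rw [e]
  exact dvd_sub (h.mul_left _) ((pow_dvd_pow 3 hr).mul_right _)

theorem split_pair (a b r k : ℕ) (n : ℤ) (p q : ℕ × ℕ) :
    ∑ x ∈ (antidiagonal k).filter (fun x => r ≤ x.1),
      (if (p.1 = x.1 ∧ (3 : ℤ) ^ r ∣ 2 ^ a * n - p.2) ∧ q.1 = x.2 then (1 : ℝ) else 0) ≤
    (if (comp b p q).1 = k ∧ (3 : ℤ) ^ r ∣ 2 ^ (a + b) * n - ((comp b p q).2 : ℕ)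
      then (1 : ℝ) else 0) := by
  by_cases hc : (comp b p q).1 = k ∧ (3 : ℤ) ^ r ∣ 2 ^ (a + b) * n - ((comp b p q).2 : ℕ)
  · rw [if_pos hc]
    calc ∑ x ∈ (antidiagonal k).filter (fun x => r ≤ x.1),
          (if (p.1 = x.1 ∧ (3 : ℤ) ^ r ∣ 2 ^ a * n - p.2) ∧ q.1 = x.2 then (1 : ℝ) else 0)
        ≤ ∑ x ∈ (antidiagonal k).filter (fun x => r ≤ x.1),
          (if x = (p.1, q.1) then (1 : ℝ) else 0) := by
          refine Finset.sum_le_sum fun x _ => ?_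
          by_cases h1 : (p.1 = x.1 ∧ (3 : ℤ) ^ r ∣ 2 ^ a * n - p.2) ∧ q.1 = x.2
          · rw [if_pos h1, if_pos (show x = (p.1, q.1) from Prod.ext h1.1.1.symm h1.2.symm)]
          · rw [if_neg h1]
            split_ifs <;> norm_num
      _ ≤ 1 := by
          rw [Finset.sum_ite_eq']
          split_ifs <;> norm_num
  · rw [if_neg hc]
    refine le_of_eq (Finset.sum_eq_zero fun x hx => ?_)
    rw [Finset.mem_filter, HasAntidiagonal.mem_antidiagonal] at hx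
    rw [if_neg]
    rintro ⟨⟨h1, h2⟩, h3⟩
    refine hc ⟨?_, split_dvd a b r n p q (h1 ▸ hx.2) h2⟩
    simp only [comp]
    rw [h1, h3]
    exact hx.1

theorem split_bin (b j : ℕ) : bin b j =
    (∑ q ∈ D b, (if q.1 = j then (1 : ℝ) else 0)) / 2 ^ b := by
  unfold bin
  rw [Finset.sum_boole, card_filter_fst]

theorem split_low (a b r k : ℕ) (n : ℤ) :
    ∑ x ∈ (antidiagonal k).filter (fun x => r ≤ x.1), bin b x.2 * XR a r x.1 n ≤
      XR (a + b) r k n := by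
  have h1 : XR (a + b) r k n = 3 ^ r / 2 ^ (a + b) * ∑ p ∈ D a, ∑ q ∈ D b,
      (if (comp b p q).1 = k ∧ (3 : ℤ) ^ r ∣ 2 ^ (a + b) * n - ((comp b p q).2 : ℕ)
        then (1 : ℝ) else 0) := by
    unfold XR
    rw [← Finset.sum_boole, sum_D_add]
  have h2 : ∀ x : ℕ × ℕ, bin b x.2 * XR a r x.1 n = 3 ^ r / 2 ^ (a + b) * ∑ p ∈ D a, ∑ q ∈ D b,
      (if (p.1 = x.1 ∧ (3 : ℤ) ^ r ∣ 2 ^ a * n - p.2) ∧ q.1 = x.2 then (1 : ℝ) else 0) := by
    intro x
    have h3 : ∑ p ∈ D a, ∑ q ∈ D b,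
        (if (p.1 = x.1 ∧ (3 : ℤ) ^ r ∣ 2 ^ a * n - p.2) ∧ q.1 = x.2 then (1 : ℝ) else 0) =
        (∑ p ∈ D a, (if p.1 = x.1 ∧ (3 : ℤ) ^ r ∣ 2 ^ a * n - p.2 then (1 : ℝ) else 0)) *
        ∑ q ∈ D b, (if q.1 = x.2 then (1 : ℝ) else 0) := by
      rw [Finset.sum_mul_sum]
      refine Finset.sum_congr rfl fun p _ => Finset.sum_congr rfl fun q _ => ?_
      by_cases h4 : p.1 = x.1 ∧ (3 : ℤ) ^ r ∣ 2 ^ a * n - p.2
      · simp only [h4, true_and, if_true, one_mul, and_true]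
      · rw [if_neg h4, if_neg (fun h => h4 h.1), zero_mul]
    rw [h3, split_bin, XR, ← Finset.sum_boole, pow_add]
    ring
  rw [h1, Finset.sum_congr rfl (fun x _ => h2 x), ← Finset.mul_sum]
  refine mul_le_mul_of_nonneg_left ?_ (by positivity)
  rw [Finset.sum_comm]
  refine Finset.sum_le_sum fun p _ => ?_
  rw [Finset.sum_comm]
  exact Finset.sum_le_sum fun q _ => split_pair a b r k n p q

theorem split (a b r k : ℕ) (hrk : r ≤ k) :
    mn k (fun n => |XR (a + b) r k n -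
      ∑ x ∈ (antidiagonal k).filter (fun x => r ≤ x.1), bin b x.2 * XR a r x.1 n|) ≤
    ∑ x ∈ (antidiagonal k).filter (fun x => ¬ r ≤ x.1), bin a x.1 * bin b x.2 := by
  set P : ℤ → ℝ := fun n =>
    ∑ x ∈ (antidiagonal k).filter (fun x => r ≤ x.1), bin b x.2 * XR a r x.1 n with hP
  set R : ℤ → ℝ := fun n => |XR (a + b) r k n - P n| with hR
  have h1 : (fun n => R n + P n) = XR (a + b) r k := by
    funext n
    simp only [hR]
    rw [abs_of_nonneg (sub_nonneg.2 (split_low a b r k n))]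
    ring
  have h2 : mn k R + mn k P = bin (a + b) k := by
    rw [← mn_add, h1, mn_XR hrk]
  have h3 : mn k P = ∑ x ∈ (antidiagonal k).filter (fun x => r ≤ x.1), bin a x.1 * bin b x.2 := by
    rw [hP, mn_sum]
    refine Finset.sum_congr rfl fun x _ => ?_
    rw [mn_smul, mn_XR hrk, mul_comm]
  have h4 : bin (a + b) k = ∑ x ∈ antidiagonal k, bin a x.1 * bin b x.2 := by
    rw [bin_add, Finset.Nat.sum_antidiagonal_eq_sum_range_succ_mk]
  have h5 := Finset.sum_filter_add_sum_filter_not (antidiagonal k) (fun x => r ≤ x.1)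
    (fun x => bin a x.1 * bin b x.2)
  change mn k R ≤ _
  linarith

end Pool.Agent.H89.ND
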