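import Pool.Agent.H89.ND.Split
import Pool.Agent.H30.PD.Mix
import Pool.Agent.H30.PD.MixA

/-!
# JOB ND-STEPA. One scale, fixed `k`

`q0` from `mix B` (also `1 ≤ q0`). `l = a + b`. Triangle inequality
`|XR l k k - cvX a b k| ≤ |XR l k k - XR l r k| + |XR l r k - ∑_{x, r ≤ x.1} bin b x.2 XR a r x.1| + ∑_{x, r ≤ x.1} bin b x.2 |XR a r x.1 - XR a x.1 x.1|`
`+ ∑_{x, ¬ r ≤ x.1} bin b x.2 XR a x.1 x.1`. Means (`mn_mono`, `mn_add`, `mn_sum`, `mn_smul`):
* first: `≤ 1/k^B` by `mix` with `q = k`, `L = a + b` (`gg_eq`, `mn_unit`, `gg_periodic`);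
* second: `split`;
* third: `XR a r x.1 - XR a x.1 x.1` has period `3^(x.1)`, `mn_level` (`x.1 ≤ k`); for good `x` (`r ≤ x.1`, `23 x.1 ≤ 25 r`, `17 x.1 ≤ 10 a`) `mix` gives
  `≤ 1/x.1^B ≤ 1/r^B`, and `∑_x bin b x.2 ≤ 1` (`sum_bin_le`); for the other `x` the mean is `≤ 2 bin a x.1` (`mn_XR`);
* fourth: `mn_XR`: `bin a x.1 bin b x.2`.
-/

set_option autoImplicit false

namespace Pool.Agent.H89.ND

open Finset Pool.Agent.H30 Pool.Agent.H30.PD

/-- the case of one scale -/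
theorem step1_mix {B q0 : ℕ} (hq0 : ∀ q r L : ℕ, q0 ≤ q → r ≤ q → 23 * q ≤ 25 * r → 17 * q ≤ 10 * L →
    (∑ u ∈ range (3 ^ q), |gg L q r u|) / 3 ^ q ≤ 1 / (q : ℝ) ^ B)
    {q r L : ℕ} (hq : q0 ≤ q) (hr : r ≤ q) (h23 : 23 * q ≤ 25 * r) (h17 : 17 * q ≤ 10 * L) :
    mn q (fun n => |XR L q q n - XR L r q n|) ≤ 1 / (q : ℝ) ^ B := by
  have h1 : (fun n : ℤ => |XR L q q n - XR L r q n|) = fun n : ℤ => (fun u : ℤ => |gg L q r u|) (2 ^ L * n) := by
    funext n
    show _ = |gg L q r (2 ^ L * n)|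
    rw [gg_eq]
  have h2 : ∀ n : ℤ, (fun u : ℤ => |gg L q r u|) (n + 3 ^ q) = (fun u : ℤ => |gg L q r u|) n := by
    intro n
    show |gg L q r (n + 3 ^ q)| = |gg L q r n|
    have h3 : ∀ s : ℕ, s ≤ q → ∀ c : ℕ, ((3 : ℤ) ^ s ∣ n + 3 ^ q - c) ↔ ((3 : ℤ) ^ s ∣ n - c) := by
      intro s hs c
      have h4 : (3 : ℤ) ^ s ∣ 3 ^ q := pow_dvd_pow 3 hs
      have h5 : n + 3 ^ q - (c : ℤ) = (n - c) + 3 ^ q := by ring
      rw [h5]
      exact dvd_add_left h4
    unfold gg
    simp only [h3 q le_rfl, h3 r hr]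
  rw [h1]
  exact (mn_unit (G := fun u : ℤ => |gg L q r u|) L h2).trans_le (hq0 q r L hq hr h23 h17)

theorem step1 (B : ℕ) : ∃ q0 : ℕ, ∀ a b r k : ℕ, q0 ≤ r → r ≤ k → 23 * k ≤ 25 * r →
    17 * k ≤ 10 * (a + b) →
    mn k (fun n => |XR (a + b) k k n - cvX a b k n|) ≤ 1 / (k : ℝ) ^ B + 1 / (r : ℝ) ^ B +
      2 * ∑ x ∈ (antidiagonal k).filter
        (fun x => ¬ (r ≤ x.1 ∧ 23 * x.1 ≤ 25 * r ∧ 17 * x.1 ≤ 10 * a)), bin a x.1 * bin b x.2 := by
  obtain ⟨q0, hq0⟩ := mix B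
  refine ⟨max q0 1, fun a b r k hr hrk h23 h17 => ?_⟩
  have hr0 : q0 ≤ r := (le_max_left _ _).trans hr
  have hr1 : 1 ≤ r := (le_max_right _ _).trans hr
  have hr1R : (1 : ℝ) ≤ r := by exact_mod_cast hr1
  -- the pointwise inequality
  set t : ℕ × ℕ → ℤ → ℝ := fun x n => |(if r ≤ x.1 then XR a r x.1 n else 0) - XR a x.1 x.1 n| with ht
  have hpt : ∀ n : ℤ, |XR (a + b) k k n - cvX a b k n| ≤
      |XR (a + b) k k n - XR (a + b) r k n| +
      (|XR (a + b) r k n - ∑ x ∈ (antidiagonal k).filter (fun x => r ≤ x.1), bin b x.2 * XR a r x.1 n| +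
      ∑ x ∈ antidiagonal k, bin b x.2 * t x n) := by
    intro n
    have h1 : ∑ x ∈ (antidiagonal k).filter (fun x => r ≤ x.1), bin b x.2 * XR a r x.1 n - cvX a b k n =
        ∑ x ∈ antidiagonal k, bin b x.2 * ((if r ≤ x.1 then XR a r x.1 n else 0) - XR a x.1 x.1 n) := by
      unfold cvX
      rw [sum_filter, ← sum_sub_distrib]
      refine sum_congr rfl fun x _ => ?_
      split_ifs <;> ring
    have h2 : |∑ x ∈ (antidiagonal k).filter (fun x => r ≤ x.1), bin b x.2 * XR a r x.1 n - cvX a b k n| ≤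
        ∑ x ∈ antidiagonal k, bin b x.2 * t x n := by
      rw [h1]
      refine (abs_sum_le_sum_abs _ _).trans (sum_le_sum fun x _ => ?_)
      rw [abs_mul, abs_of_nonneg (bin_nonneg b x.2)]
    have h3 := abs_sub_le (XR (a + b) k k n) (XR (a + b) r k n) (cvX a b k n)
    have h4 := abs_sub_le (XR (a + b) r k n)
      (∑ x ∈ (antidiagonal k).filter (fun x => r ≤ x.1), bin b x.2 * XR a r x.1 n) (cvX a b k n)
    linarith
  refine (mn_mono hpt).trans ?_
  rw [mn_add, mn_add, mn_sum]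
  have hA := step1_mix hq0 (hr0.trans hrk) hrk h23 h17
  have hB := split a b r k hrk
  have hC : ∀ x ∈ antidiagonal k, mn k (fun n => bin b x.2 * t x n) ≤
      1 / (r : ℝ) ^ B * bin b x.2 +
        ((if ¬ (r ≤ x.1 ∧ 23 * x.1 ≤ 25 * r ∧ 17 * x.1 ≤ 10 * a) then 2 * (bin a x.1 * bin b x.2) else 0) -
        (if ¬ r ≤ x.1 then bin a x.1 * bin b x.2 else 0)) := by
    intro x hx
    rw [HasAntidiagonal.mem_antidiagonal] at hx
    have hxk : x.1 ≤ k := by omega
    rw [mn_smul]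
    have hb := bin_nonneg b x.2
    have ha := bin_nonneg a x.1
    have hrB : (0 : ℝ) ≤ 1 / (r : ℝ) ^ B := by positivity
    by_cases h1 : r ≤ x.1
    · have hper : ∀ n : ℤ, t x (n + 3 ^ x.1) = t x n := by
        intro n
        simp only [ht, if_pos h1]
        rw [XR_periodic h1, XR_periodic le_rfl]
      by_cases h2 : 23 * x.1 ≤ 25 * r ∧ 17 * x.1 ≤ 10 * a
      · rw [if_neg (not_not.mpr ⟨h1, h2⟩), if_neg (not_not.mpr h1), sub_self, add_zero, mul_comm]
        refine mul_le_mul_of_nonneg_right ?_ hb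
        rw [mn_level hxk hper]
        have h3 := step1_mix hq0 (q := x.1) (r := r) (L := a) (hr0.trans h1) h1 h2.1 h2.2
        have h4 : mn x.1 (t x) = mn x.1 (fun n => |XR a x.1 x.1 n - XR a r x.1 n|) := by
          congr 1
          funext n
          simp only [ht, if_pos h1]
          exact abs_sub_comm _ _
        rw [h4]
        refine h3.trans ?_
        refine one_div_le_one_div_of_le (by positivity) ?_
        exact pow_le_pow_left₀ (by positivity) (by exact_mod_cast h1) _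
      · rw [if_pos (fun h => h2 h.2), if_neg (not_not.mpr h1), sub_zero]
        have h5 : mn k (t x) ≤ 2 * bin a x.1 := by
          have h6 : mn k (t x) ≤ mn k (fun n => XR a r x.1 n + XR a x.1 x.1 n) := by
            refine mn_mono fun n => ?_
            simp only [ht, if_pos h1]
            have h7 := XR_nonneg a r x.1 n
            have h8 := XR_nonneg a x.1 x.1 n
            rw [abs_le]
            constructor <;> linarith
          refine h6.trans_eq ?_
          rw [mn_add, mn_XR hrk, mn_XR hxk]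
          ring
        have h9 := mul_le_mul_of_nonneg_left h5 hb
        have h10 : 0 ≤ 1 / (r : ℝ) ^ B * bin b x.2 := mul_nonneg hrB hb
        linarith
    · rw [if_pos (fun h => h1 h.1), if_pos h1]
      have h5 : mn k (t x) = bin a x.1 := by
        have h6 : t x = XR a x.1 x.1 := by
          funext n
          simp only [ht, if_neg h1, zero_sub, abs_neg]
          exact abs_of_nonneg (XR_nonneg _ _ _ _)
        rw [h6, mn_XR hxk]
      rw [h5]
      have h10 : 0 ≤ 1 / (r : ℝ) ^ B * bin b x.2 := mul_nonneg hrB hb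
      linarith
  have hD := sum_le_sum hC
  rw [sum_add_distrib, sum_sub_distrib, ← sum_filter, ← sum_filter, ← mul_sum, ← mul_sum] at hD
  have hE : ∑ x ∈ antidiagonal k, bin b x.2 ≤ 1 := by
    rw [← Nat.sum_antidiagonal_swap, Nat.sum_antidiagonal_eq_sum_range_succ_mk]
    exact sum_bin_le b _
  have hF : 1 / (r : ℝ) ^ B * ∑ x ∈ antidiagonal k, bin b x.2 ≤ 1 / (r : ℝ) ^ B := by
    have h11 : (0 : ℝ) ≤ 1 / (r : ℝ) ^ B := by positivity
    have := mul_le_mul_of_nonneg_left hE h11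
    linarith
  linarith

end Pool.Agent.H89.ND
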