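import Pool.Agent.H89.ND.Step1

/-!
# JOB ND-STEPB. One scale, all `k`

`mn_le` : `mn k |XR (a+b) k k - cvX a b k| ≤ 2 bin (a+b) k` (`mn_XR`, `mn_cvX`), hence `EE a b ≤ 2`.
`step2` : let `l = a + b`, `r = 48 a / 100`. For `k` with `50 |2k - l| ≤ l` (so `0.49 l ≤ k ≤ 0.51 l ≤ 0.5202 a`) and large `a` the hypotheses of
`step1 (B+1)` hold, and a bad `x ∈ antidiagonal k` has `50 |2 x.1 - a| > a`. So `EE a b ≤ ∑_{k in the cone} (1/k^(B+1) + 1/r^(B+1))`
`+ 2 ∑_{i : 50 |2i - a| > a} bin a i + ∑_{k not in the cone} 2 bin l k ≤ (l+1) * 2/(a/3)^(B+1) + 8 exp(-a/5000)` (`bin_tail`, exchange of sums,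
`∑_j bin b j ≤ 1`). For small `a` use `EE a b ≤ 2` and a large `C`.
-/

set_option autoImplicit false

namespace Pool.Agent.H89.ND

open Finset Pool.Agent.H30 Pool.Agent.H30.PD

theorem mn_le (a b k : ℕ) : mn k (fun n => |XR (a + b) k k n - cvX a b k n|) ≤ 2 * bin (a + b) k := by
  have h1 : mn k (fun n => |XR (a + b) k k n - cvX a b k n|) ≤
      mn k (fun n => XR (a + b) k k n + cvX a b k n) := by
    apply mn_mono
    intro n
    have h1 := XR_nonneg (a + b) k k n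
    have h2 := cvX_nonneg a b k n
    rw [abs_le]
    constructor <;> linarith
  have e0 := mn_add k (XR (a + b) k k) (cvX a b k)
  have e1 : mn k (XR (a + b) k k) = bin (a + b) k := mn_XR le_rfl _ _
  have e2 : mn k (cvX a b k) = bin (a + b) k := mn_cvX le_rfl _ _
  rw [e1, e2] at e0
  rw [e0] at h1
  linarith

theorem EE_le_two (a b : ℕ) : EE a b ≤ 2 := by
  unfold EE
  calc _ ≤ ∑ k ∈ range (a + b + 1), 2 * bin (a + b) k := sum_le_sum fun k _ => mn_le a b k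
    _ = 2 := by rw [← mul_sum, sum_bin, mul_one]

/-- the tail of the binomial distribution -/
lemma step2_tail {n : ℕ} (hn : 1 ≤ n) (s : Finset ℕ)
    (hs : ∀ k ∈ s, k ≤ n ∧ (n : ℝ) / 50 ≤ |2 * (k : ℝ) - n|) :
    ∑ k ∈ s, bin n k ≤ 2 * Real.exp (-((n : ℝ) / 5000)) := by
  have hn0 : (0 : ℝ) < n := by exact_mod_cast hn
  have h6 := bin_tail hn (x := (n : ℝ) / 50) (by positivity)
  have e : -(((n : ℝ) / 50) ^ 2) / (2 * n) = -((n : ℝ) / 5000) := by
    field_simp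
    norm_num
  rw [e] at h6
  refine le_trans (Finset.sum_le_sum_of_subset_of_nonneg ?_ (fun k _ _ => bin_nonneg n k)) h6
  intro k hk
  rw [Finset.mem_filter, Finset.mem_range]
  exact ⟨Nat.lt_succ_of_le (hs k hk).1, (hs k hk).2⟩

/-- the contribution of the bad prefixes -/
lemma step2_bad {a b : ℕ} (ha : 1 ≤ a) (s : Finset ℕ) (hs : ∀ k ∈ s, k ≤ a + b)
    (P : ℕ × ℕ → Prop) [DecidablePred P] (hP : ∀ k ∈ s, ∀ x ∈ antidiagonal k, P x → 25 * x.1 < 12 * a) :
    ∑ k ∈ s, ∑ x ∈ (antidiagonal k).filter P, bin a x.1 * bin b x.2 ≤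
      2 * Real.exp (-((a : ℝ) / 5000)) := by
  set U : Finset (ℕ × ℕ) := (range (a + 1)).filter (fun i => 25 * i < 12 * a) ×ˢ range (a + b + 1)
    with hU
  have h1 : ∑ k ∈ s, ∑ x ∈ (antidiagonal k).filter P, bin a x.1 * bin b x.2 ≤
      ∑ k ∈ s, ∑ x ∈ U.filter (fun x => x.1 + x.2 = k), bin a x.1 * bin b x.2 := by
    apply sum_le_sum
    intro k hk
    apply Finset.sum_le_sum_of_subset_of_nonneg
    · intro x hx
      rw [mem_filter] at hx
      have h2 := hP k hk x hx.1 hx.2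
      have h3 := mem_antidiagonal.1 hx.1
      have h4 := hs k hk
      rw [mem_filter, hU, mem_product, mem_filter, mem_range, mem_range]
      refine ⟨⟨⟨by omega, h2⟩, by omega⟩, h3⟩
    · intro x _ _
      exact mul_nonneg (bin_nonneg _ _) (bin_nonneg _ _)
  have h2 : ∑ k ∈ s, ∑ x ∈ U.filter (fun x => x.1 + x.2 = k), bin a x.1 * bin b x.2 ≤
      ∑ x ∈ U, bin a x.1 * bin b x.2 := by
    have h3 : ∑ k ∈ s, ∑ x ∈ U.filter (fun x => x.1 + x.2 = k), bin a x.1 * bin b x.2 =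
        ∑ x ∈ U.filter (fun x => x.1 + x.2 ∈ s), bin a x.1 * bin b x.2 := by
      rw [← Finset.sum_fiberwise_of_maps_to (s := U.filter (fun x => x.1 + x.2 ∈ s)) (t := s)
        (g := fun x => x.1 + x.2) (fun x hx => (mem_filter.1 hx).2)]
      apply sum_congr rfl
      intro k hk
      rw [filter_filter]
      apply sum_congr _ (fun _ _ => rfl)
      ext x
      simp only [mem_filter]
      constructor
      · rintro ⟨h, h'⟩
        exact ⟨h, by rw [h']; exact hk, h'⟩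
      · rintro ⟨h, _, h'⟩
        exact ⟨h, h'⟩
    rw [h3]
    exact Finset.sum_le_sum_of_subset_of_nonneg (filter_subset _ _)
      (fun x _ _ => mul_nonneg (bin_nonneg _ _) (bin_nonneg _ _))
  refine h1.trans (h2.trans ?_)
  rw [hU, sum_product]
  simp_rw [← mul_sum]
  rw [← sum_mul]
  have h4 : ∑ i ∈ (range (a + 1)).filter (fun i => 25 * i < 12 * a), bin a i ≤
      2 * Real.exp (-((a : ℝ) / 5000)) := by
    apply step2_tail ha
    intro i hi
    rw [mem_filter, mem_range] at hi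
    refine ⟨by omega, ?_⟩
    have h5 : (25 : ℝ) * i < 12 * a := by exact_mod_cast hi.2
    have h6 : (0 : ℝ) ≤ a := Nat.cast_nonneg _
    rw [abs_of_neg (by linarith)]
    linarith
  have h5 : 0 ≤ ∑ i ∈ (range (a + 1)).filter (fun i => 25 * i < 12 * a), bin a i :=
    sum_nonneg fun i _ => bin_nonneg _ _
  calc _ ≤ (∑ i ∈ (range (a + 1)).filter (fun i => 25 * i < 12 * a), bin a i) * 1 :=
        mul_le_mul_of_nonneg_left (sum_bin_le b _) h5
    _ ≤ _ := by rw [mul_one]; exact h4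

lemma step2_large (B q0 : ℕ) (hq : ∀ a b r k : ℕ, q0 ≤ r → r ≤ k → 23 * k ≤ 25 * r →
    17 * k ≤ 10 * (a + b) →
    mn k (fun n => |XR (a + b) k k n - cvX a b k n|) ≤ 1 / (k : ℝ) ^ (B + 1) +
      1 / (r : ℝ) ^ (B + 1) +
      2 * ∑ x ∈ (antidiagonal k).filter
        (fun x => ¬ (r ≤ x.1 ∧ 23 * x.1 ≤ 25 * r ∧ 17 * x.1 ≤ 10 * a)), bin a x.1 * bin b x.2)
    {a b : ℕ} (ha : 3 * q0 + 1000 ≤ a) (hb : 50 * b ≤ a) :
    EE a b ≤ 5 * 3 ^ (B + 1) / (a : ℝ) ^ B + 8 * Real.exp (-((a : ℝ) / 5000)) := by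
  classical
  have ha1 : 1 ≤ a := by omega
  have ha0 : (0 : ℝ) < a := by exact_mod_cast ha1
  set r := 48 * a / 100 with hr
  set s := (range (a + b + 1)).filter (fun k => 49 * (a + b) ≤ 100 * k ∧ 100 * k ≤ 51 * (a + b))
    with hs
  set t := (range (a + b + 1)).filter
    (fun k => ¬ (49 * (a + b) ≤ 100 * k ∧ 100 * k ≤ 51 * (a + b))) with ht
  have hsplit : EE a b = ∑ k ∈ s, mn k (fun n => |XR (a + b) k k n - cvX a b k n|) +
      ∑ k ∈ t, mn k (fun n => |XR (a + b) k k n - cvX a b k n|) := by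
    unfold EE
    rw [hs, ht, sum_filter_add_sum_filter_not]
  -- outside the cone
  have hout : ∑ k ∈ t, mn k (fun n => |XR (a + b) k k n - cvX a b k n|) ≤
      4 * Real.exp (-((a : ℝ) / 5000)) := by
    have h1 : ∑ k ∈ t, mn k (fun n => |XR (a + b) k k n - cvX a b k n|) ≤
        ∑ k ∈ t, 2 * bin (a + b) k := sum_le_sum fun k _ => mn_le a b k
    rw [← mul_sum] at h1
    have h2 : ∑ k ∈ t, bin (a + b) k ≤ 2 * Real.exp (-(((a + b : ℕ) : ℝ) / 5000)) := by
      apply step2_tail (by omega)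
      intro k hk
      rw [ht, mem_filter, mem_range] at hk
      refine ⟨by omega, ?_⟩
      rcases not_and_or.1 hk.2 with h3 | h3
      · push Not at h3
        have h4 : (100 : ℝ) * k < 49 * ((a + b : ℕ) : ℝ) := by exact_mod_cast h3
        have h5 : (0 : ℝ) ≤ ((a + b : ℕ) : ℝ) := Nat.cast_nonneg _
        rw [abs_of_neg (by linarith)]
        linarith
      · push Not at h3
        have h4 : 51 * ((a + b : ℕ) : ℝ) < (100 : ℝ) * k := by exact_mod_cast h3
        have h5 : (0 : ℝ) ≤ ((a + b : ℕ) : ℝ) := Nat.cast_nonneg _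
        rw [abs_of_pos (by linarith)]
        linarith
    have h3 : Real.exp (-(((a + b : ℕ) : ℝ) / 5000)) ≤ Real.exp (-((a : ℝ) / 5000)) := by
      apply Real.exp_le_exp.2
      have : (a : ℝ) ≤ ((a + b : ℕ) : ℝ) := by push_cast; have : (0 : ℝ) ≤ b := Nat.cast_nonneg _; linarith
      linarith
    linarith
  -- inside the cone
  have hr3 : a ≤ 3 * r := by omega
  have hrR : (a : ℝ) / 3 ≤ r := by
    rw [div_le_iff₀ (by norm_num)]
    have : (a : ℝ) ≤ ((3 * r : ℕ) : ℝ) := by exact_mod_cast hr3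
    push_cast at this
    linarith
  have hin1 : ∀ k ∈ s, mn k (fun n => |XR (a + b) k k n - cvX a b k n|) ≤
      2 * (1 / ((a : ℝ) / 3) ^ (B + 1)) +
      2 * ∑ x ∈ (antidiagonal k).filter
        (fun x => ¬ (r ≤ x.1 ∧ 23 * x.1 ≤ 25 * r ∧ 17 * x.1 ≤ 10 * a)), bin a x.1 * bin b x.2 := by
    intro k hk
    rw [hs, mem_filter, mem_range] at hk
    obtain ⟨hk1, hk2, hk3⟩ := hk
    have h1 := hq a b r k (by omega) (by omega) (by omega) (by omega)
    have hk4 : a ≤ 3 * k := by omega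
    have hkR : (a : ℝ) / 3 ≤ k := by
      rw [div_le_iff₀ (by norm_num)]
      have : (a : ℝ) ≤ ((3 * k : ℕ) : ℝ) := by exact_mod_cast hk4
      push_cast at this
      linarith
    have h2 : 1 / (k : ℝ) ^ (B + 1) ≤ 1 / ((a : ℝ) / 3) ^ (B + 1) := by
      apply one_div_le_one_div_of_le (by positivity)
      exact pow_le_pow_left₀ (by positivity) hkR _
    have h3 : 1 / (r : ℝ) ^ (B + 1) ≤ 1 / ((a : ℝ) / 3) ^ (B + 1) := by
      apply one_div_le_one_div_of_le (by positivity)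
      exact pow_le_pow_left₀ (by positivity) hrR _
    linarith
  have hin2 := sum_le_sum hin1
  rw [sum_add_distrib, ← mul_sum, ← mul_sum, sum_const, nsmul_eq_mul] at hin2
  have hbad := step2_bad (b := b) ha1 s (fun k hk => by
      rw [hs, mem_filter, mem_range] at hk; omega)
    (fun x => ¬ (r ≤ x.1 ∧ 23 * x.1 ≤ 25 * r ∧ 17 * x.1 ≤ 10 * a)) (by
      intro k hk x hx hP
      rw [hs, mem_filter, mem_range] at hk
      obtain ⟨hk1, hk2, hk3⟩ := hk
      have hx' := mem_antidiagonal.1 hx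
      omega)
  have hcard : (s.card : ℝ) ≤ 5 / 2 * a := by
    have h1 : s.card ≤ a + b + 1 := by
      rw [hs]
      exact (card_filter_le _ _).trans (by rw [card_range])
    have h2 : 2 * s.card ≤ 5 * a := by omega
    have h3 : 2 * (s.card : ℝ) ≤ 5 * a := by exact_mod_cast h2
    linarith
  have hpw : (s.card : ℝ) * (2 * (1 / ((a : ℝ) / 3) ^ (B + 1))) ≤
      5 * 3 ^ (B + 1) / (a : ℝ) ^ B := by
    calc (s.card : ℝ) * (2 * (1 / ((a : ℝ) / 3) ^ (B + 1)))
        ≤ (5 / 2 * a) * (2 * (1 / ((a : ℝ) / 3) ^ (B + 1))) := by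
          apply mul_le_mul_of_nonneg_right hcard (by positivity)
      _ = 5 * 3 ^ (B + 1) / (a : ℝ) ^ B := by
          rw [div_pow, pow_succ (a : ℝ) B]
          field_simp
  rw [hsplit]
  have e : 2 * ((s.card : ℝ) * (1 / ((a : ℝ) / 3) ^ (B + 1))) =
      (s.card : ℝ) * (2 * (1 / ((a : ℝ) / 3) ^ (B + 1))) := by ring
  rw [e] at hin2
  linarith

theorem step2 (B : ℕ) : ∃ C : ℝ, 0 ≤ C ∧ ∀ a b : ℕ, 1 ≤ a → 50 * b ≤ a →
    EE a b ≤ C / (a : ℝ) ^ B := by
  obtain ⟨q0, hq⟩ := step1 (B + 1)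
  refine ⟨2 * ((3 * q0 + 1000 : ℕ) : ℝ) ^ B + 5 * 3 ^ (B + 1) + 8 * (5000 ^ B * (B.factorial : ℝ)),
    by positivity, ?_⟩
  intro a b ha hb
  have ha0 : (0 : ℝ) < a := by exact_mod_cast ha
  have haB : (0 : ℝ) < (a : ℝ) ^ B := by positivity
  rw [le_div_iff₀ haB]
  have p1 : (0 : ℝ) ≤ 2 * ((3 * q0 + 1000 : ℕ) : ℝ) ^ B := by positivity
  have p2 : (0 : ℝ) ≤ 5 * 3 ^ (B + 1) := by positivity
  have p3 : (0 : ℝ) ≤ 8 * (5000 ^ B * (B.factorial : ℝ)) := by positivity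
  rcases le_or_gt (3 * q0 + 1000) a with h | h
  · have h1 := step2_large B q0 hq h hb
    have h2 : Real.exp (-((a : ℝ) / 5000)) * (a : ℝ) ^ B ≤ 5000 ^ B * (B.factorial : ℝ) := by
      have h3 := Real.pow_div_factorial_le_exp ((a : ℝ) / 5000) (by positivity) B
      rw [div_pow, div_div, div_le_iff₀ (by positivity)] at h3
      rw [Real.exp_neg, inv_mul_le_iff₀ (Real.exp_pos _)]
      exact h3
    have h4 : EE a b * (a : ℝ) ^ B ≤
        (5 * 3 ^ (B + 1) / (a : ℝ) ^ B + 8 * Real.exp (-((a : ℝ) / 5000))) * (a : ℝ) ^ B :=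
      mul_le_mul_of_nonneg_right h1 haB.le
    rw [add_mul, div_mul_cancel₀ _ haB.ne', mul_assoc] at h4
    linarith
  · have h1 := EE_le_two a b
    have h2 : (a : ℝ) ^ B ≤ ((3 * q0 + 1000 : ℕ) : ℝ) ^ B := by
      apply pow_le_pow_left₀ ha0.le
      exact_mod_cast h.le
    have h3 : EE a b * (a : ℝ) ^ B ≤ 2 * (a : ℝ) ^ B := mul_le_mul_of_nonneg_right h1 haB.le
    linarith

end Pool.Agent.H89.ND
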