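import Pool.Agent.H89.ND.Harm
import Pool.Agent.H89.ND.Lim

/-!
# JOB ND-UNI. Natural densities exist

* `evInv_diff`: `T n = 0 ↔ n = 0`.
* `rat_approx`: let `U' = U \ {0}`. `{n ∈ U : |n| ≤ x}` is the disjoint union of the parts of `U'` in `(-x, 0]`, `(0, x]`, of `{-x} ∩ U'` and `{0} ∩ U`
  (`x ≥ 1`), so its card is `x (d₁ + d₂) + θ`, `0 ≤ θ ≤ 2`, with `d₁ = dU U' (-1) (log x)`, `d₂ = dU U' 0 (log x)` (`exp (log x) = x`; `0 ≤ d₁, d₂ ≤ 1`), and
  `|card/(2x+1) - (d₁+d₂)/2| = |2θ - (d₁+d₂)|/(2(2x+1)) ≤ 2/(2x+1)`. (`Nat.card` of the subtype = card of a `Finset.filter` of `Icc (-x) x`.)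
* `rat_cauchy`: `good`, `good_lim` for `U \ {0}`, `α = 0, -1` and `η/4`; `log x → ∞`.
* `tendsto_dens`: Cauchy sequence, `tendsto_nhds_limUnder`; `dens_unif`: let `x' → ∞` in `rat_cauchy 0`.
* `dens_nonneg`, `dens_le_one`: limits of `0 ≤ rat U x ≤ 1`. `dens_univ`: `rat univ x = 1`.
-/

set_option autoImplicit false

namespace Pool.Agent.H89.ND

open Finset Filter Topology Pool.Agent.H30 Pool.Agent.H30.PD

/-- The proportion of the integers `n` with `|n| ≤ x` which lie in `U`. -/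
noncomputable def rat (U : Set ℤ) (x : ℕ) : ℝ :=
  (Nat.card {n : ℤ // n ∈ U ∧ |n| ≤ x} : ℝ) / (2 * x + 1)

/-- The natural density. -/
noncomputable def dens (U : Set ℤ) : ℝ := limUnder atTop (rat U)

open Classical in
/-- the finite set behind `rat` -/
noncomputable def UniF (U : Set ℤ) (x : ℕ) : Finset ℤ :=
  (Finset.Icc (-(x : ℤ)) x).filter fun n => n ∈ U

theorem Uni_card (U : Set ℤ) (x : ℕ) : Nat.card {n : ℤ // n ∈ U ∧ |n| ≤ x} = (UniF U x).card := by
  classical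
  refine Nat.subtype_card (UniF U x) fun n => ?_
  simp only [UniF, Finset.mem_filter, Finset.mem_Icc, abs_le]
  tauto

theorem rat_nonneg (U : Set ℤ) (x : ℕ) : 0 ≤ rat U x := by
  unfold rat
  positivity

theorem rat_le_one (U : Set ℤ) (x : ℕ) : rat U x ≤ 1 := by
  classical
  unfold rat
  rw [div_le_one (by positivity), Uni_card]
  have h1 : (UniF U x).card ≤ (Finset.Icc (-(x : ℤ)) x).card := Finset.card_filter_le _ _
  rw [Int.card_Icc] at h1
  have h2 : (UniF U x).card ≤ 2 * x + 1 := h1.trans (by omega)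
  exact_mod_cast h2

theorem Uni_T_zero (n : ℤ) : T n = 0 ↔ n = 0 := by
  unfold T
  split_ifs with h
  · omega
  · omega

theorem evInv_diff {U : Set ℤ} {K : ℕ} (hU : EvInv U K) : EvInv (U \ {0}) K := by
  intro n hn
  simp only [Set.mem_sdiff, Set.mem_singleton_iff, Uni_T_zero, hU n hn]

theorem rat_approx (U : Set ℤ) {x : ℕ} (hx : 1 ≤ x) :
    |rat U x - (dU (U \ {0}) (-1) (Real.log x) + dU (U \ {0}) 0 (Real.log x)) / 2| ≤
      2 / (2 * x + 1) := by
  classical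
  have hx0 : (0 : ℝ) < x := by exact_mod_cast hx
  have hexp : Real.exp (Real.log x) = x := Real.exp_log hx0
  set A := (Finset.Ioc (-(x : ℤ)) 0).filter fun n => n ∈ U \ {0} with hA
  set B := (Finset.Ioc (0 : ℤ) x).filter fun n => n ∈ U \ {0} with hB
  have e1 : dU (U \ {0}) (-1) (Real.log x) = (A.card : ℝ) / x := by
    unfold dU cnt
    rw [hexp]
    have h1 : ⌊(-1 : ℝ) * x⌋ = -(x : ℤ) := by
      rw [Int.floor_eq_iff]; push_cast; constructor <;> linarith
    have h2 : ⌊((-1 : ℝ) + 1) * x⌋ = 0 := by norm_num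
    rw [h1, h2, Finset.filter_congr_decidable]
    rfl
  have e2 : dU (U \ {0}) 0 (Real.log x) = (B.card : ℝ) / x := by
    unfold dU cnt
    rw [hexp]
    have h1 : ⌊(0 : ℝ) * x⌋ = 0 := by norm_num
    have h2 : ⌊((0 : ℝ) + 1) * x⌋ = (x : ℤ) := by simp
    rw [h1, h2, Finset.filter_congr_decidable]
    rfl
  -- cardinalities
  have hdisj : Disjoint A B := by
    rw [Finset.disjoint_left]
    intro n hn hn'
    simp only [hA, hB, Finset.mem_filter, Finset.mem_Ioc] at hn hn'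
    omega
  have hsub : A ∪ B ⊆ UniF U x := by
    intro n hn
    simp only [hA, hB, Finset.mem_union, Finset.mem_filter, Finset.mem_Ioc, Set.mem_sdiff] at hn
    simp only [UniF, Finset.mem_filter, Finset.mem_Icc]
    rcases hn with ⟨h1, h2, _⟩ | ⟨h1, h2, _⟩
    · exact ⟨⟨by omega, by omega⟩, h2⟩
    · exact ⟨⟨by omega, by omega⟩, h2⟩
  have hsub2 : UniF U x ⊆ (A ∪ B) ∪ {-(x : ℤ), 0} := by
    intro n hn
    simp only [UniF, Finset.mem_filter, Finset.mem_Icc] at hn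
    simp only [hA, hB, Finset.mem_union, Finset.mem_filter, Finset.mem_Ioc, Set.mem_sdiff,
      Set.mem_singleton_iff, Finset.mem_insert, Finset.mem_singleton]
    obtain ⟨⟨h1, h2⟩, h3⟩ := hn
    by_cases h4 : n = -(x : ℤ)
    · right; left; exact h4
    · by_cases h5 : n = 0
      · right; right; exact h5
      · left
        rcases lt_or_gt_of_ne h5 with h6 | h6
        · left; exact ⟨⟨by omega, by omega⟩, h3, h5⟩
        · right; exact ⟨⟨by omega, by omega⟩, h3, h5⟩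
  have hc1 : A.card + B.card ≤ (UniF U x).card := by
    rw [← Finset.card_union_of_disjoint hdisj]
    exact Finset.card_le_card hsub
  have hc2 : (UniF U x).card ≤ A.card + B.card + 2 := by
    rw [← Finset.card_union_of_disjoint hdisj]
    refine (Finset.card_le_card hsub2).trans ((Finset.card_union_le _ _).trans ?_)
    exact Nat.add_le_add_left (Finset.card_le_two) _
  have hA1 : A.card ≤ x := by
    refine (Finset.card_filter_le _ _).trans ?_
    rw [Int.card_Ioc]; omega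
  have hB1 : B.card ≤ x := by
    refine (Finset.card_filter_le _ _).trans ?_
    rw [Int.card_Ioc]; omega
  have hN : rat U x = ((UniF U x).card : ℝ) / (2 * x + 1) := by
    unfold rat
    rw [Uni_card]
  rw [hN, e1, e2]
  have hc1' : (A.card : ℝ) + B.card ≤ (UniF U x).card := by exact_mod_cast hc1
  have hc2' : ((UniF U x).card : ℝ) ≤ A.card + B.card + 2 := by exact_mod_cast hc2
  have hA1' : (A.card : ℝ) ≤ x := by exact_mod_cast hA1
  have hB1' : (B.card : ℝ) ≤ x := by exact_mod_cast hB1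
  have hA0 : (0 : ℝ) ≤ A.card := Nat.cast_nonneg _
  have hB0 : (0 : ℝ) ≤ B.card := Nat.cast_nonneg _
  set N : ℝ := ((UniF U x).card : ℝ)
  set a : ℝ := (A.card : ℝ)
  set b : ℝ := (B.card : ℝ)
  have key : N / (2 * x + 1) - (a / x + b / x) / 2 =
      (2 * x * (N - (a + b)) - (a + b)) / (2 * x * (2 * x + 1)) := by
    field_simp
    ring
  rw [key, abs_div, abs_of_pos (show (0 : ℝ) < 2 * x * (2 * x + 1) by positivity),
    div_le_div_iff₀ (by positivity) (by positivity)]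
  have h3 : |2 * (x : ℝ) * (N - (a + b)) - (a + b)| ≤ 4 * x := by
    rw [abs_le]
    constructor
    · nlinarith
    · nlinarith
  calc |2 * (x : ℝ) * (N - (a + b)) - (a + b)| * (2 * x + 1) ≤ 4 * x * (2 * x + 1) :=
        mul_le_mul_of_nonneg_right h3 (by positivity)
    _ = 2 * (2 * x * (2 * x + 1)) := by ring

theorem rat_cauchy (K : ℕ) (η : ℝ) (hη : 0 < η) : ∃ N : ℕ, ∀ U : Set ℤ, EvInv U K →
    ∀ x ≥ N, ∀ x' ≥ N, |rat U x - rat U x'| ≤ η := by
  obtain ⟨C, hC, hg⟩ := good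
  obtain ⟨s₀, _, hg⟩ := hg K
  obtain ⟨s₁, hl⟩ := good_lim C s₀ hC (η / 4) (by positivity)
  refine ⟨max ⌈Real.exp s₁⌉₊ (max ⌈8 / η⌉₊ 1), ?_⟩
  intro U hU
  have hU' : EvInv (U \ {0}) K := evInv_diff hU
  have h0 : (0 : ℤ) ∉ U \ {0} := by simp
  have g0 := hg (U \ {0}) hU' h0 0 (Or.inl rfl)
  have g1 := hg (U \ {0}) hU' h0 (-1) (Or.inr rfl)
  have facts : ∀ x ≥ max ⌈Real.exp s₁⌉₊ (max ⌈8 / η⌉₊ 1), 1 ≤ x ∧ s₁ ≤ Real.log x ∧
      (2 : ℝ) / (2 * x + 1) ≤ η / 4 := by
    intro x hx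
    have h1 : ⌈Real.exp s₁⌉₊ ≤ x := (le_max_left _ _).trans hx
    have h2 : ⌈8 / η⌉₊ ≤ x := (le_max_left _ _).trans ((le_max_right _ _).trans hx)
    have h3 : 1 ≤ x := (le_max_right _ _).trans ((le_max_right _ _).trans hx)
    have hx0 : (0 : ℝ) < x := by exact_mod_cast h3
    refine ⟨h3, ?_, ?_⟩
    · rw [Real.le_log_iff_exp_le hx0]
      exact (Nat.le_ceil _).trans (by exact_mod_cast h1)
    · have h4 : 8 / η ≤ x := (Nat.le_ceil _).trans (by exact_mod_cast h2)
      rw [div_le_iff₀ hη] at h4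
      rw [div_le_div_iff₀ (by positivity) (by norm_num)]
      nlinarith
  intro x hx x' hx'
  obtain ⟨a1, a2, a3⟩ := facts x hx
  obtain ⟨b1, b2, b3⟩ := facts x' hx'
  have r1 := rat_approx U a1
  have r2 := rat_approx U b1
  have d0 := hl _ g0 _ a2 _ b2
  have d1 := hl _ g1 _ a2 _ b2
  rw [abs_le] at *
  constructor
  · linarith [r1.1, r1.2, r2.1, r2.2, d0.1, d0.2, d1.1, d1.2]
  · linarith [r1.1, r1.2, r2.1, r2.2, d0.1, d0.2, d1.1, d1.2]

theorem tendsto_dens {U : Set ℤ} {K : ℕ} (hU : EvInv U K) :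
    Tendsto (rat U) atTop (𝓝 (dens U)) := by
  have h1 : CauchySeq (rat U) := by
    rw [Metric.cauchySeq_iff]
    intro ε hε
    obtain ⟨N, hN⟩ := rat_cauchy K (ε / 2) (by positivity)
    refine ⟨N, fun m hm n hn => ?_⟩
    rw [Real.dist_eq]
    exact (hN U hU m hm n hn).trans_lt (by linarith)
  obtain ⟨a, ha⟩ := cauchySeq_tendsto_of_complete h1
  rw [dens, ha.limUnder_eq]
  exact ha

theorem dens_unif (η : ℝ) (hη : 0 < η) : ∃ N : ℕ, ∀ U : Set ℤ, (∀ n, T n ∈ U ↔ n ∈ U) →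
    ∀ x ≥ N, |rat U x - dens U| ≤ η := by
  obtain ⟨N, hN⟩ := rat_cauchy 0 η hη
  refine ⟨N, fun U hU x hx => ?_⟩
  have hE : EvInv U 0 := fun n _ => hU n
  have h1 := tendsto_dens hE
  have h2 : Tendsto (fun x' => |rat U x - rat U x'|) atTop (𝓝 |rat U x - dens U|) :=
    (tendsto_const_nhds.sub h1).abs
  refine le_of_tendsto h2 ?_
  filter_upwards [eventually_ge_atTop N] with x' hx'
  exact hN U hE x hx x' hx'

end Pool.Agent.H89.ND
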