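import Pool.Agent.H89.ND.Defs
import Pool.Agent.H30.PD.Words

/-!
# JOB ND-WORD. Every integer has exactly one word; growth of orbits

* `exists_word`: induction on `l` for all `m` (`mem_D_succ`, `Function.iterate_succ_apply`): if `m` is even and `(k, c)` is the word of `T m = m/2`, then
  `(k, 2c)`; if `m` is odd and `(k, c)` is the word of `T m = (3m+1)/2`, then `(k+1, 2c+3^k)`.
* `word_unique`: induction on `l` for all `m`: `p.2` is even iff `m` is even (from `3^(p.1) m = 2^(l+1) y - p.2`), which decides between the two cases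
  of `mem_D_succ` (`3^k` is odd); the smaller words are words of `T m` with the same `y`.
* `T_ge`: `|m| ≤ 2 |T m|`. `T_iter_ge`: induction.
-/

set_option autoImplicit false

namespace Pool.Agent.H89.ND

open Finset Pool.Agent.H30 Pool.Agent.H30.PD

theorem word_T_even {m : ℤ} (h : m % 2 = 0) : 2 * T m = m := by
  rw [T, if_pos h]
  omega

theorem word_T_odd {m : ℤ} (h : ¬ m % 2 = 0) : 2 * T m = 3 * m + 1 := by
  rw [T, if_neg h]
  omega

theorem word_even_of_pow {k : ℕ} {a b : ℤ} (h : (3 : ℤ) ^ k * a = 2 * b) : ∃ a', a = 2 * a' := by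
  have hcop : IsCoprime (2 : ℤ) ((3 : ℤ) ^ k) := IsCoprime.pow_right (by norm_num)
  exact hcop.dvd_of_dvd_mul_left ⟨b, h⟩

theorem exists_word (l : ℕ) (m : ℤ) : ∃ p ∈ D l, (3 : ℤ) ^ p.1 * m = 2 ^ l * T^[l] m - p.2 := by
  induction l generalizing m with
  | zero => exact ⟨(0, 0), by simp [D], by simp⟩
  | succ l ih =>
    obtain ⟨p, hp, h⟩ := ih (T m)
    rw [Function.iterate_succ_apply]
    by_cases hm : m % 2 = 0
    · have h2 := word_T_even hm
      refine ⟨(p.1, 2 * p.2), (mem_D_succ l _).2 ⟨p, hp, Or.inl rfl⟩, ?_⟩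
      simp only
      push_cast
      rw [pow_succ]
      linear_combination 2 * h - (3 : ℤ) ^ p.1 * h2
    · have h2 := word_T_odd hm
      refine ⟨(p.1 + 1, 2 * p.2 + 3 ^ p.1), (mem_D_succ l _).2 ⟨p, hp, Or.inr rfl⟩, ?_⟩
      simp only
      push_cast
      rw [pow_succ, pow_succ]
      linear_combination 2 * h - (3 : ℤ) ^ p.1 * h2

theorem word_unique {l : ℕ} {m y y' : ℤ} {p p' : ℕ × ℕ} (hp : p ∈ D l) (hp' : p' ∈ D l)
    (h : (3 : ℤ) ^ p.1 * m = 2 ^ l * y - p.2) (h' : (3 : ℤ) ^ p'.1 * m = 2 ^ l * y' - p'.2) :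
    p = p' ∧ y = y' := by
  induction l generalizing m y y' p p' with
  | zero =>
    have e : p = (0, 0) := by simpa [D] using hp
    have e' : p' = (0, 0) := by simpa [D] using hp'
    subst e e'
    simp only [pow_zero, one_mul, Nat.cast_zero, sub_zero] at h h'
    exact ⟨rfl, h.symm.trans h'⟩
  | succ l ih =>
    obtain ⟨q, hq, hpq⟩ := (mem_D_succ l p).1 hp
    obtain ⟨q', hq', hpq'⟩ := (mem_D_succ l p').1 hp'
    rcases hpq with rfl | rfl
    · have h1 : (3 : ℤ) ^ q.1 * m = 2 * (2 ^ l * y - q.2) := by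
        simp only at h
        push_cast at h
        rw [h, pow_succ]
        ring
      obtain ⟨m₁, rfl⟩ := word_even_of_pow h1
      have h2 : (3 : ℤ) ^ q.1 * m₁ = 2 ^ l * y - q.2 := by linarith
      rcases hpq' with rfl | rfl
      · have h2' : (3 : ℤ) ^ q'.1 * m₁ = 2 ^ l * y' - q'.2 := by
          simp only at h'
          push_cast at h'
          rw [pow_succ] at h'
          linarith
        obtain ⟨e1, e2⟩ := ih hq hq' h2 h2'
        exact ⟨by rw [e1], e2⟩
      · exfalso
        have h3 : (3 : ℤ) ^ q'.1 * (3 * (2 * m₁) + 1) = 2 * (2 ^ l * y' - q'.2) := by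
          simp only at h'
          push_cast at h'
          rw [pow_succ, pow_succ] at h'
          linarith
        obtain ⟨b, hb⟩ := word_even_of_pow h3
        omega
    · have h1 : (3 : ℤ) ^ q.1 * (3 * m + 1) = 2 * (2 ^ l * y - q.2) := by
        simp only at h
        push_cast at h
        rw [pow_succ, pow_succ] at h
        linarith
      obtain ⟨m₁, hm₁⟩ := word_even_of_pow h1
      have h2 : (3 : ℤ) ^ q.1 * m₁ = 2 ^ l * y - q.2 := by
        rw [hm₁] at h1
        linarith
      rcases hpq' with rfl | rfl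
      · exfalso
        have h3 : (3 : ℤ) ^ q'.1 * m = 2 * (2 ^ l * y' - q'.2) := by
          simp only at h'
          push_cast at h'
          rw [h', pow_succ]
          ring
        obtain ⟨b, hb⟩ := word_even_of_pow h3
        omega
      · have h3 : (3 : ℤ) ^ q'.1 * (3 * m + 1) = 2 * (2 ^ l * y' - q'.2) := by
          simp only at h'
          push_cast at h'
          rw [pow_succ, pow_succ] at h'
          linarith
        have h2' : (3 : ℤ) ^ q'.1 * m₁ = 2 ^ l * y' - q'.2 := by
          rw [hm₁] at h3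
          linarith
        obtain ⟨e1, e2⟩ := ih hq hq' h2 h2'
        exact ⟨by rw [e1], e2⟩

theorem T_ge (m : ℤ) : |m| ≤ 2 * |T m| := by
  have h0 : 2 * |T m| = |2 * T m| := by rw [abs_mul]; norm_num
  rw [h0]
  by_cases hm : m % 2 = 0
  · rw [word_T_even hm]
  · rw [word_T_odd hm]
    rcases le_or_gt 0 m with h | h
    · rw [abs_of_nonneg h, abs_of_nonneg (by linarith)]
      linarith
    · rw [abs_of_neg h, abs_of_nonpos (by omega)]
      omega

theorem T_iter_ge (l : ℕ) (m : ℤ) : |m| ≤ 2 ^ l * |T^[l] m| := by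
  induction l generalizing m with
  | zero => simp
  | succ l ih =>
    rw [Function.iterate_succ_apply, pow_succ]
    have h1 := T_ge m
    have h2 := ih (T m)
    linarith

end Pool.Agent.H89.ND
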